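import Pool.Agent.Lib.MP_0430e4_lc.LPLOW.Ident

/-!
# Positivity of the bilateral series
-/

set_option autoImplicit false

namespace Pool.Agent.Lib.MP_0430e4_lc.LPLOW

open Complex Filter Topology
open Exact (sech)

namespace Pos

/-- coefficients of `X` -/
noncomputable def hx (η : ℝ) (M : ℤ) : ℝ := sech (M * η)

theorem hx_pos (η : ℝ) (M : ℤ) : 0 < hx η M := sech_pos _

theorem hx_neg (η : ℝ) (M : ℤ) : hx η (-M) = hx η M := by
  unfold hx
  push_cast
  rw [neg_mul, sech_neg]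

theorem hx_zero (η : ℝ) : hx η 0 = 1 := by unfold hx; simp [sech_zero]

theorem hx_dec {η : ℝ} (hη : 0 < η) : Dec η (hx η) := by
  refine ⟨2, fun k => ?_⟩
  rw [abs_of_pos (hx_pos _ _)]
  refine (sech_le _).trans (le_of_eq ?_)
  rw [abs_mul, abs_of_pos hη]
  congr 2
  ring

/-- `(-1)^M` twist -/
noncomputable def tw (c : ℤ → ℝ) (M : ℤ) : ℝ := (-1 : ℝ) ^ M * c M

theorem abs_m1 (M : ℤ) : |(-1 : ℝ) ^ M| = 1 := by
  rw [abs_zpow, abs_neg, abs_one, one_zpow]

theorem m1_add (M N : ℤ) : (-1 : ℝ) ^ (M + N) = (-1) ^ M * (-1) ^ N := zpow_add₀ (by norm_num) M N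

theorem m1_neg (M : ℤ) : (-1 : ℝ) ^ (-M) = (-1) ^ M := by
  rw [zpow_neg, ← inv_zpow]
  norm_num

theorem m1_mul_self (M : ℤ) : (-1 : ℝ) ^ M * (-1) ^ M = 1 := by
  rw [← mul_zpow]
  norm_num

theorem tw_dec {κ : ℝ} {c : ℤ → ℝ} (h : Dec κ c) : Dec κ (tw c) := by
  apply h.of_le
  intro k
  unfold tw
  rw [abs_mul, abs_m1, one_mul]

theorem exp_int_pi (M : ℤ) : Complex.exp (M * (Real.pi * I)) = (((-1 : ℝ) ^ M : ℝ) : ℂ) := by
  rcases Int.even_or_odd M with h | h
  · rw [h.neg_one_zpow]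
    obtain ⟨r, rfl⟩ := h
    rw [show (((r + r : ℤ) : ℂ)) * (Real.pi * I) = (r : ℂ) * (2 * Real.pi * I) by push_cast; ring]
    rw [Complex.exp_int_mul_two_pi_mul_I r]
    simp
  · rw [h.neg_one_zpow]
    obtain ⟨r, rfl⟩ := h
    rw [show (((2 * r + 1 : ℤ) : ℂ)) * (Real.pi * I)
      = (r : ℂ) * (2 * Real.pi * I) + Real.pi * I by push_cast; ring]
    rw [Complex.exp_add, Complex.exp_int_mul_two_pi_mul_I, Complex.exp_pi_mul_I]
    simp

theorem S_add_pi (c : ℤ → ℝ) (s : ℂ) : S c (s + Real.pi * I) = S (tw c) s := by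
  unfold S tw
  congr 1
  funext M
  rw [mul_add, Complex.exp_add, exp_int_pi]
  push_cast
  ring

/-- telescoping -/
theorem tanh_sub {x a : ℝ} :
    Real.tanh x - Real.tanh (x - a) = Real.sinh a * (sech x * sech (a - x)) := by
  unfold sech
  have h1 := (Real.cosh_pos x).ne'
  have h2 := (Real.cosh_pos (a - x)).ne'
  have h4 : Real.cosh (x - a) = Real.cosh (a - x) := by rw [← Real.cosh_neg]; ring_nf
  have h5 : Real.sinh (x - a) = -Real.sinh (a - x) := by rw [← Real.sinh_neg]; ring_nf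
  rw [Real.tanh_eq_sinh_div_cosh, Real.tanh_eq_sinh_div_cosh, h4, h5]
  have h6 : Real.sinh a = Real.sinh x * Real.cosh (a - x) + Real.cosh x * Real.sinh (a - x) := by
    rw [← Real.sinh_add]
    ring_nf
  field_simp
  rw [h6]
  ring

/-- increments of `tanh` -/
noncomputable def uu (η : ℝ) (M : ℤ) : ℝ := Real.tanh (M * η) - Real.tanh ((M - 1) * η)

theorem uu_summable {η : ℝ} (hη : 0 < η) : Summable (fun M : ℤ => |uu η M|) := by
  have h1 := ((hx_dec hη).summable_coeff hη).mul_left (|Real.sinh η|)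
  refine Summable.of_nonneg_of_le (fun _ => abs_nonneg _) (fun M => ?_) h1
  have h2 : uu η M = Real.sinh η * (sech (M * η) * sech (η - M * η)) := by
    unfold uu
    rw [← tanh_sub]
    congr 2
    ring
  rw [h2, abs_mul, abs_mul]
  apply mul_le_mul_of_nonneg_left _ (abs_nonneg _)
  unfold hx
  rw [abs_of_pos (sech_pos (η - M * η))]
  exact mul_le_of_le_one_right (abs_nonneg _) (sech_le_one _)

theorem tele (η : ℝ) (N : ℕ) (M : ℤ) :
    Real.tanh (M * η) - Real.tanh ((M - N) * η) = ∑ i ∈ Finset.range N, uu η (M - i) := by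
  induction N with
  | zero => simp
  | succ N ih =>
    rw [Finset.sum_range_succ, ← ih]
    unfold uu
    push_cast
    ring_nf

theorem uu_shift (η : ℝ) (i : ℤ) :
    ∑' M : ℤ, (-1 : ℝ) ^ M * uu η (M - i) = (-1) ^ i * ∑' M : ℤ, (-1 : ℝ) ^ M * uu η M := by
  rw [← tsum_mul_left, ← (Equiv.addRight i).tsum_eq]
  congr 1
  funext M
  simp only [Equiv.coe_addRight, add_sub_cancel_right]
  rw [m1_add]
  ring

theorem sum_m1_even {N : ℕ} (hN : Even N) : ∑ i ∈ Finset.range N, (-1 : ℝ) ^ (i : ℤ) = 0 := by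
  obtain ⟨m, rfl⟩ := hN
  rw [← two_mul]
  induction m with
  | zero => simp
  | succ m ih =>
    rw [show 2 * (m + 1) = 2 * m + 1 + 1 by ring, Finset.sum_range_succ, Finset.sum_range_succ, ih]
    push_cast
    rw [show (2 * (m : ℤ) + 1) = (2 * m) + 1 by ring, m1_add]
    norm_num

theorem cvl_even_nat {η : ℝ} (hη : 0 < η) {N : ℕ} (hN : Even N) (hN0 : 0 < N) :
    ∑' M : ℤ, (-1 : ℝ) ^ M * (sech (M * η) * sech (N * η - M * η)) = 0 := by
  have hs : Real.sinh (N * η) ≠ 0 := by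
    apply ne_of_gt
    rw [Real.sinh_pos_iff]
    positivity
  have h1 : ∀ M : ℤ, (-1 : ℝ) ^ M * (sech (M * η) * sech (N * η - M * η))
      = (Real.sinh (N * η))⁻¹ * ∑ i ∈ Finset.range N, (-1 : ℝ) ^ M * uu η (M - i) := by
    intro M
    rw [← Finset.mul_sum, ← tele, sub_mul, tanh_sub]
    field_simp
  simp only [h1]
  rw [tsum_mul_left, Summable.tsum_finsetSum]
  · simp only [uu_shift]
    rw [← Finset.sum_mul, sum_m1_even hN]
    simp
  · intro i _
    have h2 : Summable (fun M : ℤ => uu η (M - i)) :=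
      (Equiv.summable_iff (Equiv.subRight (i : ℤ))).2 (uu_summable hη).of_abs
    apply Summable.of_norm
    refine h2.norm.congr (fun M => ?_)
    rw [norm_mul, Real.norm_eq_abs, Real.norm_eq_abs ((-1) ^ M), abs_m1, one_mul]

theorem cvl_zero {η : ℝ} (hη : 0 < η) {N : ℤ} (hN0 : N ≠ 0) : cvl (hx η) (tw (hx η)) N = 0 := by
  unfold cvl
  rcases Int.even_or_odd N with hN | hN
  · have key : ∀ n : ℕ, Even n → 0 < n →
        ∑' M : ℤ, hx η M * tw (hx η) ((n : ℤ) - M) = 0 := by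
      intro n hn hn0
      rw [← cvl_even_nat hη hn hn0]
      congr 1
      funext M
      unfold tw hx
      have h1 : (-1 : ℝ) ^ ((n : ℤ) - M) = (-1) ^ M := by
        rw [sub_eq_add_neg, m1_add, m1_neg, zpow_natCast, hn.neg_one_pow, one_mul]
      rw [h1]
      push_cast
      rw [sub_mul]
      ring
    rcases lt_or_gt_of_ne hN0 with h | h
    · have h2 := key N.natAbs (Int.natAbs_even.2 hN) (Int.natAbs_pos.2 hN0)
      rw [← (Equiv.neg ℤ).tsum_eq] at h2
      rw [← h2]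
      congr 1
      funext M
      have h3 : (N.natAbs : ℤ) = -N := by omega
      simp only [Equiv.neg_apply, h3, hx_neg]
      unfold tw
      rw [show -N - -M = -(N - M) by ring, m1_neg, hx_neg]
    · have h2 := key N.natAbs (Int.natAbs_even.2 hN) (Int.natAbs_pos.2 hN0)
      have h3 : (N.natAbs : ℤ) = N := by omega
      rw [h3] at h2
      exact h2
  · -- odd: antisymmetry
    have h1 : ∑' M : ℤ, hx η M * tw (hx η) (N - M)
        = -∑' M : ℤ, hx η M * tw (hx η) (N - M) := by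
      conv_lhs => rw [← (Equiv.subLeft N).tsum_eq]
      rw [← tsum_neg]
      congr 1
      funext M
      simp only [Equiv.subLeft_apply, sub_sub_cancel]
      unfold tw
      have h2 : (-1 : ℝ) ^ (N - M) = -(-1) ^ M := by
        rw [sub_eq_add_neg, m1_add, m1_neg, hN.neg_one_zpow]
        ring
      rw [h2]
      ring
    linarith


/-- the function `X` -/
noncomputable def XX (η : ℝ) (u : ℂ) : ℂ := S (hx η) (2 * u * I)

/-- `K1 = ∑ (-1)^M sech² (M η)` -/
noncomputable def K1 (η : ℝ) : ℝ := ∑' M : ℤ, (-1 : ℝ) ^ M * hx η M ^ 2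

theorem re_two_mul_I (u : ℂ) : (2 * u * I).re = -(2 * u.im) := by simp

theorem XX_add_pi_div_two (η : ℝ) (u : ℂ) :
    XX η (u + Real.pi / 2) = S (tw (hx η)) (2 * u * I) := by
  unfold XX
  rw [← S_add_pi]
  congr 1
  ring

theorem cvl_at_zero (η : ℝ) : cvl (hx η) (tw (hx η)) 0 = K1 η := by
  unfold cvl K1 tw
  congr 1
  funext M
  rw [zero_sub, m1_neg, hx_neg]
  ring

/-- `X(u) X(u + π/2) = K1` -/
theorem XX_mul {η : ℝ} (hη : 0 < η) {u : ℂ} (hu : |2 * u.im| < η) :
    XX η u * XX η (u + Real.pi / 2) = K1 η := by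
  rw [XX_add_pi_div_two]
  unfold XX
  have hs : |(2 * u * I).re| < η := by rw [re_two_mul_I, abs_neg]; exact hu
  rw [S_mul (hx_dec hη) (tw_dec (hx_dec hη)) hs, ← cvl_at_zero]
  unfold S
  rw [tsum_eq_single 0]
  · simp
  · intro N hN
    rw [cvl_zero hη hN]
    simp

theorem XX_neg (η : ℝ) (u : ℂ) : XX η (-u) = XX η u := by
  unfold XX
  rw [← S_neg (hx_neg η)]
  congr 1
  ring

theorem XX_conj (η : ℝ) (u : ℂ) : XX η (starRingEnd ℂ u) = starRingEnd ℂ (XX η u) := by
  unfold XX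
  rw [← S_conj, ← S_neg (hx_neg η)]
  congr 1
  rw [map_mul, map_mul, Complex.conj_I, Complex.conj_ofNat]
  ring

theorem XX_add_pi (η : ℝ) (u : ℂ) : XX η (u + Real.pi) = XX η u := by
  have h1 : u + (Real.pi : ℂ) = (u + Real.pi / 2) + Real.pi / 2 := by ring
  rw [h1, XX_add_pi_div_two]
  have h2 : 2 * (u + (Real.pi : ℂ) / 2) * I = 2 * u * I + Real.pi * I := by ring
  rw [h2, S_add_pi]
  unfold XX
  congr 1
  funext M
  unfold tw
  rw [← mul_assoc, m1_mul_self, one_mul]

/-- the real function -/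
noncomputable def xr (η : ℝ) (t : ℝ) : ℝ := (XX η t).re

theorem XX_real (η t : ℝ) : XX η (t : ℂ) = (xr η t : ℂ) := by
  have h := XX_conj η (t : ℂ)
  rw [Complex.conj_ofReal] at h
  exact (Complex.conj_eq_iff_re.1 h.symm).symm

theorem xr_neg (η t : ℝ) : xr η (-t) = xr η t := by
  unfold xr
  push_cast
  rw [XX_neg]

theorem xr_add_pi (η t : ℝ) : xr η (t + Real.pi) = xr η t := by
  unfold xr
  push_cast
  rw [XX_add_pi]

theorem xr_mul {η : ℝ} (hη : 0 < η) (t : ℝ) : xr η t * xr η (t + Real.pi / 2) = K1 η := by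
  have h := XX_mul hη (u := (t : ℂ)) (by simpa using hη)
  have h2 : (t : ℂ) + Real.pi / 2 = ((t + Real.pi / 2 : ℝ) : ℂ) := by push_cast; ring
  rw [h2, XX_real, XX_real] at h
  exact_mod_cast h

theorem hx_summable {η : ℝ} (hη : 0 < η) : Summable (hx η) :=
  ((hx_dec hη).summable_coeff hη).of_abs

theorem xr_eq_tsum {η : ℝ} (hη : 0 < η) (t : ℝ) :
    xr η t = ∑' M : ℤ, hx η M * Real.cos (2 * M * t) := by
  unfold xr XX S
  rw [Complex.re_tsum]
  · congr 1
    funext M
    have h1 : Complex.exp ((M : ℂ) * (2 * t * I)) = Complex.exp (((2 * M * t : ℝ) : ℂ) * I) := by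
      congr 1
      push_cast
      ring
    rw [h1, Complex.re_ofReal_mul, Complex.exp_ofReal_mul_I_re]
  · apply (hx_dec hη).summable
    simpa using hη

theorem cos_summable {η : ℝ} (hη : 0 < η) (t : ℝ) :
    Summable (fun M : ℤ => hx η M * Real.cos (2 * M * t)) := by
  apply Summable.of_norm
  refine Summable.of_nonneg_of_le (fun _ => norm_nonneg _) (fun M => ?_) (hx_summable hη)
  rw [norm_mul, Real.norm_eq_abs, Real.norm_eq_abs, abs_of_pos (hx_pos _ _)]
  exact mul_le_of_le_one_right (hx_pos _ _).le (Real.abs_cos_le_one _)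

theorem xr_continuous {η : ℝ} (hη : 0 < η) : Continuous (xr η) := by
  unfold xr
  apply Complex.continuous_re.comp
  rw [continuous_iff_continuousAt]
  intro t
  have h1 : ContinuousAt (S (hx η)) (2 * (t : ℂ) * I) :=
    (hx_dec hη).continuousAt (by simpa using hη)
  have h2 : ContinuousAt (fun t : ℝ => 2 * (t : ℂ) * I) t := by fun_prop
  exact ContinuousAt.comp (f := fun t : ℝ => 2 * (t : ℂ) * I) (g := S (hx η)) h1 h2

theorem xr_zero_pos {η : ℝ} (hη : 0 < η) : 0 < xr η 0 := by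
  rw [xr_eq_tsum hη]
  simp only [mul_zero, Real.cos_zero, mul_one]
  exact (hx_summable hη).tsum_pos (fun M => (hx_pos η M).le) 0 (hx_pos η 0)

theorem xr_le_zero {η : ℝ} (hη : 0 < η) (t : ℝ) : xr η t ≤ xr η 0 := by
  rw [xr_eq_tsum hη, xr_eq_tsum hη]
  apply (cos_summable hη t).tsum_le_tsum _ (cos_summable hη 0)
  intro M
  apply mul_le_mul_of_nonneg_left _ (hx_pos η M).le
  simp only [mul_zero, Real.cos_zero]
  exact Real.cos_le_one _

/-- strict maximum -/
theorem cos_eq_one_of_eq {η : ℝ} (hη : 0 < η) {t : ℝ} (h : xr η t = xr η 0) :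
    Real.cos (2 * t) = 1 := by
  rw [xr_eq_tsum hη, xr_eq_tsum hη] at h
  have h1 : ∑' M : ℤ, (hx η M * Real.cos (2 * M * 0) - hx η M * Real.cos (2 * M * t)) = 0 := by
    rw [(cos_summable hη 0).tsum_sub (cos_summable hη t), h, sub_self]
  have h2 : ∀ M : ℤ, 0 ≤ hx η M * Real.cos (2 * M * 0) - hx η M * Real.cos (2 * M * t) := by
    intro M
    simp only [mul_zero, Real.cos_zero, mul_one]
    have := mul_le_mul_of_nonneg_left (Real.cos_le_one (2 * M * t)) (hx_pos η M).le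
    linarith
  have h3 := ((cos_summable hη 0).sub (cos_summable hη t))
  by_contra hne
  have h4 : 0 < hx η 1 * Real.cos (2 * (1 : ℤ) * 0) - hx η 1 * Real.cos (2 * (1 : ℤ) * t) := by
    have h5 : Real.cos (2 * t) < 1 := lt_of_le_of_ne (Real.cos_le_one _) hne
    simp only [mul_zero, Real.cos_zero, mul_one, Int.cast_one]
    have := mul_lt_mul_of_pos_left h5 (hx_pos η 1)
    linarith
  have h6 := h3.tsum_pos h2 1 h4
  linarith


theorem XX_eq_cO {η : ℝ} (hη : 0 < η) (s : ℂ) (hs : |s.re| < η) :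
    S (hx η) s = S (cO η) s + 2 * S (cA η) s := by
  have h1 := (dec_cA hη).const_mul 2
  have h2 := S_add (dec_cO hη) h1 hs
  rw [S_smul] at h2
  push_cast at h2
  rw [← h2]
  congr 1
  funext k
  unfold hx cO cA
  rcases Int.even_or_odd k with h | h
  · rw [if_pos h, if_neg (Int.not_odd_iff_even.2 h)]
    ring
  · rw [if_neg (Int.not_even_iff_odd.2 h), if_pos h]
    ring

theorem tw_eq_cO {η : ℝ} (hη : 0 < η) (s : ℂ) (hs : |s.re| < η) :
    S (tw (hx η)) s = S (cO η) s - 2 * S (cA η) s := by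
  have h1 := (dec_cA hη).const_mul (-2)
  have h2 := S_add (dec_cO hη) h1 hs
  rw [S_smul] at h2
  push_cast at h2
  have h3 : S (cO η) s - 2 * S (cA η) s = S (cO η) s + -2 * S (cA η) s := by ring
  rw [h3, ← h2]
  congr 1
  funext k
  unfold tw hx cO cA
  rcases Int.even_or_odd k with h | h
  · rw [if_pos h, if_neg (Int.not_odd_iff_even.2 h), h.neg_one_zpow]
    ring
  · rw [if_neg (Int.not_even_iff_odd.2 h), if_pos h, h.neg_one_zpow]
    ring

theorem S_even {c f : ℤ → ℝ} (h0 : ∀ k, Odd k → c k = 0) (h1 : ∀ M, c (2 * M) = f M) (s : ℂ) :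
    S c s = S f (2 * s) := by
  unfold S
  have hinj : Function.Injective (fun M : ℤ => 2 * M) := fun a b h => by
    simp only at h
    omega
  rw [← hinj.tsum_eq (f := fun k : ℤ => (c k : ℂ) * Complex.exp (k * s))]
  · congr 1
    funext M
    rw [h1]
    congr 2
    push_cast
    ring
  · intro k hk
    rcases Int.even_or_odd k with h | h
    · obtain ⟨r, rfl⟩ := h
      exact ⟨r, by simp only; ring⟩
    · exfalso
      apply hk
      simp [h0 k h]

theorem cO_reindex (η : ℝ) (s : ℂ) : S (cO η) s = S (hx (2 * η)) (2 * s) := by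
  apply S_even
  · intro k hk
    unfold cO
    rw [if_neg (Int.not_even_iff_odd.2 hk)]
  · intro M
    unfold cO hx
    rw [if_pos ⟨M, by ring⟩]
    congr 1
    push_cast
    ring

theorem cS_reindex (η : ℝ) (s : ℂ) : S (cS η) s = S (fun M => hx η M ^ 2) (2 * s) := by
  apply S_even
  · intro k hk
    unfold cS
    rw [if_neg (Int.not_even_iff_odd.2 hk)]
  · intro M
    unfold cS hx
    rw [if_pos ⟨M, by ring⟩]
    congr 2
    push_cast
    ring

theorem dec_hx_sq {η : ℝ} (hη : 0 < η) : Dec (2 * η) (fun M => hx η M ^ 2) := dec_sech_sq hη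

theorem SS_pi (η : ℝ) : S (cS η) (I * (Real.pi / 2)) = (K1 η : ℂ) := by
  rw [cS_reindex]
  have h1 : 2 * (I * ((Real.pi : ℂ) / 2)) = 0 + Real.pi * I := by ring
  rw [h1, S_add_pi, S_zero]
  rfl

/-- `O` on the imaginary axis -/
theorem OO_eq (η t : ℝ) : S (cO η) (I * t) = (xr (2 * η) t : ℂ) := by
  rw [cO_reindex, ← XX_real]
  unfold XX
  congr 1
  ring

theorem OA_add {η : ℝ} (hη : 0 < η) (t : ℝ) :
    S (cO η) (I * t) + 2 * S (cA η) (I * t) = (xr η (t / 2) : ℂ) := by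
  rw [← XX_eq_cO hη _ (by simpa using hη), ← XX_real]
  unfold XX
  congr 1
  push_cast
  ring

theorem OA_sub {η : ℝ} (hη : 0 < η) (t : ℝ) :
    S (cO η) (I * t) - 2 * S (cA η) (I * t) = (xr η (t / 2 + Real.pi / 2) : ℂ) := by
  rw [← tw_eq_cO hη _ (by simpa using hη), ← XX_real]
  have h : (((t / 2 + Real.pi / 2 : ℝ)) : ℂ) = ((t / 2 : ℝ) : ℂ) + Real.pi / 2 := by
    push_cast
    ring
  rw [h, XX_add_pi_div_two]
  congr 1
  push_cast
  ring

/-- `A` on the imaginary axis -/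
noncomputable def ar (η t : ℝ) : ℝ := (xr η (t / 2) - xr η (t / 2 + Real.pi / 2)) / 4

theorem AA_eq {η : ℝ} (hη : 0 < η) (t : ℝ) : S (cA η) (I * t) = (ar η t : ℂ) := by
  have h1 := OA_add hη t
  have h2 := OA_sub hη t
  unfold ar
  push_cast
  rw [← h1, ← h2]
  ring

theorem O_eq {η : ℝ} (hη : 0 < η) (t : ℝ) :
    xr (2 * η) t = (xr η (t / 2) + xr η (t / 2 + Real.pi / 2)) / 2 := by
  have h1 := OA_add hη t
  have h2 := OA_sub hη t
  have h3 : (xr (2 * η) t : ℂ) = ((xr η (t / 2) : ℂ) + (xr η (t / 2 + Real.pi / 2) : ℂ)) / 2 := by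
    rw [← h1, ← h2, ← OO_eq]
    ring
  exact_mod_cast h3

/-! ## positivity -/

theorem K1_eq_sq {η : ℝ} (hη : 0 < η) : K1 η = xr η (Real.pi / 4) ^ 2 := by
  have h1 := xr_mul hη (Real.pi / 4)
  have h2 : xr η (Real.pi / 4 + Real.pi / 2) = xr η (Real.pi / 4) := by
    rw [show Real.pi / 4 + Real.pi / 2 = -(Real.pi / 4) + Real.pi by ring, xr_add_pi, xr_neg]
  rw [h2] at h1
  rw [← h1]
  ring

theorem xr_double_pi {η : ℝ} (hη : 0 < η) :
    xr (2 * η) (Real.pi / 2) = xr η (Real.pi / 4) := by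
  rw [O_eq hη]
  have h2 : xr η (Real.pi / 4 + Real.pi / 2) = xr η (Real.pi / 4) := by
    rw [show Real.pi / 4 + Real.pi / 2 = -(Real.pi / 4) + Real.pi by ring, xr_add_pi, xr_neg]
  rw [show Real.pi / 2 / 2 = Real.pi / 4 by ring, h2]
  ring

theorem K1_pos_of_double {η : ℝ} (hη : 0 < η) (h : 0 < K1 (2 * η)) : 0 < K1 η := by
  have h1 := xr_mul (η := 2 * η) (by linarith) 0
  rw [zero_add, xr_double_pi hη] at h1
  rw [K1_eq_sq hη]
  have h2 : xr η (Real.pi / 4) ≠ 0 := by
    intro h0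
    rw [h0, mul_zero] at h1
    linarith
  positivity

theorem tsum_exp_le {η : ℝ} (hη : 2 ≤ η) :
    ∑' M : ℤ, hx η M < 2 := by
  have hη0 : (0 : ℝ) < η := by linarith
  have hs := hx_summable hη0
  have hg : Summable (fun n : ℕ => 2 * Real.exp (-η) ^ (n + 1)) := by
    apply Summable.mul_left
    apply (summable_nat_add_iff 1).2
    exact summable_geometric_of_lt_one (Real.exp_pos _).le (by rw [Real.exp_lt_one_iff]; linarith)
  have hle : ∀ n : ℕ, hx η ((n : ℤ) + 1) ≤ 2 * Real.exp (-η) ^ (n + 1) := by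
    intro n
    unfold hx
    refine (sech_le _).trans (le_of_eq ?_)
    rw [← Real.exp_nat_mul]
    congr 2
    push_cast
    rw [abs_of_pos (by positivity)]
    ring
  have hlt : Real.exp (-η) < 1 / 5 := by
    have h1 : Real.exp (-η) ≤ Real.exp (-2) := Real.exp_le_exp.2 (by linarith)
    have h2 : Real.exp (-2) < 1 / 5 := by
      rw [Real.exp_neg, inv_lt_comm₀ (Real.exp_pos _) (by norm_num)]
      have := Real.exp_one_gt_d9
      have h3 : Real.exp 2 = Real.exp 1 * Real.exp 1 := by rw [← Real.exp_add]; norm_num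
      rw [h3]
      nlinarith
    linarith
  have hsum1 : Summable (fun n : ℕ => hx η ((n : ℤ) + 1)) :=
    Summable.of_nonneg_of_le (fun n => (hx_pos _ _).le) hle hg
  have h3 : ∑' n : ℕ, hx η ((n : ℤ) + 1) < 1 / 2 := by
    have h4 : ∑' n : ℕ, hx η ((n : ℤ) + 1) ≤ ∑' n : ℕ, 2 * Real.exp (-η) ^ (n + 1) :=
      hsum1.tsum_le_tsum hle hg
    have h5 : ∑' n : ℕ, 2 * Real.exp (-η) ^ (n + 1) = 2 * (Real.exp (-η) / (1 - Real.exp (-η))) := by
      rw [tsum_mul_left]
      congr 1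
      simp only [pow_succ]
      rw [tsum_mul_right, tsum_geometric_of_lt_one (Real.exp_pos _).le (by linarith)]
      field_simp
    rw [h5] at h4
    have h6 : Real.exp (-η) / (1 - Real.exp (-η)) < 1 / 4 := by
      rw [div_lt_iff₀ (by linarith)]
      linarith
    linarith
  have h7 : ∑' M : ℤ, hx η M = hx η 0 + ∑' n : ℕ, hx η ((n : ℤ) + 1)
      + ∑' n : ℕ, hx η ((n : ℤ) + 1) := by
    have hneg : ∀ n : ℕ, hx η (-((n : ℤ) + 1)) = hx η ((n : ℤ) + 1) := fun n => hx_neg _ _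
    have h8 := tsum_of_nat_of_neg_add_one (f := hx η)
      (hs.comp_injective Nat.cast_injective)
      (by simpa only [hneg] using hsum1)
    rw [h8]
    simp only [hneg]
    have h9 : ∑' n : ℕ, hx η (n : ℤ) = hx η 0 + ∑' n : ℕ, hx η ((n : ℤ) + 1) := by
      have h10 := (hs.comp_injective (Nat.cast_injective (R := ℤ))).tsum_eq_zero_add
      simp only [Function.comp_def] at h10
      rw [h10]
      push_cast
      rfl
    rw [h9]
  rw [h7, hx_zero]
  linarith


theorem xr_half_pi_pos {η : ℝ} (hη : 2 ≤ η) : 0 < xr η (Real.pi / 2) := by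
  have hη0 : (0 : ℝ) < η := by linarith
  have h1 := tsum_exp_le hη
  have hs := hx_summable hη0
  have hd : Summable (fun M : ℤ => if M = 0 then (2 : ℝ) else 0) :=
    summable_of_ne_finset_zero (s := {0}) (fun M hM => by
      rw [if_neg]
      simpa using hM)
  have h2 : ∑' M : ℤ, ((if M = 0 then (2 : ℝ) else 0) - hx η M)
      ≤ ∑' M : ℤ, hx η M * Real.cos (2 * M * (Real.pi / 2)) := by
    apply (hd.sub hs).tsum_le_tsum _ (cos_summable hη0 _)
    intro M
    by_cases hM : M = 0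
    · subst hM
      simp [hx_zero]
      norm_num
    · rw [if_neg hM]
      have h3 := mul_le_mul_of_nonneg_left (Real.neg_one_le_cos (2 * M * (Real.pi / 2)))
        (hx_pos η M).le
      linarith
  rw [hd.tsum_sub hs, tsum_ite_eq] at h2
  rw [xr_eq_tsum hη0]
  linarith

theorem K1_pos {η : ℝ} (hη : 0 < η) : 0 < K1 η := by
  have key : ∀ n : ℕ, ∀ x : ℝ, 0 < x → 2 ≤ 2 ^ n * x → 0 < K1 x := by
    intro n
    induction n with
    | zero =>
      intro x hx h
      rw [← xr_mul hx 0, zero_add]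
      exact mul_pos (xr_zero_pos hx) (xr_half_pi_pos (by simpa using h))
    | succ n ih =>
      intro x hx h
      apply K1_pos_of_double hx
      apply ih (2 * x) (by linarith)
      rw [pow_succ] at h
      linarith
  obtain ⟨n, hn⟩ := pow_unbounded_of_one_lt (2 / η) (by norm_num : (1 : ℝ) < 2)
  apply key n η hη
  rw [div_lt_iff₀ hη] at hn
  exact hn.le

theorem xr_pos {η : ℝ} (hη : 0 < η) (t : ℝ) : 0 < xr η t := by
  have hne : ∀ u, xr η u ≠ 0 := by
    intro u h
    have h1 := xr_mul hη u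
    rw [h, zero_mul] at h1
    exact (K1_pos hη).ne h1
  by_contra hcon
  push Not at hcon
  obtain ⟨c, _, hc⟩ := intermediate_value_uIcc (a := t) (b := 0) (f := xr η)
    (xr_continuous hη).continuousOn
    (by rw [Set.mem_uIcc]; left; exact ⟨hcon, (xr_zero_pos hη).le⟩ : (0 : ℝ) ∈ Set.uIcc _ _)
  exact hne c hc

theorem ar_continuous {η : ℝ} (hη : 0 < η) : Continuous (ar η) := by
  unfold ar
  have h := xr_continuous hη
  have h1 : Continuous (fun t : ℝ => xr η (t / 2)) := h.comp (by fun_prop)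
  have h2 : Continuous (fun t : ℝ => xr η (t / 2 + Real.pi / 2)) := h.comp (by fun_prop)
  exact (h1.sub h2).div_const 4

theorem ar_zero_pos {η : ℝ} (hη : 0 < η) : 0 < ar η 0 := by
  unfold ar
  have h1 : xr η (0 / 2) = xr η 0 := by rw [zero_div]
  have h2 : xr η (0 / 2 + Real.pi / 2) < xr η 0 := by
    apply lt_of_le_of_ne (xr_le_zero hη _)
    intro h
    have h3 := cos_eq_one_of_eq hη h
    rw [show 2 * (0 / 2 + Real.pi / 2) = Real.pi by ring, Real.cos_pi] at h3
    norm_num at h3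
  rw [h1]
  linarith

theorem ar_ne_zero {η : ℝ} (hη : 0 < η) {t : ℝ} (ht : |t| < Real.pi / 2) : ar η t ≠ 0 := by
  intro h
  have h2η : 0 < 2 * η := by linarith
  have e1 : xr η (t / 2) = xr η (t / 2 + Real.pi / 2) := by
    unfold ar at h
    linarith
  have e2 := xr_mul hη (t / 2)
  have e3 := O_eq hη t
  rw [← e1] at e2 e3
  have p1 := xr_pos hη (t / 2)
  have p2 := xr_pos hη (Real.pi / 4)
  have e4 := K1_eq_sq hη
  have e5 : xr η (t / 2) = xr η (Real.pi / 4) := by
    have : xr η (t / 2) ^ 2 = xr η (Real.pi / 4) ^ 2 := by rw [← e4, ← e2]; ring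
    exact (pow_left_inj₀ p1.le p2.le two_ne_zero).1 this
  have e6 : xr (2 * η) t = xr (2 * η) (Real.pi / 2) := by
    rw [xr_double_pi hη, e3, e5]
    ring
  have e7 := xr_mul h2η t
  have e8 := xr_mul h2η (Real.pi / 2)
  have e9 : xr (2 * η) (Real.pi / 2 + Real.pi / 2) = xr (2 * η) 0 := by
    rw [show Real.pi / 2 + Real.pi / 2 = 0 + Real.pi by ring, xr_add_pi]
  rw [e9, ← e7, e6] at e8
  have p3 := xr_pos h2η (Real.pi / 2)
  have e10 : xr (2 * η) (t + Real.pi / 2) = xr (2 * η) 0 :=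
    (mul_left_cancel₀ p3.ne' e8).symm
  have e11 := cos_eq_one_of_eq h2η e10
  rw [show 2 * (t + Real.pi / 2) = 2 * t + Real.pi by ring, Real.cos_add_pi] at e11
  have h3 := abs_lt.1 ht
  have e12 : Real.cos t ^ 2 = 0 := by
    have := Real.cos_two_mul t
    linarith
  have e13 : 0 < Real.cos t := Real.cos_pos_of_mem_Ioo ⟨by linarith [h3.1], h3.2⟩
  have : 0 < Real.cos t ^ 2 := by positivity
  linarith

/-- (A+) -/
theorem ar_pos {η : ℝ} (hη : 0 < η) {t : ℝ} (ht : |t| < Real.pi / 2) : 0 < ar η t := by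
  by_contra hcon
  push Not at hcon
  obtain ⟨c, hc, hc0⟩ := intermediate_value_uIcc (a := t) (b := 0) (f := ar η)
    (ar_continuous hη).continuousOn
    (by rw [Set.mem_uIcc]; left; exact ⟨hcon, (ar_zero_pos hη).le⟩ : (0 : ℝ) ∈ Set.uIcc _ _)
  refine ar_ne_zero hη ?_ hc0
  refine lt_of_le_of_lt ?_ ht
  rw [Set.mem_uIcc] at hc
  rw [abs_le]
  rcases hc with ⟨a, b⟩ | ⟨a, b⟩
  · constructor
    · have := neg_abs_le t
      linarith
    · have := abs_nonneg t
      linarith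
  · constructor
    · have := abs_nonneg t
      linarith
    · have := le_abs_self t
      linarith

theorem ar_pi {η : ℝ} : ar η (Real.pi / 2) = 0 := by
  unfold ar
  have h2 : xr η (Real.pi / 2 / 2 + Real.pi / 2) = xr η (Real.pi / 2 / 2) := by
    rw [show Real.pi / 2 / 2 + Real.pi / 2 = -(Real.pi / 2 / 2) + Real.pi by ring, xr_add_pi, xr_neg]
  rw [h2]
  ring

theorem ar_neg (η t : ℝ) : ar η (-t) = ar η t := by
  unfold ar
  have h1 : xr η (-t / 2) = xr η (t / 2) := by rw [neg_div, xr_neg]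
  have h2 : xr η (-t / 2 + Real.pi / 2) = xr η (t / 2 + Real.pi / 2) := by
    rw [show -t / 2 + Real.pi / 2 = -(t / 2 + Real.pi / 2) + Real.pi by ring, xr_add_pi, xr_neg]
  rw [h1, h2]

theorem ar_nonneg {η : ℝ} (hη : 0 < η) {t : ℝ} (ht : |t| ≤ Real.pi / 2) : 0 ≤ ar η t := by
  rcases ht.lt_or_eq with h | h
  · exact (ar_pos hη h).le
  · rcases abs_cases t with ⟨h1, _⟩ | ⟨h1, _⟩
    · rw [h1] at h
      rw [h, ar_pi]
    · rw [h1] at h
      rw [← ar_neg, h, ar_pi]

/-! ## the bound (P) -/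

theorem integral_S {c : ℤ → ℝ} (hc : Summable (fun k => |c k|)) :
    ∫ v in (0 : ℝ)..Real.pi, S c (2 * v * I) = Real.pi * c 0 := by
  have h1 : HasSum (fun k : ℤ => ∫ v in (0 : ℝ)..Real.pi, (c k : ℂ) * Complex.exp (k * (2 * v * I)))
      (∫ v in (0 : ℝ)..Real.pi, S c (2 * v * I)) := by
    apply intervalIntegral.hasSum_integral_of_dominated_convergence (fun k _ => |c k|)
    · intro k
      apply Continuous.aestronglyMeasurable
      fun_prop
    · intro k
      filter_upwards with v _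
      rw [norm_term]
      simp
    · filter_upwards with v _
      exact hc
    · exact intervalIntegrable_const
    · filter_upwards with v _
      refine (Summable.of_norm ?_).hasSum
      refine hc.congr (fun k => ?_)
      rw [norm_term]
      simp
  have h2 : ∀ k : ℤ, k ≠ 0 →
      ∫ v in (0 : ℝ)..Real.pi, (c k : ℂ) * Complex.exp (k * (2 * v * I)) = 0 := by
    intro k hk
    rw [intervalIntegral.integral_const_mul]
    have h3 : ∀ v : ℝ, Complex.exp (k * (2 * (v : ℂ) * I)) = Complex.exp ((2 * k * I) * v) := by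
      intro v
      congr 1
      ring
    simp only [h3]
    have hk' : (k : ℂ) ≠ 0 := by exact_mod_cast hk
    have h4 : (2 * (k : ℂ) * I) ≠ 0 := by
      simp [hk', I_ne_zero]
    rw [integral_exp_mul_complex h4]
    have h5 : Complex.exp (2 * (k : ℂ) * I * (Real.pi : ℝ)) = 1 := by
      rw [show 2 * (k : ℂ) * I * (Real.pi : ℝ) = (k : ℂ) * (2 * Real.pi * I) by ring]
      exact Complex.exp_int_mul_two_pi_mul_I k
    rw [h5]
    simp
  rw [← h1.tsum_eq, tsum_eq_single 0 h2]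
  simp

theorem dec_exp_mul {κ σ : ℝ} {c : ℤ → ℝ} (hc : Dec κ c) :
    Dec (κ - |σ|) (fun M : ℤ => Real.exp (M * σ) * c M) := by
  obtain ⟨C, hC⟩ := hc
  refine ⟨C, fun k => ?_⟩
  rw [abs_mul, abs_of_pos (Real.exp_pos _)]
  have h1 : (k : ℝ) * σ ≤ |σ| * |(k : ℝ)| := by
    rw [mul_comm, ← abs_mul]
    exact le_abs_self _
  calc Real.exp (k * σ) * |c k| ≤ Real.exp (|σ| * |(k : ℝ)|) * (C * Real.exp (-κ * |(k : ℝ)|)) :=
        mul_le_mul (Real.exp_le_exp.2 h1) (hC k) (abs_nonneg _) (Real.exp_pos _).le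
    _ = C * (Real.exp (|σ| * |(k : ℝ)|) * Real.exp (-κ * |(k : ℝ)|)) := by ring
    _ = _ := by
        rw [← Real.exp_add]
        congr 2
        ring

theorem S_exp_mul (c : ℤ → ℝ) (σ : ℝ) (s : ℂ) :
    S (fun M : ℤ => Real.exp (M * σ) * c M) s = S c (s + σ) := by
  unfold S
  congr 1
  funext M
  rw [mul_add, Complex.exp_add]
  push_cast
  ring

/-- (P) in real form -/
theorem abs_tsum_le {η σ : ℝ} (hη : 0 < η) (hσ : |σ| < η) :
    |∑' M : ℤ, (-1 : ℝ) ^ M * (Real.exp (2 * M * σ) * hx η M ^ 2)| ≤ K1 η := by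
  set κ : ℝ := η - |σ| with hκ
  have hκ0 : 0 < κ := by linarith
  set a : ℤ → ℝ := fun M => Real.exp (M * σ) * hx η M with ha
  set b : ℤ → ℝ := tw (fun M => Real.exp (M * (-σ)) * hx η M) with hb
  have hda : Dec κ a := dec_exp_mul (hx_dec hη)
  have hdb : Dec κ b := by
    have h := tw_dec (dec_exp_mul (σ := -σ) (hx_dec hη))
    rwa [abs_neg] at h
  have hre : ∀ v : ℝ, |(2 * (v : ℂ) * I).re| < κ := fun v => by simpa using hκ0
  have hSa : ∀ v : ℝ, S a (2 * v * I) = XX η (v - σ / 2 * I) := by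
    intro v
    rw [ha, S_exp_mul]
    unfold XX
    congr 1
    have : I * I = -1 := Complex.I_mul_I
    linear_combination (σ : ℂ) * this
  have hSb : ∀ v : ℝ, S b (2 * v * I) = XX η (v + σ / 2 * I + Real.pi / 2) := by
    intro v
    rw [hb, ← S_add_pi, S_exp_mul, XX_add_pi_div_two, ← S_add_pi]
    congr 1
    have : I * I = -1 := Complex.I_mul_I
    push_cast
    linear_combination (-(σ : ℂ)) * this
  have hnorm : ∀ v : ℝ, ‖S a (2 * v * I) * S b (2 * v * I)‖ = K1 η := by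
    intro v
    rw [hSa, hSb, norm_mul]
    have h1 : ‖XX η (v - σ / 2 * I)‖ = ‖XX η (v + σ / 2 * I)‖ := by
      have h2 : (v : ℂ) - σ / 2 * I = starRingEnd ℂ (v + σ / 2 * I) := by
        rw [map_add, map_mul, Complex.conj_I, map_div₀, Complex.conj_ofReal, Complex.conj_ofReal,
          Complex.conj_ofNat]
        ring
      rw [h2, XX_conj]
      exact Complex.norm_conj _
    rw [h1, ← norm_mul, XX_mul hη]
    · rw [Complex.norm_real, Real.norm_eq_abs, abs_of_pos (K1_pos hη)]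
    · have : (v + (σ : ℂ) / 2 * I).im = σ / 2 := by simp
      rw [this, show 2 * (σ / 2) = σ by ring]
      exact hσ
  have hcvl : cvl a b 0 = ∑' M : ℤ, (-1 : ℝ) ^ M * (Real.exp (2 * M * σ) * hx η M ^ 2) := by
    unfold cvl
    congr 1
    funext M
    simp only [ha, hb, tw]
    rw [zero_sub, m1_neg, hx_neg]
    have h3 : Real.exp (2 * M * σ) = Real.exp (M * σ) * Real.exp (((-M : ℤ) : ℝ) * (-σ)) := by
      rw [← Real.exp_add]
      congr 1
      push_cast
      ring
    rw [h3]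
    ring
  have hcd : Summable (fun N => |cvl a b N|) := by
    have h6 := summable_mul_of_summable_norm (hda.summable_coeff hκ0).of_abs.norm
      (hdb.summable_coeff hκ0).of_abs.norm
    let e : ℤ × ℤ ≃ ℤ × ℤ :=
      { toFun := fun p => (p.2, p.1 - p.2)
        invFun := fun p => (p.1 + p.2, p.1)
        left_inv := fun p => by ext <;> simp
        right_inv := fun p => by ext <;> simp }
    have h7 : Summable (fun p : ℤ × ℤ => a p.2 * b (p.1 - p.2)) := (e.summable_iff).2 h6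
    exact h7.prod.abs
  have h4 : ∫ v in (0 : ℝ)..Real.pi, S a (2 * v * I) * S b (2 * v * I)
      = Real.pi * cvl a b 0 := by
    rw [← integral_S hcd]
    congr 1
    funext v
    exact S_mul hda hdb (hre v)
  have h5 : ‖∫ v in (0 : ℝ)..Real.pi, S a (2 * v * I) * S b (2 * v * I)‖
      ≤ K1 η * |Real.pi - 0| := by
    apply intervalIntegral.norm_integral_le_of_norm_le_const
    intro v _
    exact (hnorm v).le
  rw [h4, sub_zero, norm_mul, Complex.norm_real, Complex.norm_real, Real.norm_eq_abs,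
    Real.norm_eq_abs, abs_of_pos Real.pi_pos, hcvl, mul_comm] at h5
  exact le_of_mul_le_mul_right h5 Real.pi_pos


theorem SS_eq (η σ : ℝ) : S (cS η) (σ + I * (Real.pi / 2))
    = ((∑' M : ℤ, (-1 : ℝ) ^ M * (Real.exp (2 * M * σ) * hx η M ^ 2) : ℝ) : ℂ) := by
  rw [cS_reindex]
  have h1 : 2 * ((σ : ℂ) + I * (Real.pi / 2)) = (2 * σ : ℝ) + Real.pi * I := by
    push_cast
    ring
  rw [h1, S_add_pi]
  unfold S tw
  rw [Complex.ofReal_tsum]
  congr 1
  funext M
  rw [← Complex.ofReal_intCast, ← Complex.ofReal_mul, ← Complex.ofReal_exp, ← Complex.ofReal_mul]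
  congr 1
  rw [show (M : ℝ) * (2 * σ) = 2 * M * σ by ring]
  ring

end Pos

open Pos in
/-- (P): `|SS(σ + i π/2)| ≤ SS(i π/2)` -/
theorem SS_norm_le {η σ : ℝ} (hη : 0 < η) (hσ : |σ| < η) :
    ‖S (cS η) (σ + I * (Real.pi / 2))‖ ≤ K1 η := by
  rw [SS_eq, Complex.norm_real, Real.norm_eq_abs]
  exact abs_tsum_le hη hσ

open Pos in
theorem SS_re_le {η σ : ℝ} (hη : 0 < η) (hσ : |σ| < η) :
    (S (cS η) (σ + I * (Real.pi / 2))).re ≤ (S (cS η) (I * (Real.pi / 2))).re := by
  rw [SS_pi, Complex.ofReal_re]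
  exact (Complex.re_le_norm _).trans (SS_norm_le hη hσ)

open Pos in
theorem SS_pi_pos {η : ℝ} (hη : 0 < η) : 0 < (S (cS η) (I * (Real.pi / 2))).re := by
  rw [SS_pi, Complex.ofReal_re]
  exact K1_pos hη

open Pos in
/-- `O(t) > 0` -/
theorem OO_re_pos {η : ℝ} (hη : 0 < η) (t : ℝ) : 0 < (S (cO η) (I * t)).re := by
  rw [OO_eq, Complex.ofReal_re]
  exact xr_pos (by linarith) t

open Pos in
theorem OO_im {η : ℝ} (t : ℝ) : (S (cO η) (I * t)).im = 0 := by
  rw [OO_eq, Complex.ofReal_im]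

open Pos in
/-- (A+) -/
theorem AA_re_pos {η : ℝ} (hη : 0 < η) {t : ℝ} (ht : |t| < Real.pi / 2) :
    0 < (S (cA η) (I * t)).re := by
  rw [AA_eq hη, Complex.ofReal_re]
  exact ar_pos hη ht

open Pos in
theorem AA_re_nonneg {η : ℝ} (hη : 0 < η) {t : ℝ} (ht : |t| ≤ Real.pi / 2) :
    0 ≤ (S (cA η) (I * t)).re := by
  rw [AA_eq hη, Complex.ofReal_re]
  exact ar_nonneg hη ht

open Pos in
theorem AA_im {η : ℝ} (hη : 0 < η) (t : ℝ) : (S (cA η) (I * t)).im = 0 := by
  rw [AA_eq hη, Complex.ofReal_im]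

open Pos in
/-- `O² - 4 A² = SS(i π/2)` on the imaginary axis -/
theorem OO_sq_sub {η : ℝ} (hη : 0 < η) (t : ℝ) :
    (S (cO η) (I * t)) ^ 2 - 4 * (S (cA η) (I * t)) ^ 2 = S (cS η) (I * (Real.pi / 2)) := by
  have h1 := OA_add hη t
  have h2 := OA_sub hη t
  have h3 := xr_mul hη (t / 2)
  have h4 : ((xr η (t / 2) : ℂ) * (xr η (t / 2 + Real.pi / 2) : ℂ)) = (K1 η : ℂ) := by
    exact_mod_cast h3
  rw [← h1, ← h2] at h4
  rw [SS_pi, ← h4]
  ring

end Pool.Agent.Lib.MP_0430e4_lc.LPLOW
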