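import Mathlib

/-!
# Lower bound for the full linear program of Delsarte: interface
-/

set_option autoImplicit false

namespace Pool.Agent.Lib.MP_0430e4_lc.LPLOW

open Finset

/-- The polynomial `∑ b_k (1 - z)^k (1 + z)^(n - k)`. -/
noncomputable def Fp (n : ℕ) (b : ℕ → ℝ) (z : ℂ) : ℂ :=
  ∑ k ∈ range (n + 1), (b k : ℂ) * ((1 - z) ^ k * (1 + z) ^ (n - k))

/-- The polynomial `∑ b_k w^k`. -/
noncomputable def Gp (n : ℕ) (b : ℕ → ℝ) (w : ℂ) : ℂ :=
  ∑ k ∈ range (n + 1), (b k : ℂ) * w ^ k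

/-- The sum of the absolute values of the coefficients. -/
noncomputable def Nb (n : ℕ) (b : ℕ → ℝ) : ℝ := ∑ k ∈ range (n + 1), |b k|

/-- The coefficient estimate: polynomials bounded by `exp (n R)` on the unit disc have
exponentially small low coefficients. -/
def CoefBound (R δ : ℝ) : Prop :=
  ∃ C ε : ℝ, 0 < C ∧ 0 < ε ∧ ∀ (n : ℕ) (b : ℕ → ℝ), (∀ k, Odd k → b k = 0) →
    (∀ z : ℂ, ‖z‖ ≤ 1 → ‖Fp n b z‖ ≤ Real.exp (n * R) * Nb n b) →
    ∀ k ≤ n, (k : ℝ) ≤ δ * n → |b k| ≤ C * Nb n b * Real.exp (-(n * ε))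

theorem Nb_nonneg (n : ℕ) (b : ℕ → ℝ) : 0 ≤ Nb n b :=
  Finset.sum_nonneg fun _ _ => abs_nonneg _

/-- On the closed unit disc `G` is bounded by the sum of the absolute values. -/
theorem norm_Gp_le (n : ℕ) (b : ℕ → ℝ) {w : ℂ} (hw : ‖w‖ ≤ 1) : ‖Gp n b w‖ ≤ Nb n b := by
  unfold Gp Nb
  refine (norm_sum_le _ _).trans (Finset.sum_le_sum fun k _ => ?_)
  rw [norm_mul, norm_pow, Complex.norm_real, Real.norm_eq_abs]
  exact mul_le_of_le_one_right (abs_nonneg _) (pow_le_one₀ (norm_nonneg _) hw)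

/-- The relation between the two polynomials. -/
theorem Fp_eq (n : ℕ) (b : ℕ → ℝ) {z : ℂ} (hz : 1 + z ≠ 0) :
    Fp n b z = (1 + z) ^ n * Gp n b ((1 - z) / (1 + z)) := by
  unfold Fp Gp
  rw [Finset.mul_sum]
  apply Finset.sum_congr rfl
  intro k hk
  have hk' : k ≤ n := by
    have := Finset.mem_range.1 hk
    omega
  have h1 : (1 + z) ^ n = (1 + z) ^ k * (1 + z) ^ (n - k) := by
    rw [← pow_add]
    congr 1
    omega
  rw [h1, div_pow]
  field_simp

/-- The relation between the two polynomials, in the other direction. -/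
theorem Gp_eq (n : ℕ) (b : ℕ → ℝ) {w : ℂ} (hw : 1 + w ≠ 0) :
    2 ^ n * Gp n b w = (1 + w) ^ n * Fp n b ((1 - w) / (1 + w)) := by
  have h1 : 1 + (1 - w) / (1 + w) = 2 / (1 + w) := by
    field_simp
    ring
  have h2 : 1 - (1 - w) / (1 + w) = 2 * w / (1 + w) := by
    field_simp
    ring
  have h3 : 1 + (1 - w) / (1 + w) ≠ 0 := by
    rw [h1]
    exact div_ne_zero two_ne_zero hw
  rw [Fp_eq n b h3, h2, h1]
  have h4 : 2 * w / (1 + w) / (2 / (1 + w)) = w := by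
    field_simp
  rw [h4, div_pow]
  have h5 : (1 + w) ^ n ≠ 0 := pow_ne_zero _ hw
  field_simp

end Pool.Agent.Lib.MP_0430e4_lc.LPLOW
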