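import Pool.Agent.Lib.MP_0430e4_lc.LPLOW.Bil
import Pool.Agent.Lib.MP_0430e4_lc.Exact.Defs

/-!
# Identities between the bilateral series
-/

set_option autoImplicit false

namespace Pool.Agent.Lib.MP_0430e4_lc.LPLOW

open Complex Filter Topology
open Exact (sech)

noncomputable def cA (η : ℝ) (k : ℤ) : ℝ := if Odd k then sech (k * η) / 2 else 0
noncomputable def cT (η : ℝ) (k : ℤ) : ℝ := if Odd k then sech (k * η) ^ 2 / 2 else 0
noncomputable def cS (η : ℝ) (k : ℤ) : ℝ := if Even k then sech (k * (η / 2)) ^ 2 else 0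
noncomputable def cO (η : ℝ) (k : ℤ) : ℝ := if Even k then sech (k * η) else 0
noncomputable def cE (η : ℝ) (k : ℤ) : ℝ := if Even k then sech (k * η) ^ 2 else 0
noncomputable def cX (η : ℝ) (k : ℤ) : ℝ := if Even k then sech (k * (η / 2)) else 0
noncomputable def cL (η : ℝ) (k : ℤ) : ℝ := if Odd k then sech (k * η) / (2 * k) else 0

/-! ## hyperbolic secant -/

theorem sech_pos (x : ℝ) : 0 < sech x := by
  unfold sech
  exact inv_pos.2 (Real.cosh_pos x)

theorem sech_neg (x : ℝ) : sech (-x) = sech x := by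
  unfold sech
  rw [Real.cosh_neg]

theorem sech_zero : sech 0 = 1 := by
  simp [sech]

theorem sech_le_one (x : ℝ) : sech x ≤ 1 := by
  unfold sech
  exact inv_le_one_of_one_le₀ (Real.one_le_cosh x)

theorem sech_le (x : ℝ) : sech x ≤ 2 * Real.exp (-|x|) := by
  unfold sech
  have h : Real.exp |x| / 2 ≤ Real.cosh x := by
    rw [← Real.cosh_abs, Real.cosh_eq]
    have := Real.exp_pos (-|x|)
    linarith
  rw [Real.exp_neg]
  have h0 := Real.exp_pos |x|
  calc (Real.cosh x)⁻¹ ≤ (Real.exp |x| / 2)⁻¹ := inv_anti₀ (by positivity) h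
    _ = 2 * (Real.exp |x|)⁻¹ := by
        field_simp

theorem sech_lt_one {x : ℝ} (hx : x ≠ 0) : sech x < 1 := by
  unfold sech
  exact inv_lt_one_of_one_lt₀ (Real.one_lt_cosh.2 hx)

theorem dec_sech {η : ℝ} (hη : 0 < η) : Dec η (fun k => sech (k * η)) := by
  refine ⟨2, fun k => ?_⟩
  rw [abs_of_pos (sech_pos _)]
  refine (sech_le _).trans (le_of_eq ?_)
  rw [abs_mul, abs_of_pos hη]
  congr 2
  ring

theorem dec_sech_sq {η : ℝ} (hη : 0 < η) : Dec (2 * η) (fun k => sech (k * η) ^ 2) := by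
  refine ⟨4, fun k => ?_⟩
  rw [abs_of_pos (by have := sech_pos ((k : ℝ) * η); positivity)]
  have h1 := sech_le ((k : ℝ) * η)
  have h0 := (sech_pos ((k : ℝ) * η)).le
  calc sech (k * η) ^ 2 ≤ (2 * Real.exp (-|(k : ℝ) * η|)) ^ 2 := pow_le_pow_left₀ h0 h1 2
    _ = 4 * (Real.exp (-|(k : ℝ) * η|) * Real.exp (-|(k : ℝ) * η|)) := by ring
    _ = _ := by
        rw [← Real.exp_add, abs_mul, abs_of_pos hη]
        congr 2
        ring

theorem abs_ite_le {p : Prop} [Decidable p] (a : ℝ) : |if p then a else 0| ≤ |a| := by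
  split_ifs
  · exact le_rfl
  · simp

theorem dec_cA {η : ℝ} (hη : 0 < η) : Dec η (cA η) := by
  refine ((dec_sech hη).const_mul (1 / 2)).of_le (fun k => ?_)
  unfold cA
  refine (abs_ite_le _).trans (le_of_eq ?_)
  congr 1
  ring

theorem dec_cT {η : ℝ} (hη : 0 < η) : Dec (2 * η) (cT η) := by
  refine ((dec_sech_sq hη).const_mul (1 / 2)).of_le (fun k => ?_)
  unfold cT
  refine (abs_ite_le _).trans (le_of_eq ?_)
  congr 1
  ring

theorem dec_cS {η : ℝ} (hη : 0 < η) : Dec η (cS η) := by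
  have h := dec_sech_sq (half_pos hη)
  rw [show 2 * (η / 2) = η by ring] at h
  exact h.of_le (fun _ => abs_ite_le _)

theorem dec_cO {η : ℝ} (hη : 0 < η) : Dec η (cO η) :=
  (dec_sech hη).of_le (fun _ => abs_ite_le _)

theorem dec_cE {η : ℝ} (hη : 0 < η) : Dec (2 * η) (cE η) :=
  (dec_sech_sq hη).of_le (fun _ => abs_ite_le _)

theorem dec_cX {η : ℝ} (hη : 0 < η) : Dec (η / 2) (cX η) :=
  (dec_sech (half_pos hη)).of_le (fun _ => abs_ite_le _)

theorem dec_cL {η : ℝ} (hη : 0 < η) : Dec η (cL η) := by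
  refine ((dec_sech hη).const_mul (1 / 2)).of_le (fun k => ?_)
  unfold cL
  split_ifs with h
  · have hk : (1 : ℝ) ≤ |(k : ℝ)| := by
      have : k ≠ 0 := by
        rintro rfl
        simp at h
      exact_mod_cast Int.one_le_abs this
    rw [abs_div, abs_mul, abs_mul, abs_of_pos (sech_pos _)]
    rw [abs_of_pos (show (0 : ℝ) < 2 by norm_num), abs_of_pos (show (0 : ℝ) < 1 / 2 by norm_num)]
    rw [div_le_iff₀ (by linarith)]
    have := sech_pos ((k : ℝ) * η)
    nlinarith
  · simp only [abs_zero]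
    exact abs_nonneg _

theorem cA_neg (η : ℝ) (k : ℤ) : cA η (-k) = cA η k := by
  unfold cA
  simp only [odd_neg]
  rw [show ((-k : ℤ) : ℝ) * η = -(k * η) by push_cast; ring, sech_neg]

theorem cT_neg (η : ℝ) (k : ℤ) : cT η (-k) = cT η k := by
  unfold cT
  simp only [odd_neg]
  rw [show ((-k : ℤ) : ℝ) * η = -(k * η) by push_cast; ring, sech_neg]

theorem cS_neg (η : ℝ) (k : ℤ) : cS η (-k) = cS η k := by
  unfold cS
  simp only [even_neg]
  rw [show ((-k : ℤ) : ℝ) * (η / 2) = -(k * (η / 2)) by push_cast; ring, sech_neg]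

theorem cO_neg (η : ℝ) (k : ℤ) : cO η (-k) = cO η k := by
  unfold cO
  simp only [even_neg]
  rw [show ((-k : ℤ) : ℝ) * η = -(k * η) by push_cast; ring, sech_neg]

theorem cE_neg (η : ℝ) (k : ℤ) : cE η (-k) = cE η k := by
  unfold cE
  simp only [even_neg]
  rw [show ((-k : ℤ) : ℝ) * η = -(k * η) by push_cast; ring, sech_neg]

theorem cX_neg (η : ℝ) (k : ℤ) : cX η (-k) = cX η k := by
  unfold cX
  simp only [even_neg]
  rw [show ((-k : ℤ) : ℝ) * (η / 2) = -(k * (η / 2)) by push_cast; ring, sech_neg]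

/-! ## (E2) and its sum -/

theorem E2 {a x : ℝ} (ha : a ≠ 0) :
    sech x ^ 2 * sech (a - x) = (Real.cosh a * sech x - sech (a - x)) / Real.sinh a ^ 2
      + sech x * Real.tanh x / Real.sinh a := by
  have hs : Real.sinh a ≠ 0 := Real.sinh_ne_zero.2 ha
  have hc : Real.cosh x ≠ 0 := (Real.cosh_pos x).ne'
  have he : Real.cosh (a - x) ≠ 0 := (Real.cosh_pos _).ne'
  have h1 : Real.cosh (a - x) = Real.cosh a * Real.cosh x - Real.sinh a * Real.sinh x :=
    Real.cosh_sub a x
  have h2 := Real.cosh_sq_sub_sinh_sq a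
  have h3 := Real.cosh_sq_sub_sinh_sq x
  unfold sech
  rw [Real.tanh_eq_sinh_div_cosh]
  generalize Real.cosh (a - x) = E at *
  generalize Real.cosh a = A at *
  generalize Real.sinh a = B at *
  generalize Real.cosh x = C at *
  generalize Real.sinh x = D at *
  have e1 : B ^ 2 = B ^ 2 * (C ^ 2 - D ^ 2) := by rw [h3]; ring
  have e2 : C ^ 2 = C ^ 2 * (A ^ 2 - B ^ 2) := by rw [h2]; ring
  field_simp
  rw [h1]
  linear_combination e1 + e2

/-- summation of (E2) over a symmetric parity class -/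
theorem sum_E2 {η : ℝ} (hη : 0 < η) (χ : ℤ → ℝ) (hχ : ∀ k, |χ k| ≤ 1) (hneg : ∀ k, χ (-k) = χ k)
    {N : ℤ} (hN : N ≠ 0) (hsh : ∀ k, χ (N - k) = χ k) :
    ∑' k : ℤ, χ k * (sech (k * η) ^ 2 * sech ((N - k : ℤ) * η))
      = sech (N * (η / 2)) ^ 2 / 2 * ∑' k : ℤ, χ k * sech (k * η) := by
  have ha : (N : ℝ) * η ≠ 0 := mul_ne_zero (by exact_mod_cast hN) hη.ne'
  have hs : Real.sinh (N * η) ≠ 0 := Real.sinh_ne_zero.2 ha
  have hsum : Summable (fun k : ℤ => χ k * sech (k * η)) := by
    have h := (dec_sech hη).summable_coeff hη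
    refine Summable.of_norm_bounded h (fun k => ?_)
    rw [Real.norm_eq_abs, abs_mul]
    calc |χ k| * |sech (k * η)| ≤ 1 * |sech (k * η)| :=
          mul_le_mul_of_nonneg_right (hχ k) (abs_nonneg _)
      _ = _ := one_mul _
  have hsum2 : Summable (fun k : ℤ => χ k * sech ((N - k : ℤ) * η)) := by
    have h := (Equiv.subLeft N).summable_iff.2 hsum
    refine h.congr (fun k => ?_)
    simp only [Function.comp_apply, Equiv.subLeft_apply, hsh]
  have hsum3 : Summable (fun k : ℤ => χ k * (sech (k * η) * Real.tanh (k * η))) := by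
    have h := (dec_sech hη).summable_coeff hη
    refine Summable.of_norm_bounded h (fun k => ?_)
    rw [Real.norm_eq_abs, abs_mul, abs_mul]
    have h1 : |Real.tanh (k * η)| ≤ 1 := (Real.abs_tanh_lt_one _).le
    calc |χ k| * (|sech (k * η)| * |Real.tanh (k * η)|) ≤ 1 * (|sech (k * η)| * 1) :=
          mul_le_mul (hχ k) (mul_le_mul_of_nonneg_left h1 (abs_nonneg _))
            (mul_nonneg (abs_nonneg _) (abs_nonneg _)) zero_le_one
      _ = _ := by ring
  have e1 : ∑' k : ℤ, χ k * sech ((N - k : ℤ) * η) = ∑' k : ℤ, χ k * sech (k * η) := by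
    rw [← (Equiv.subLeft N).tsum_eq (fun k : ℤ => χ k * sech (k * η))]
    congr 1
    funext k
    simp only [Equiv.subLeft_apply, hsh]
  have e2 : ∑' k : ℤ, χ k * (sech (k * η) * Real.tanh (k * η)) = 0 := by
    have h := (Equiv.neg ℤ).tsum_eq (fun k : ℤ => χ k * (sech (k * η) * Real.tanh (k * η)))
    have h2 : ∑' k : ℤ, χ ((Equiv.neg ℤ) k) * (sech (((Equiv.neg ℤ) k : ℤ) * η)
        * Real.tanh (((Equiv.neg ℤ) k : ℤ) * η))
        = -∑' k : ℤ, χ k * (sech (k * η) * Real.tanh (k * η)) := by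
      rw [← tsum_neg]
      congr 1
      funext k
      simp only [Equiv.neg_apply, hneg]
      rw [show ((-k : ℤ) : ℝ) * η = -(k * η) by push_cast; ring, sech_neg, Real.tanh_neg]
      ring
    rw [h2] at h
    linarith
  have e3 : ∀ k : ℤ, χ k * (sech (k * η) ^ 2 * sech ((N - k : ℤ) * η))
      = (Real.cosh (N * η) / Real.sinh (N * η) ^ 2) * (χ k * sech (k * η))
        - (1 / Real.sinh (N * η) ^ 2) * (χ k * sech ((N - k : ℤ) * η))
        + (1 / Real.sinh (N * η)) * (χ k * (sech (k * η) * Real.tanh (k * η))) := by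
    intro k
    have h := E2 (x := k * η) ha
    rw [show ((N - k : ℤ) : ℝ) * η = N * η - k * η by push_cast; ring, h]
    field_simp
  simp only [e3]
  rw [((hsum.mul_left _).sub (hsum2.mul_left _)).tsum_add (hsum3.mul_left _),
    (hsum.mul_left _).tsum_sub (hsum2.mul_left _), tsum_mul_left, tsum_mul_left, tsum_mul_left,
    e1, e2, mul_zero, add_zero, ← sub_mul]
  congr 1
  have h2a : (N : ℝ) * η = 2 * (N * (η / 2)) := by ring
  unfold sech
  rw [h2a] at hs ⊢
  rw [Real.cosh_two_mul, Real.sinh_two_mul] at *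
  have h3 := Real.cosh_sq_sub_sinh_sq ((N : ℝ) * (η / 2))
  generalize Real.cosh ((N : ℝ) * (η / 2)) = C at *
  generalize Real.sinh ((N : ℝ) * (η / 2)) = D at *
  have hC : C ≠ 0 := by
    rintro rfl
    simp at hs
  have hD : D ≠ 0 := by
    rintro rfl
    simp at hs
  field_simp
  nlinarith [h3]

/-! ## the two identities -/

theorem tsum_cA (η : ℝ) : S (cA η) 0 = ((∑' k : ℤ, cA η k : ℝ) : ℂ) := by
  unfold S
  rw [Complex.ofReal_tsum]
  congr 1
  funext k
  simp

theorem S_zero (c : ℤ → ℝ) : S c 0 = ((∑' k : ℤ, c k : ℝ) : ℂ) := by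
  unfold S
  rw [Complex.ofReal_tsum]
  congr 1
  funext k
  simp

theorem even_sub_iff {N k : ℤ} (hN : Even N) : Even (N - k) ↔ Even k := by
  rw [Int.even_sub]
  tauto

theorem odd_sub_iff {N k : ℤ} (hN : Even N) : Odd (N - k) ↔ Odd k := by
  rw [← Int.not_even_iff_odd, ← Int.not_even_iff_odd, even_sub_iff hN]

theorem cvl_TA {η : ℝ} (hη : 0 < η) {N : ℤ} (hN : N ≠ 0) :
    cvl (cT η) (cA η) N = (∑' k : ℤ, cA η k) / 4 * cS η N := by
  by_cases hE : Even N
  · have h := sum_E2 hη (fun k => if Odd k then (1 : ℝ) else 0)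
      (fun k => by split_ifs <;> simp) (fun k => by simp only [odd_neg]) hN
      (fun k => by simp only [odd_sub_iff hE])
    have e1 : ∑' k : ℤ, (if Odd k then (1 : ℝ) else 0) * sech (k * η) = 2 * ∑' k : ℤ, cA η k := by
      rw [← tsum_mul_left]
      congr 1
      funext k
      unfold cA
      split_ifs <;> ring
    unfold cvl
    have e2 : ∀ k : ℤ, cT η k * cA η (N - k)
        = 1 / 4 * ((if Odd k then (1 : ℝ) else 0) * (sech (k * η) ^ 2 * sech ((N - k : ℤ) * η))) := by
      intro k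
      unfold cT cA
      simp only [odd_sub_iff hE]
      split_ifs <;> ring
    simp only [e2]
    rw [tsum_mul_left, h, e1]
    unfold cS
    rw [if_pos hE]
    ring
  · have h0 : cS η N = 0 := by
      unfold cS
      rw [if_neg hE]
    rw [h0, mul_zero]
    unfold cvl
    have e2 : ∀ k : ℤ, cT η k * cA η (N - k) = 0 := by
      intro k
      unfold cT cA
      by_cases hk : Odd k
      · have : ¬ Odd (N - k) := by
          rw [Int.odd_sub]
          have : Odd N := Int.not_even_iff_odd.1 hE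
          have : ¬ Even k := Int.not_even_iff_odd.2 hk
          tauto
        rw [if_neg this, mul_zero]
      · rw [if_neg hk, zero_mul]
    simp only [e2, tsum_zero]

theorem cvl_EO {η : ℝ} (hη : 0 < η) {N : ℤ} (hN : N ≠ 0) :
    cvl (cE η) (cO η) N = (∑' k : ℤ, cO η k) / 2 * cS η N := by
  by_cases hE : Even N
  · have h := sum_E2 hη (fun k => if Even k then (1 : ℝ) else 0)
      (fun k => by split_ifs <;> simp) (fun k => by simp only [even_neg]) hN
      (fun k => by simp only [even_sub_iff hE])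
    have e1 : ∑' k : ℤ, (if Even k then (1 : ℝ) else 0) * sech (k * η) = ∑' k : ℤ, cO η k := by
      congr 1
      funext k
      unfold cO
      split_ifs <;> ring
    unfold cvl
    have e2 : ∀ k : ℤ, cE η k * cO η (N - k)
        = (if Even k then (1 : ℝ) else 0) * (sech (k * η) ^ 2 * sech ((N - k : ℤ) * η)) := by
      intro k
      unfold cE cO
      simp only [even_sub_iff hE]
      split_ifs <;> ring
    simp only [e2]
    rw [h, e1]
    unfold cS
    rw [if_pos hE]
    ring
  · have h0 : cS η N = 0 := by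
      unfold cS
      rw [if_neg hE]
    rw [h0, mul_zero]
    unfold cvl
    have e2 : ∀ k : ℤ, cE η k * cO η (N - k) = 0 := by
      intro k
      unfold cE cO
      by_cases hk : Even k
      · have : ¬ Even (N - k) := by
          rw [Int.even_sub]
          tauto
        rw [if_neg this, mul_zero]
      · rw [if_neg hk, zero_mul]
    simp only [e2, tsum_zero]

theorem Dec.delta_split {κ : ℝ} {c d : ℤ → ℝ} {a : ℝ} (hd : Dec κ d)
    (h : ∀ N : ℤ, N ≠ 0 → c N = a * d N) {s : ℂ} (hs : |s.re| < κ) :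
    S c s = a * S d s + ((c 0 - a * d 0 : ℝ) : ℂ) := by
  have e : c = fun k => (a * d k) + (if k = 0 then (c 0 - a * d 0) else 0) := by
    funext k
    by_cases hk : k = 0
    · subst hk
      simp
    · simp only [hk, if_false, add_zero]
      exact h k hk
  conv_lhs => rw [e]
  rw [S_add (hd.const_mul a) (Dec.delta κ _) hs, S_smul, S_delta]

/-- `AA(iπ/2) = 0` -/
theorem AA_pi {η : ℝ} : S (cA η) (I * (Real.pi / 2)) = 0 := by
  have h := S_neg (cA_neg η) (I * (Real.pi / 2))
  have h2 : S (cA η) (-(I * (Real.pi / 2))) = -S (cA η) (I * (Real.pi / 2)) := by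
    unfold S
    rw [← tsum_neg]
    congr 1
    funext k
    by_cases hk : Odd k
    · obtain ⟨j, rfl⟩ := hk
      have e1 : Complex.exp (((2 * j + 1 : ℤ) : ℂ) * -(I * (Real.pi / 2)))
          = Complex.exp (((2 * j + 1 : ℤ) : ℂ) * (I * (Real.pi / 2)))
            * Complex.exp (-(((2 * j + 1 : ℤ) : ℂ) * (Real.pi * I))) := by
        rw [← Complex.exp_add]
        congr 1
        push_cast
        ring
      have e2 : Complex.exp (-(((2 * j + 1 : ℤ) : ℂ) * (Real.pi * I))) = -1 := by
        have : -(((2 * j + 1 : ℤ) : ℂ) * (Real.pi * I))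
            = ((-j : ℤ) : ℂ) * (2 * Real.pi * I) + -(Real.pi * I) := by
          push_cast
          ring
        rw [this, Complex.exp_add, Complex.exp_int_mul_two_pi_mul_I, one_mul, Complex.exp_neg,
          Complex.exp_pi_mul_I]
        norm_num
      rw [e1, e2]
      ring
    · have : cA η k = 0 := by
        unfold cA
        rw [if_neg hk]
      simp [this]
  rw [h] at h2
  have : (2 : ℂ) * S (cA η) (I * (Real.pi / 2)) = 0 := by
    linear_combination h2
  simpa using this

/-- IDENTITY (I). -/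
theorem ident_I {η : ℝ} (hη : 0 < η) {s : ℂ} (hs : |s.re| < η) :
    S (cT η) s * S (cA η) s
      = S (cA η) 0 / 4 * (S (cS η) s - S (cS η) (I * (Real.pi / 2))) := by
  have hT : Dec η (cT η) := (dec_cT hη).mono (by linarith)
  have key : ∀ s : ℂ, |s.re| < η → S (cT η) s * S (cA η) s
      = (((∑' k : ℤ, cA η k) / 4 : ℝ) : ℂ) * S (cS η) s
        + ((cvl (cT η) (cA η) 0 - (∑' k : ℤ, cA η k) / 4 * cS η 0 : ℝ) : ℂ) := by
    intro s hs
    rw [S_mul hT (dec_cA hη) hs]
    exact Dec.delta_split (dec_cS hη) (fun N hN => cvl_TA hη hN) hs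
  have h1 := key s hs
  have h2 := key (I * (Real.pi / 2)) (by simpa using hη)
  rw [AA_pi, mul_zero] at h2
  rw [h1, S_zero]
  push_cast at h2 ⊢
  linear_combination -h2

/-- `SS(0) + SS(iπ/2) = 2 EE(0)` -/
theorem SS_add {η : ℝ} (hη : 0 < η) :
    S (cS η) 0 + S (cS η) (I * (Real.pi / 2)) = 2 * S (cE η) 0 := by
  have hz : |(0 : ℂ).re| < η := by simpa using hη
  have hp : |(I * (Real.pi / 2) : ℂ).re| < η := by simpa using hη
  unfold S
  rw [← ((dec_cS hη).summable hz).tsum_add ((dec_cS hη).summable hp), ← tsum_mul_left]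
  -- the terms with `k` divisible by four remain
  have e1 : ∀ k : ℤ, (cS η k : ℂ) * Complex.exp (k * 0)
      + (cS η k : ℂ) * Complex.exp (k * (I * (Real.pi / 2)))
      = if Even k then (if Even (k / 2) then 2 * ((sech (k * (η / 2)) ^ 2 : ℝ) : ℂ) else 0)
        else 0 := by
    intro k
    unfold cS
    by_cases hk : Even k
    · obtain ⟨j, hj⟩ := hk
      have hk2 : k = 2 * j := by omega
      subst hk2
      rw [if_pos (by simp), if_pos (by simp)]
      have hd : (2 * j) / 2 = j := by omega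
      rw [hd]
      have e2 : Complex.exp (((2 * j : ℤ) : ℂ) * (I * (Real.pi / 2)))
          = Complex.exp ((j : ℂ) * (Real.pi * I)) := by
        congr 1
        push_cast
        ring
      rw [e2, mul_zero, Complex.exp_zero]
      by_cases hj2 : Even j
      · obtain ⟨i, hi⟩ := hj2
        rw [if_pos (by exact ⟨i, hi⟩)]
        have : Complex.exp ((j : ℂ) * (Real.pi * I)) = 1 := by
          rw [show (j : ℂ) * (Real.pi * I) = (i : ℂ) * (2 * Real.pi * I) by
            rw [hi]; push_cast; ring]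
          exact Complex.exp_int_mul_two_pi_mul_I i
        rw [this]
        push_cast
        ring
      · rw [if_neg hj2]
        obtain ⟨i, hi⟩ := Int.not_even_iff_odd.1 hj2
        have : Complex.exp ((j : ℂ) * (Real.pi * I)) = -1 := by
          rw [show (j : ℂ) * (Real.pi * I) = (i : ℂ) * (2 * Real.pi * I) + Real.pi * I by
            rw [hi]; push_cast; ring]
          rw [Complex.exp_add, Complex.exp_int_mul_two_pi_mul_I, Complex.exp_pi_mul_I]
          ring
        rw [this]
        ring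
    · simp [hk]
  simp only [e1]
  -- reindex by k = 2 j on both sides
  have inj : Function.Injective (fun j : ℤ => 2 * j) := fun a b h => by
    simp only at h
    omega
  rw [← inj.tsum_eq]
  · congr 1
    funext j
    simp only [even_two, Even.mul_right, if_true]
    have hd : (2 * j) / 2 = j := by omega
    rw [hd]
    unfold cE
    split_ifs with h
    · rw [show (((2 * j : ℤ) : ℝ) * (η / 2)) = (j : ℝ) * η by push_cast; ring]
      simp
    · simp
  · intro k hk
    simp only [Function.mem_support, ne_eq, ite_eq_right_iff, Classical.not_imp] at hk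
    obtain ⟨j, hj⟩ := hk.1
    exact ⟨j, by simp only; omega⟩

/-- IDENTITY (II). -/
theorem ident_II {η : ℝ} (hη : 0 < η) {s : ℂ} (hs : |s.re| < η) :
    S (cE η) s * S (cO η) s
      = S (cO η) 0 / 2 * (S (cS η) s + S (cS η) (I * (Real.pi / 2))) := by
  have hT : Dec η (cE η) := (dec_cE hη).mono (by linarith)
  have key : ∀ s : ℂ, |s.re| < η → S (cE η) s * S (cO η) s
      = (((∑' k : ℤ, cO η k) / 2 : ℝ) : ℂ) * S (cS η) s
        + ((cvl (cE η) (cO η) 0 - (∑' k : ℤ, cO η k) / 2 * cS η 0 : ℝ) : ℂ) := by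
    intro s hs
    rw [S_mul hT (dec_cO hη) hs]
    exact Dec.delta_split (dec_cS hη) (fun N hN => cvl_EO hη hN) hs
  have h1 := key s hs
  have h2 := key 0 (by simpa using hη)
  have h3 := SS_add hη
  rw [h1, S_zero (cO η)]
  rw [S_zero (cO η)] at h2
  push_cast at h2 ⊢
  linear_combination -h2 + ((∑' k : ℤ, (cO η k : ℂ)) / 2) * (-h3)

end Pool.Agent.Lib.MP_0430e4_lc.LPLOW
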