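import Pool.Agent.Lib.MP_0430e4_lc.LPLOW.ContI2
import Pool.Agent.Lib.MP_0430e4_lc.LPLOW.Pos
import Pool.Agent.Lib.MP_0430e4_lc.Lower.Strip
import Pool.Agent.Lib.MP_0430e4_lc.Exact.ID

/-!
# The coefficient estimate of the first branch
-/

set_option autoImplicit false

namespace Pool.Agent.Lib.MP_0430e4_lc.LPLOW

open Filter Topology
open Exact (sech)

/-! ## `f0` as an alternating series -/

/-- terms -/
noncomputable def gg (r : ℝ) (m : ℕ) : ℝ := r ^ (m + 1) / ((m + 1) * (1 + r ^ (m + 1)))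

theorem gg_le {r : ℝ} (h0 : 0 < r) (m : ℕ) : ‖gg r m‖ ≤ r ^ (m + 1) := by
  have h1 : 0 < r ^ (m + 1) := by positivity
  have h2 : (0 : ℝ) ≤ m := Nat.cast_nonneg m
  unfold gg
  rw [Real.norm_of_nonneg (by positivity)]
  apply div_le_self h1.le
  nlinarith

theorem gg_summable {r : ℝ} (h0 : 0 < r) (h1 : r < 1) : Summable (gg r) := by
  have h2 := (summable_geometric_of_lt_one h0.le h1).mul_left r
  refine Summable.of_norm_bounded h2 (fun m => (gg_le h0 m).trans (le_of_eq ?_))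
  ring

theorem fa_eq_gg {r : ℝ} (h0 : 0 < r) (m : ℕ) : Lower.fa r m = gg r m - 2 * gg r (2 * m + 1) := by
  unfold Lower.fa gg
  have h1 : 0 < r ^ (m + 1) := by positivity
  have h2 : r ^ (2 * m + 1 + 1) = (r ^ (m + 1)) ^ 2 := by ring
  have h3 : (0 : ℝ) < (m : ℝ) + 1 := by positivity
  rw [h2]
  push_cast
  have h4 : (2 * (m : ℝ) + 1 + 1) = 2 * ((m : ℝ) + 1) := by ring
  rw [h4]
  have h5 : 0 < 1 + r ^ (m + 1) := by positivity
  have h6 : 0 < 1 + (r ^ (m + 1)) ^ 2 := by positivity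
  generalize r ^ (m + 1) = a at *
  generalize (m : ℝ) + 1 = b at *
  field_simp

theorem f0_eq_alt {r : ℝ} (h0 : 0 < r) (h1 : r < 1) :
    Lower.f0 r = ∑' m : ℕ, (-1 : ℝ) ^ m * gg r m := by
  have hg := gg_summable h0 h1
  have he : Summable fun k : ℕ => gg r (2 * k) :=
    hg.comp_injective (i := fun k : ℕ => 2 * k) (fun a b h => by simpa using h)
  have ho : Summable fun k : ℕ => gg r (2 * k + 1) :=
    hg.comp_injective (i := fun k : ℕ => 2 * k + 1) (fun a b h => by simpa using h)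
  have e1 := tsum_even_add_odd he ho
  have h2 : HasSum (fun m : ℕ => (-1 : ℝ) ^ m * gg r m)
      ((∑' k : ℕ, gg r (2 * k)) + -(∑' k : ℕ, gg r (2 * k + 1))) := by
    apply HasSum.even_add_odd
    · simp only [pow_mul, neg_one_sq, one_pow, one_mul]
      exact he.hasSum
    · have h4 : ∀ j : ℕ, (-1 : ℝ) ^ (2 * j + 1) = -1 := fun j => Odd.neg_one_pow ⟨j, rfl⟩
      simp only [h4, neg_mul, one_mul]
      exact ho.hasSum.neg
  rw [h2.tsum_eq]
  unfold Lower.f0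
  simp only [fa_eq_gg h0]
  rw [hg.tsum_sub (ho.mul_left 2), tsum_mul_left, ← e1]
  ring

/-- double series -/
noncomputable def dd (r : ℝ) (k m : ℕ) : ℝ :=
  (-1) ^ k * ((-1) ^ m * (r ^ ((k + 1) * (m + 1)) / (m + 1)))

theorem summable_dd {r : ℝ} (h0 : 0 < r) (h1 : r < 1) : Summable (Function.uncurry (dd r)) := by
  have h2 := summable_geometric_of_lt_one h0.le h1
  have h3 := h2.mul_of_nonneg h2 (fun m => by positivity) (fun k => by positivity)
  refine Summable.of_norm_bounded h3 fun p => ?_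
  obtain ⟨k, m⟩ := p
  simp only [Function.uncurry, dd]
  have hp : 0 < r ^ ((k + 1) * (m + 1)) := by positivity
  have hm : (0 : ℝ) ≤ m := Nat.cast_nonneg m
  rw [norm_mul, norm_mul, norm_pow, norm_pow, norm_neg, norm_one, one_pow, one_pow,
    one_mul, one_mul, Real.norm_of_nonneg (by positivity), ← pow_add]
  calc r ^ ((k + 1) * (m + 1)) / (m + 1) ≤ r ^ ((k + 1) * (m + 1)) := by
        apply div_le_self hp.le
        linarith
    _ ≤ r ^ (k + m) := pow_le_pow_of_le_one h0.le h1.le (by nlinarith)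

theorem hasSum_dd_row {r : ℝ} (h0 : 0 < r) (h1 : r < 1) (k : ℕ) :
    HasSum (dd r k) ((-1 : ℝ) ^ k * Real.log (1 + r ^ (k + 1))) := by
  have hx0 : 0 < r ^ (k + 1) := by positivity
  have hx1 : r ^ (k + 1) < 1 := pow_lt_one₀ h0.le h1 (by omega)
  have h2 := Real.hasSum_pow_div_log_of_abs_lt_one (x := -(r ^ (k + 1)))
    (by rw [abs_neg, abs_of_pos hx0]; exact hx1)
  rw [sub_neg_eq_add] at h2
  have h3 := h2.mul_left (-(-1 : ℝ) ^ k)
  have h4 : -(-1 : ℝ) ^ k * -Real.log (1 + r ^ (k + 1))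
      = (-1 : ℝ) ^ k * Real.log (1 + r ^ (k + 1)) := by ring
  rw [h4] at h3
  have h5 : dd r k = fun m : ℕ => -(-1 : ℝ) ^ k * ((-(r ^ (k + 1))) ^ (m + 1) / ((m : ℝ) + 1)) := by
    funext m
    unfold dd
    rw [neg_pow (r ^ (k + 1)) (m + 1), ← pow_mul, pow_succ (-1 : ℝ) m]
    ring
  rw [h5]
  exact h3

theorem hasSum_dd_col {r : ℝ} (h0 : 0 < r) (h1 : r < 1) (m : ℕ) :
    HasSum (fun k => dd r k m) ((-1 : ℝ) ^ m * gg r m) := by
  have hq0 : 0 < r ^ (m + 1) := by positivity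
  have hq1 : r ^ (m + 1) < 1 := pow_lt_one₀ h0.le h1 (by omega)
  have hn : ‖-(r ^ (m + 1))‖ < 1 := by
    rw [norm_neg, Real.norm_of_nonneg hq0.le]
    exact hq1
  have h2 := hasSum_geometric_of_norm_lt_one hn
  have h3 := h2.mul_left ((-1 : ℝ) ^ m / ((m : ℝ) + 1) * r ^ (m + 1))
  have h4 : (-1 : ℝ) ^ m / ((m : ℝ) + 1) * r ^ (m + 1) * (1 - -(r ^ (m + 1)))⁻¹
      = (-1 : ℝ) ^ m * gg r m := by
    unfold gg
    rw [sub_neg_eq_add]
    field_simp
  rw [h4] at h3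
  have h5 : (fun k => dd r k m)
      = fun k : ℕ => (-1 : ℝ) ^ m / ((m : ℝ) + 1) * r ^ (m + 1) * (-(r ^ (m + 1))) ^ k := by
    funext k
    unfold dd
    rw [neg_pow (r ^ (m + 1)) k, ← pow_mul, mul_comm (k + 1) (m + 1), mul_add (m + 1) k 1, pow_add,
      mul_one]
    ring
  rw [h5]
  exact h3

theorem f0_series {r : ℝ} (h0 : 0 < r) (h1 : r < 1) :
    Lower.f0 r = ∑' m : ℕ, (-1 : ℝ) ^ m * Real.log (1 + r ^ (m + 1)) := by
  have h := (summable_dd h0 h1).tsum_comm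
  rw [f0_eq_alt h0 h1]
  rw [show (∑' m : ℕ, (-1 : ℝ) ^ m * gg r m) = ∑' m : ℕ, ∑' k : ℕ, dd r k m from
      tsum_congr fun m => (hasSum_dd_col h0 h1 m).tsum_eq.symm,
    show (∑' m : ℕ, (-1 : ℝ) ^ m * Real.log (1 + r ^ (m + 1))) = ∑' m : ℕ, ∑' k : ℕ, dd r m k from
      tsum_congr fun m => (hasSum_dd_row h0 h1 m).tsum_eq.symm]
  exact h

/-! ## the constants of the first branch -/

theorem tsum_odd {c : ℤ → ℝ} (hc : Summable c) (hs : ∀ k, c (-k) = c k)
    (h0 : ∀ k, ¬ Odd k → c k = 0) : ∑' k : ℤ, c k = 2 * ∑' j : ℕ, c (2 * (j : ℤ) + 1) := by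
  have h1 : Summable (fun n : ℕ => c (n : ℤ)) := hc.comp_injective Nat.cast_injective
  have hinj : Function.Injective (fun n : ℕ => (-((n : ℤ) + 1) : ℤ)) := by
    intro a b h
    simp only at h
    omega
  have h2 : Summable (fun n : ℕ => c (-((n : ℤ) + 1))) := hc.comp_injective hinj
  rw [tsum_of_nat_of_neg_add_one h1 h2]
  have e1 : ∑' n : ℕ, c (-((n : ℤ) + 1)) = ∑' n : ℕ, c (n : ℤ) := by
    rw [h1.tsum_eq_zero_add]
    have e2 : c ((0 : ℕ) : ℤ) = 0 := h0 _ (by decide)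
    rw [e2, zero_add]
    apply tsum_congr
    intro n
    rw [hs]
    push_cast
    rfl
  have he : Summable fun k : ℕ => c ((2 * k : ℕ) : ℤ) :=
    h1.comp_injective (i := fun k : ℕ => 2 * k) (fun a b h => by simpa using h)
  have ho : Summable fun k : ℕ => c ((2 * k + 1 : ℕ) : ℤ) :=
    h1.comp_injective (i := fun k : ℕ => 2 * k + 1) (fun a b h => by simpa using h)
  have e3 := tsum_even_add_odd (f := fun n : ℕ => c (n : ℤ)) he ho
  have e4 : ∑' k : ℕ, c ((2 * k : ℕ) : ℤ) = 0 := by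
    have : ∀ k : ℕ, c ((2 * k : ℕ) : ℤ) = 0 := by
      intro k
      apply h0
      rw [Int.not_odd_iff_even]
      exact ⟨k, by push_cast; ring⟩
    simp only [this, tsum_zero]
  rw [e4, zero_add] at e3
  rw [e1, ← e3, ← two_mul]
  congr 1

theorem half_arg {t : ℝ} (j : ℕ) :
    sech (((2 * (j : ℤ) + 1 : ℤ) : ℝ) * (t / 2)) = sech ((j + 1 / 2) * t) := by
  congr 1
  push_cast
  ring

theorem S_cA_zero {t : ℝ} (ht : 0 < t) :
    (S (cA (t / 2)) 0).re = ∑' j : ℕ, sech ((j + 1 / 2) * t) := by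
  have hη : 0 < t / 2 := by linarith
  rw [S_zero, Complex.ofReal_re, tsum_odd ((dec_cA hη).summable_coeff hη).of_abs, ← tsum_mul_left]
  · apply tsum_congr
    intro j
    unfold cA
    rw [if_pos ⟨j, rfl⟩, half_arg]
    ring
  · intro k
    unfold cA
    simp only [odd_neg]
    rw [show ((-k : ℤ) : ℝ) * (t / 2) = -(k * (t / 2)) by push_cast; ring, sech_neg]
  · intro k hk
    unfold cA
    rw [if_neg hk]

theorem S_cT_zero {t : ℝ} (ht : 0 < t) :
    (S (cT (t / 2)) 0).re = ∑' j : ℕ, sech ((j + 1 / 2) * t) ^ 2 := by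
  have hη : 0 < t / 2 := by linarith
  rw [S_zero, Complex.ofReal_re,
    tsum_odd ((dec_cT hη).summable_coeff (by linarith)).of_abs, ← tsum_mul_left]
  · apply tsum_congr
    intro j
    unfold cT
    rw [if_pos ⟨j, rfl⟩, half_arg]
    ring
  · intro k
    unfold cT
    simp only [odd_neg]
    rw [show ((-k : ℤ) : ℝ) * (t / 2) = -(k * (t / 2)) by push_cast; ring, sech_neg]
  · intro k hk
    unfold cT
    rw [if_neg hk]

theorem sI_eq {t : ℝ} (ht : 0 < t) :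
    (S (cT (t / 2)) 0).re / (S (cA (t / 2)) 0).re = Exact.sI t := by
  rw [S_cA_zero ht, S_cT_zero ht]
  rfl

theorem tsum_even_fn {f : ℤ → ℝ} (hf : Summable f) (hs : ∀ k, f (-k) = f k) :
    ∑' k : ℤ, f k = f 0 + 2 * ∑' n : ℕ, f ((n : ℤ) + 1) := by
  have h1 : Summable (fun n : ℕ => f (n : ℤ)) := hf.comp_injective Nat.cast_injective
  have hinj : Function.Injective (fun n : ℕ => (-((n : ℤ) + 1) : ℤ)) := by
    intro a b h
    simp only at h
    omega
  have h2 : Summable (fun n : ℕ => f (-((n : ℤ) + 1))) := hf.comp_injective hinj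
  rw [tsum_of_nat_of_neg_add_one h1 h2, h1.tsum_eq_zero_add]
  simp only [hs]
  push_cast
  ring

theorem K1_term (η : ℝ) (n : ℕ) : (-1 : ℝ) ^ ((n : ℤ) + 1) * Pos.hx η ((n : ℤ) + 1) ^ 2
      = -((-1 : ℝ) ^ n * sech ((n + 1) * η) ^ 2) := by
  have e : (-1 : ℝ) ^ ((n : ℤ) + 1) = -(-1) ^ n := by
    rw [zpow_add₀ (by norm_num), zpow_natCast]
    norm_num
  rw [e]
  unfold Pos.hx
  have e' : (((n : ℤ) + 1 : ℤ) : ℝ) * η = (n + 1) * η := by push_cast; ring
  rw [e']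
  ring

theorem K1_eq {η : ℝ} (hη : 0 < η) :
    Pos.K1 η = 1 - 2 * ∑' k : ℕ, (-1 : ℝ) ^ k * sech ((k + 1) * η) ^ 2 := by
  have hsum : Summable (fun M : ℤ => (-1 : ℝ) ^ M * Pos.hx η M ^ 2) := by
    apply Summable.of_norm
    have h1 := ((dec_sech_sq hη).summable_coeff (by linarith))
    refine h1.congr (fun M => ?_)
    rw [norm_mul, Real.norm_eq_abs, Real.norm_eq_abs, Pos.abs_m1, one_mul]
    rfl
  unfold Pos.K1
  rw [tsum_even_fn hsum (fun k => by rw [Pos.m1_neg, Pos.hx_neg])]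
  have e3 : (∑' n : ℕ, (-1 : ℝ) ^ ((n : ℤ) + 1) * Pos.hx η ((n : ℤ) + 1) ^ 2)
      = -∑' n : ℕ, (-1 : ℝ) ^ n * sech ((n + 1) * η) ^ 2 := by
    rw [← tsum_neg]
    exact tsum_congr (K1_term η)
  rw [e3, Pos.hx_zero]
  simp only [zpow_zero, one_pow, mul_one]
  ring

/-- `C(t) = f0 + η κ*` -/
theorem cval_eq_f0 {t : ℝ} (ht : 0 < t) :
    Exact.cval t = Lower.f0 (Real.exp (-(2 * (t / 2)))) + t / 2 * ((1 - Pos.K1 (t / 2)) / 4) := by
  rw [Exact.cval_eq ht, Exact.key_series ht]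
  have h0 : Real.exp (-(2 * (t / 2))) = Real.exp (-t) := by
    congr 1
    ring
  have h1 : Real.exp (-t) < 1 := Exact.exp_neg_lt_one ht
  rw [h0, f0_series (Real.exp_pos _) h1, K1_eq (η := t / 2) (by linarith)]
  have e1 : (∑' m : ℕ, (-1 : ℝ) ^ m * Real.log (1 + Real.exp (-((m + 1) * t))))
      = ∑' m : ℕ, (-1 : ℝ) ^ m * Real.log (1 + Real.exp (-t) ^ (m + 1)) := by
    apply tsum_congr
    intro m
    rw [Exact.exp_pow]
    push_cast
    rfl
  have e2 : (∑' k : ℕ, (-1 : ℝ) ^ k * (sech ((k + 1) * t / 2) ^ 2 / 4))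
      = (∑' k : ℕ, (-1 : ℝ) ^ k * sech ((k + 1) * (t / 2)) ^ 2) / 4 := by
    rw [← tsum_div_const]
    apply tsum_congr
    intro k
    rw [mul_div_assoc]
    ring
  rw [e1, e2]
  ring

theorem cU_eq_lower : cU = Lower.cU := rfl

/-- THE COEFFICIENT ESTIMATE OF THE FIRST BRANCH -/
theorem coef_I {t R : ℝ} (ht : 0 < t) (hR : R < Exact.cval t) :
    CoefBound R ((1 - Exact.sI t) / 2) := by
  have hη : 0 < t / 2 := by linarith
  rw [← sI_eq ht]
  apply coef_I_core (κ := (R - Lower.f0 (Real.exp (-(2 * (t / 2))))) / (t / 2)) hη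
  · rw [Pos.SS_pi, Complex.ofReal_re, div_lt_iff₀ hη]
    have := cval_eq_f0 ht
    linarith
  · intro n b hb s h0 h1
    have h := Lower.M1 hη R n b hb h0 h1
    have e1 : (-2 : ℂ) * S (cL (t / 2)) s = -(2 * S (cL (t / 2)) s) := by ring
    rw [e1] at h
    refine h.trans (le_of_eq ?_)
    congr 3
    unfold UU
    rw [Complex.add_re, Complex.re_ofReal_mul, cU_eq_lower]

end Pool.Agent.Lib.MP_0430e4_lc.LPLOW
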