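import Pool.Agent.Lib.MP_0430e4_lc.LPLOW.ContII
import Pool.Agent.Lib.MP_0430e4_lc.LPLOW.CoefI
import Pool.Agent.Lib.MP_0430e4_lc.Exact.SE

/-!
# The coefficient estimate of the second branch
-/

set_option autoImplicit false

namespace Pool.Agent.Lib.MP_0430e4_lc.LPLOW

open Complex Filter Topology
open Exact (sech)

theorem S_cO_zero (t : ℝ) : (S (cO (t / 2)) 0).re = ∑' j : ℤ, sech (j * t) := by
  rw [Lower.S_even_eq (fun k hk => by unfold cO; rw [if_neg hk]) 0, mul_zero, S_zero,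
    Complex.ofReal_re]
  apply tsum_congr
  intro j
  unfold cO
  rw [if_pos (even_two_mul j)]
  congr 1
  push_cast
  ring

theorem S_cE_zero (t : ℝ) : (S (cE (t / 2)) 0).re = ∑' j : ℤ, sech (j * t) ^ 2 := by
  rw [Lower.S_even_eq (fun k hk => by unfold cE; rw [if_neg hk]) 0, mul_zero, S_zero,
    Complex.ofReal_re]
  apply tsum_congr
  intro j
  unfold cE
  rw [if_pos (even_two_mul j)]
  congr 2
  push_cast
  ring

theorem sII_eq (t : ℝ) : (S (cE (t / 2)) 0).re / (S (cO (t / 2)) 0).re = Exact.sII t := by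
  rw [S_cO_zero, S_cE_zero]
  rfl

/-- THE COEFFICIENT ESTIMATE OF THE SECOND BRANCH -/
theorem coef_II {t R : ℝ} (ht : 0 < t) (hR : R < Real.log 2 - Exact.cval t) :
    CoefBound R ((1 - Exact.sII t) / 2) := by
  have hη : 0 < t / 2 := by linarith
  have h1 := Exact.sII_lt_one ht
  apply BII.coef_core hη
  · rw [Pos.SS_pi, Complex.ofReal_re, lt_div_iff₀ hη, ← Lower.r_eq hη]
    have := cval_eq_f0 ht
    linarith
  · rw [sII_eq]
  · rw [sII_eq]
    linarith

end Pool.Agent.Lib.MP_0430e4_lc.LPLOW
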