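import Pool.Agent.Lib.MP_0430e4_lc.Impr.LPV
import Pool.Agent.Lib.MP_0430e4_lc.Impr.CUBE1

/-!
# Strong duality for Delsarte's linear program
-/

set_option autoImplicit false

namespace Pool.Agent.Lib.MP_0430e4_lc.LPLOW

open Finset Filter Topology
open Tensor (chi)
open Impr (wt lpBound)

/-- Above the optimum of the primal program there are dual solutions. -/
theorem dual_exists {n d : ℕ} {v : ℝ} (hd : 1 ≤ d) (hv : lpBound n d < v) :
    ∃ f : (Fin n → Bool) → ℝ, (∀ y, 0 ≤ f y) ∧ 0 < f (fun _ => false) ∧
      (∀ x, d ≤ wt x → ∑ y, f y * chi x y ≤ 0) ∧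
      ∑ y, f y ≤ v * f (fun _ => false) := by
  classical
  have hv1 : 1 < v := lt_of_le_of_lt (Impr.one_le_lpBound n d) hv
  by_cases hne : ∃ x : Fin n → Bool, d ≤ wt x
  swap
  · push Not at hne
    refine ⟨fun y => if y = (fun _ => false) then 1 else 0, ?_, by simp, ?_, ?_⟩
    · intro y
      dsimp only
      split_ifs <;> norm_num
    · intro x hx
      exact absurd hx (by simpa using hne x)
    · simp only [Finset.sum_ite_eq', Finset.mem_univ, if_true]
      linarith
  obtain ⟨x0, hx0⟩ := hne
  set c : ℝ := 1 / (v - 1) with hc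
  have hc0 : 0 < c := by
    rw [hc]
    exact div_pos one_pos (by linarith)
  set p : (Fin n → Bool) → ((Fin n → Bool) → ℝ) := fun x y => chi x y with hp
  set X : Set (Fin n → Bool) := {x | d ≤ wt x} with hX
  have hXfin : (p '' X).Finite := (Set.toFinite X).image p
  set A : Set ((Fin n → Bool) → ℝ) := convexHull ℝ (p '' X) with hA
  have hAc : IsCompact A := hXfin.isCompact_convexHull ℝ
  set B : Set ((Fin n → Bool) → ℝ) := {q | ∀ y, -c ≤ q y} with hB
  have hBconv : Convex ℝ B := by
    intro q hq q' hq' a b ha hb hab y
    have h1 := hq y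
    have h2 := hq' y
    simp only [Pi.add_apply, Pi.smul_apply, smul_eq_mul]
    have h3 := mul_le_mul_of_nonneg_left h1 ha
    have h4 := mul_le_mul_of_nonneg_left h2 hb
    have h5 : a * -c + b * -c = -c := by rw [← add_mul, hab, one_mul]
    linarith
  have hBcl : IsClosed B := by
    have : B = ⋂ y, {q : (Fin n → Bool) → ℝ | -c ≤ q y} := by
      ext q
      simp [hB]
    rw [this]
    exact isClosed_iInter fun y => isClosed_le continuous_const (continuous_apply y)
  have hdisj : Disjoint A B := by
    rw [Set.disjoint_left]
    intro q hqA hqB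
    obtain ⟨ι, _, w, z, hw0, hw1, hz, hq⟩ := mem_convexHull_iff_exists_fintype.1 hqA
    choose b hb1 hb2 using hz
    -- a primal solution of value `v`
    have hb0 : ∀ i, b i ≠ (fun _ => false) := by
      intro i hcon
      have h1 : d ≤ wt (b i) := hb1 i
      rw [hcon] at h1
      simp [wt] at h1
      omega
    set β : (Fin n → Bool) → ℝ := fun x =>
      (if x = (fun _ => false) then 1 else 0) + (v - 1) * ∑ i, if b i = x then w i else 0 with hβ
    have hsum : ∀ g : (Fin n → Bool) → ℝ, ∑ x, β x * g x
        = g (fun _ => false) + (v - 1) * ∑ i, w i * g (b i) := by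
      intro g
      simp only [hβ, add_mul, Finset.sum_add_distrib, ite_mul, one_mul, zero_mul]
      rw [Finset.sum_ite_eq' Finset.univ]
      simp only [Finset.mem_univ, if_true]
      congr 1
      simp only [mul_assoc, Finset.sum_mul]
      rw [← Finset.mul_sum, Finset.sum_comm]
      congr 1
      apply Finset.sum_congr rfl
      intro i _
      simp only [ite_mul, zero_mul]
      rw [Finset.sum_ite_eq Finset.univ (b i)]
      simp
    have hfeas : v ∈ {s : ℝ | ∃ β : (Fin n → Bool) → ℝ, β (fun _ => false) = 1 ∧ (∀ x, 0 ≤ β x) ∧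
        (∀ x, x ≠ (fun _ => false) → (univ.filter fun i => x i = true).card < d → β x = 0) ∧
        (∀ y, 0 ≤ ∑ x, β x * Tensor.chi x y) ∧ s = ∑ x, β x} := by
      refine ⟨β, ?_, ?_, ?_, ?_, ?_⟩
      · simp only [hβ, if_true]
        rw [Finset.sum_eq_zero]
        · ring
        · intro i _
          rw [if_neg (hb0 i)]
      · intro x
        simp only [hβ]
        apply add_nonneg
        · split_ifs <;> norm_num
        · apply mul_nonneg (by linarith)
          apply Finset.sum_nonneg
          intro i _
          split_ifs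
          · exact hw0 i
          · exact le_rfl
      · intro x hx hxd
        simp only [hβ, if_neg hx]
        rw [Finset.sum_eq_zero]
        · ring
        · intro i _
          rw [if_neg]
          intro hbi
          have h1 : d ≤ wt (b i) := hb1 i
          rw [hbi] at h1
          unfold wt at h1
          omega
      · intro y
        rw [hsum]
        have h1 : ∑ i, w i * chi (b i) y = q y := by
          rw [← hq]
          simp only [Finset.sum_apply, Pi.smul_apply, smul_eq_mul]
          apply Finset.sum_congr rfl
          intro i _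
          rw [← hb2 i]
        rw [h1, Tensor.chi_zero_left]
        have h2 := mul_le_mul_of_nonneg_left (hqB y) (show (0 : ℝ) ≤ v - 1 by linarith)
        have h3 : (v - 1) * -c = -1 := by
          rw [hc]
          field_simp [show v - 1 ≠ 0 by linarith]
        linarith
      · have h1 := hsum (fun _ => 1)
        simp only [mul_one] at h1
        rw [h1, hw1]
        ring
    have := le_csSup (Impr.lpBound_bdd n d) hfeas
    have h2 : v ≤ lpBound n d := this
    linarith
  obtain ⟨φ, u, u', h1, h2, h3⟩ := geometric_hahn_banach_compact_closed (convex_convexHull ℝ _)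
    hAc hBconv hBcl hdisj
  have hφ : ∀ q : (Fin n → Bool) → ℝ, φ q = ∑ y, q y * φ (Pi.single y 1) := by
    intro q
    conv_lhs => rw [pi_eq_sum_univ' q]
    rw [map_sum]
    apply Finset.sum_congr rfl
    intro i _
    rw [map_smul, smul_eq_mul]
  set a : (Fin n → Bool) → ℝ := fun y => φ (Pi.single y 1) with ha
  have ha0 : ∀ y, 0 ≤ a y := by
    intro y
    by_contra hcon
    push Not at hcon
    -- move in the direction `y`
    have h4 : ∀ t : ℝ, 0 ≤ t → u' < φ ((fun _ => -c) + t • Pi.single y (1 : ℝ)) := by
      intro t ht
      apply h3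
      intro y'
      simp only [Pi.add_apply, Pi.smul_apply, smul_eq_mul]
      have : (0 : ℝ) ≤ t * (Pi.single y (1 : ℝ) : (Fin n → Bool) → ℝ) y' := by
        apply mul_nonneg ht
        by_cases hy : y' = y
        · subst hy
          simp
        · rw [Pi.single_eq_of_ne hy]
      linarith
    simp only [map_add, map_smul, smul_eq_mul] at h4
    have h5 := h4 (|φ (fun _ => -c) - u'| / (-a y)) (div_nonneg (abs_nonneg _) (by linarith))
    have h6 : |φ (fun _ => -c) - u'| / (-a y) * φ (Pi.single y 1) = -|φ (fun _ => -c) - u'| := by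
      have : φ (Pi.single y 1) = a y := rfl
      rw [this]
      have h7 : a y ≠ 0 := hcon.ne
      field_simp
    rw [h6] at h5
    have h8 := le_abs_self (φ (fun _ => -c) - u')
    linarith
  set sa : ℝ := ∑ y, a y with hsa
  have hsa0 : 0 ≤ sa := Finset.sum_nonneg fun y _ => ha0 y
  have h4 : u' < -c * sa := by
    have := h3 (fun _ => -c) (fun y => le_rfl)
    rw [hφ, ← Finset.mul_sum] at this
    exact this
  have h5 : ∀ x, d ≤ wt x → ∑ y, chi x y * a y < -c * sa := by
    intro x hx
    have h6 := h1 (p x) (subset_convexHull ℝ _ ⟨x, hx, rfl⟩)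
    rw [hφ] at h6
    linarith
  have hsap : 0 < sa := by
    rcases hsa0.lt_or_eq with h | h
    · exact h
    · exfalso
      have h6 : ∀ y, a y = 0 := by
        intro y
        have := (Finset.sum_eq_zero_iff_of_nonneg (fun y _ => ha0 y)).1 h.symm y (Finset.mem_univ _)
        exact this
      have h7 := h5 x0 hx0
      simp only [h6, mul_zero, Finset.sum_const_zero, ← h] at h7
      exact lt_irrefl _ h7
  refine ⟨fun y => a y + (if y = (fun _ => false) then c * sa else 0), ?_, ?_, ?_, ?_⟩
  · intro y
    dsimp only
    split_ifs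
    · exact add_nonneg (ha0 y) (by positivity)
    · simpa using ha0 y
  · simp only [if_true]
    have := ha0 (fun _ => false)
    positivity
  · intro x hx
    have h6 := h5 x hx
    simp only [add_mul, Finset.sum_add_distrib, ite_mul, zero_mul]
    rw [Finset.sum_ite_eq' Finset.univ]
    simp only [Finset.mem_univ, if_true, Tensor.chi_zero_right, mul_one]
    have h7 : ∑ y, a y * chi x y = ∑ y, chi x y * a y :=
      Finset.sum_congr rfl fun y _ => mul_comm _ _
    rw [h7]
    linarith
  · simp only [Finset.sum_add_distrib, Finset.sum_ite_eq', Finset.mem_univ, if_true]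
    have h6 : v * c = 1 + c := by
      rw [hc]
      field_simp [show v - 1 ≠ 0 by linarith]
      ring
    have h7 : v * (a (fun _ => false) + c * sa) = v * a (fun _ => false) + (1 + c) * sa := by
      rw [mul_add, ← mul_assoc, h6]
    rw [h7]
    have h8 : 0 ≤ v * a (fun _ => false) := mul_nonneg (by linarith) (ha0 _)
    linarith

end Pool.Agent.Lib.MP_0430e4_lc.LPLOW
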