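import Pool.Agent.Lib.MP_0430e4_lc.LPLOW.Defs
import Pool.Agent.Lib.MP_0430e4_lc.LPLOW.Dual
import Pool.Agent.Lib.MP_0430e4_lc.Lower.Core

/-!
# The finite part of the lower bound for the full linear program
-/

set_option autoImplicit false

namespace Pool.Agent.Lib.MP_0430e4_lc.LPLOW

open Finset Filter Topology
open Tensor (chi)
open Impr (wt lpBound)

variable {n : ℕ}

theorem wt_le (x : Fin n → Bool) : wt x ≤ n := by
  unfold wt
  calc (univ.filter fun i => x i = true).card ≤ (univ : Finset (Fin n)).card :=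
        Finset.card_filter_le _ _
    _ = n := by simp

/-- level sums of the Fourier transform -/
noncomputable def bk (f : (Fin n → Bool) → ℝ) (k : ℕ) : ℝ :=
  (2 ^ n)⁻¹ * ∑ x : Fin n → Bool, if wt x = k then ∑ y, f y * chi x y else 0

theorem prod_wt {R : Type*} [CommMonoid R] (u v : R) (x : Fin n → Bool) :
    ∏ i, (if x i = true then u else v) = u ^ wt x * v ^ (n - wt x) := by
  rw [Finset.prod_ite]
  simp only [Finset.prod_const]
  have h1 : (univ.filter fun i => ¬ x i = true).card = n - wt x := by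
    have h2 := Finset.card_filter_add_card_filter_not (s := (univ : Finset (Fin n)))
      (fun i => x i = true)
    rw [Finset.card_univ, Fintype.card_fin] at h2
    unfold wt
    omega
  rw [h1]
  rfl

theorem sum_bk (f : (Fin n → Bool) → ℝ) (g : ℕ → ℂ) :
    ∑ k ∈ range (n + 1), (bk f k : ℂ) * g k
      = (2 ^ n)⁻¹ * ∑ x : Fin n → Bool, ((∑ y, f y * chi x y : ℝ) : ℂ) * g (wt x) := by
  unfold bk
  simp only [Complex.ofReal_mul, Complex.ofReal_inv, Complex.ofReal_pow, Complex.ofReal_ofNat,
    mul_assoc, Complex.ofReal_sum]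
  rw [← Finset.mul_sum]
  congr 1
  simp only [Finset.sum_mul]
  rw [Finset.sum_comm]
  apply Finset.sum_congr rfl
  intro x _
  rw [Finset.sum_eq_single (wt x)]
  · simp [Finset.sum_mul]
  · intro k _ hk
    rw [if_neg (Ne.symm hk)]
    simp
  · intro hc
    exfalso
    apply hc
    have := wt_le x
    rw [Finset.mem_range]
    omega

theorem Fp_bk (f : (Fin n → Bool) → ℝ) (z : ℂ) : Fp n (bk f) z = Lower.Pz f z := by
  unfold Fp
  rw [sum_bk f (fun k => (1 - z) ^ k * (1 + z) ^ (n - k))]
  have h := Lower.four f z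
  simp only [prod_wt (n := n)] at h
  rw [h]
  have h2 : (2 : ℂ) ^ n ≠ 0 := pow_ne_zero _ two_ne_zero
  field_simp

theorem chi_not (x y : Fin n → Bool) : chi x (fun i => !(y i)) = (-1) ^ wt x * chi x y := by
  have h1 : ((-1 : ℝ)) ^ wt x = ∏ i, (if x i = true then (-1 : ℝ) else 1) := by
    rw [prod_wt]
    simp
  rw [h1, Tensor.chi_eq, Tensor.chi_eq, ← Finset.prod_mul_distrib]
  apply Finset.prod_congr rfl
  intro i _
  cases x i <;> cases y i <;> simp [Tensor.sg]

/-- complement as a permutation of the cube -/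
def cmpl (n : ℕ) : Equiv.Perm (Fin n → Bool) :=
  Function.Involutive.toPerm (fun (y : Fin n → Bool) i => !(y i)) (fun y => by funext i; simp)

theorem sum_cmpl (g : (Fin n → Bool) → ℝ) :
    ∑ y : Fin n → Bool, g (fun i => !(y i)) = ∑ y, g y :=
  Equiv.sum_comp (cmpl n) g

theorem cmpl_cmpl (y : Fin n → Bool) : (fun i => !(!(y i))) = y := by
  funext i
  simp

/-- Contradiction from the coefficient estimate. -/
theorem no_dual {d : ℕ} {κ : ℝ} (b : ℕ → ℝ) (hneg : ∀ k, d ≤ k → b k ≤ 0)
    (hpos : 0 < ∑ k ∈ range (n + 1), b k)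
    (hlow : ∀ k ≤ n, k < d → |b k| ≤ κ * Nb n b) (hκ0 : 0 ≤ κ) (hκ : 2 * ((n : ℝ) + 1) * κ < 1) :
    False := by
  have hN : 0 < Nb n b := lt_of_lt_of_le hpos (Finset.sum_le_sum fun k _ => le_abs_self _)
  -- pointwise inequality
  have h1 : ∀ k ∈ range (n + 1), |b k| + b k ≤ 2 * (κ * Nb n b) := by
    intro k hk
    have hk' : k ≤ n := by
      have := Finset.mem_range.1 hk
      omega
    by_cases hkd : k < d
    · have h2 := hlow k hk' hkd
      have h3 := le_abs_self (b k)
      linarith
    · push Not at hkd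
      have h2 := hneg k hkd
      rw [abs_of_nonpos h2]
      have : 0 ≤ κ * Nb n b := mul_nonneg hκ0 hN.le
      linarith
  have h2 := Finset.sum_le_sum h1
  rw [Finset.sum_add_distrib, Finset.sum_const, Finset.card_range, nsmul_eq_mul] at h2
  push_cast at h2
  have h3 : ∑ k ∈ range (n + 1), |b k| = Nb n b := rfl
  rw [h3] at h2
  nlinarith

/-- The value of Delsarte's program is exponentially large whenever the coefficient estimate
holds. -/
theorem lp_ge_of_coef {R δ : ℝ} (hδ : 0 < δ) (h : CoefBound R δ) :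
    ∀ᶠ n : ℕ in atTop, Real.exp (n * R) / 2 ≤ lpBound n ⌈δ * n⌉₊ := by
  obtain ⟨C, ε, hC, hε, hb⟩ := h
  have hlim : Tendsto (fun n : ℕ => 2 * ((n : ℝ) + 1) * (C * Real.exp (-(n * ε)))) atTop (𝓝 0) := by
    have h1 : Tendsto (fun n : ℕ => (n : ℝ) * Real.exp (-(ε * n))) atTop (𝓝 0) := by
      have h2 := Real.tendsto_pow_mul_exp_neg_atTop_nhds_zero 1
      have h3 : Tendsto (fun n : ℕ => ε * (n : ℝ)) atTop atTop :=
        tendsto_natCast_atTop_atTop.const_mul_atTop hε
      have h4 := h2.comp h3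
      have h5 := h4.const_mul ε⁻¹
      rw [mul_zero] at h5
      refine h5.congr fun n => ?_
      simp only [Function.comp_apply, pow_one]
      rw [← mul_assoc, ← mul_assoc, inv_mul_cancel₀ hε.ne', one_mul]
    have h2 : Tendsto (fun n : ℕ => Real.exp (-(ε * n))) atTop (𝓝 0) := by
      apply Real.tendsto_exp_neg_atTop_nhds_zero.comp
      exact tendsto_natCast_atTop_atTop.const_mul_atTop hε
    have h3 := (h1.add h2).const_mul (2 * C)
    rw [add_zero, mul_zero] at h3
    refine h3.congr fun n => ?_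
    rw [mul_comm ε (n : ℝ)]
    ring
  have hev : ∀ᶠ n : ℕ in atTop, 2 * ((n : ℝ) + 1) * (C * Real.exp (-(n * ε))) < 1 :=
    hlim.eventually (gt_mem_nhds one_pos)
  filter_upwards [hev, eventually_ge_atTop 1] with n hn hn1
  by_contra hcon
  push Not at hcon
  have hnpos : (0 : ℝ) < n := by exact_mod_cast hn1
  set d : ℕ := ⌈δ * n⌉₊ with hd
  have hd1 : 1 ≤ d := by
    rw [hd, Nat.one_le_ceil_iff]
    positivity
  obtain ⟨f, hf0, hfp, hfd, hfs⟩ := dual_exists hd1 hcon
  set g : (Fin n → Bool) → ℝ := fun y => f y + f (fun i => !(y i)) with hg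
  have hg0 : ∀ y, 0 ≤ g y := fun y => add_nonneg (hf0 _) (hf0 _)
  have hgchi : ∀ x, ∑ y, g y * chi x y = (1 + (-1) ^ wt x) * ∑ y, f y * chi x y := by
    intro x
    simp only [hg, add_mul, Finset.sum_add_distrib, one_mul]
    congr 1
    rw [← sum_cmpl (fun y => f (fun i => !(y i)) * chi x y), Finset.mul_sum]
    apply Finset.sum_congr rfl
    intro y _
    rw [cmpl_cmpl, chi_not]
    ring
  -- properties of the level sums
  have hodd : ∀ k, Odd k → bk g k = 0 := by
    intro k hk
    unfold bk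
    rw [Finset.sum_eq_zero, mul_zero]
    intro x _
    split_ifs with hx
    · rw [hgchi, hx, hk.neg_one_pow]
      ring
    · rfl
  have hneg : ∀ k, d ≤ k → bk g k ≤ 0 := by
    intro k hk
    unfold bk
    apply mul_nonpos_of_nonneg_of_nonpos (by positivity)
    apply Finset.sum_nonpos
    intro x _
    split_ifs with hx
    · rw [hgchi]
      apply mul_nonpos_of_nonneg_of_nonpos
      · rcases neg_one_pow_eq_or ℝ (wt x) with h | h <;> rw [h] <;> norm_num
      · exact hfd x (by omega)
    · exact le_rfl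
  have hsum : ∑ k ∈ range (n + 1), bk g k = g (fun _ => false) := by
    have h1 := sum_bk g (fun _ => 1)
    simp only [mul_one] at h1
    have h2 := Lower.sum_four g
    have h3 : ((∑ k ∈ range (n + 1), bk g k : ℝ) : ℂ)
        = ((2 ^ n)⁻¹ * ∑ x : Fin n → Bool, ∑ y, g y * chi x y : ℝ) := by
      push_cast
      push_cast at h1
      exact h1
    have h4 := Complex.ofReal_injective h3
    rw [h4, h2]
    field_simp
  have hgp : 0 < g (fun _ => false) := add_pos_of_pos_of_nonneg hfp (hf0 _)
  have hgs : ∑ y, g y ≤ Real.exp (n * R) * g (fun _ => false) := by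
    simp only [hg, Finset.sum_add_distrib]
    rw [sum_cmpl f]
    have h1 : 0 ≤ Real.exp (n * R) * f (fun _ => !false) := mul_nonneg (Real.exp_pos _).le (hf0 _)
    rw [mul_add]
    linarith
  have hNge : g (fun _ => false) ≤ Nb n (bk g) := by
    rw [← hsum]
    exact Finset.sum_le_sum fun k _ => le_abs_self _
  have hF : ∀ z : ℂ, ‖z‖ ≤ 1 → ‖Fp n (bk g) z‖ ≤ Real.exp (n * R) * Nb n (bk g) := by
    intro z hz
    rw [Fp_bk]
    have h1 : ‖Lower.Pz g z‖ ≤ ∑ y, g y := by
      unfold Lower.Pz
      refine le_trans (norm_sum_le _ _) ?_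
      apply Finset.sum_le_sum
      intro y _
      rw [norm_mul, Complex.norm_real, Real.norm_eq_abs, abs_of_nonneg (hg0 y), norm_prod]
      have : ∏ i, ‖(if y i = true then z else 1)‖ ≤ 1 := by
        apply Finset.prod_le_one
        · intro i _
          exact norm_nonneg _
        · intro i _
          split_ifs
          · exact hz
          · simp
      exact mul_le_of_le_one_right (hg0 y) this
    refine h1.trans (hgs.trans ?_)
    exact mul_le_mul_of_nonneg_left hNge (Real.exp_pos _).le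
  have hlow := hb n (bk g) hodd hF
  refine no_dual (n := n) (d := d) (κ := C * Real.exp (-(n * ε))) (bk g) hneg ?_ ?_
    (by positivity) hn
  · rw [hsum]
    exact hgp
  · intro k hk hkd
    have h1 : (k : ℝ) ≤ δ * n := by
      have : (k : ℝ) < δ * n := Nat.lt_ceil.1 hkd
      exact this.le
    have h2 := hlow k hk h1
    calc |bk g k| ≤ C * Nb n (bk g) * Real.exp (-(n * ε)) := h2
      _ = C * Real.exp (-(n * ε)) * Nb n (bk g) := by ring

end Pool.Agent.Lib.MP_0430e4_lc.LPLOW
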