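import Pool.Agent.Lib.MP_0430e4_lc.LPLOW.Ident

/-!
# The Jacobi system for the bilateral series `AA`, `CC`, `OO`
-/

set_option autoImplicit false

namespace Pool.Agent.Lib.MP_0430e4_lc.LPLOW

open Complex Filter Topology
open Exact (sech)

/-- coefficients of `CC(u) = ∑_{k odd > 0} csch(kη) sinh(ku)` -/
noncomputable def cC (η : ℝ) (k : ℤ) : ℝ := if Odd k then (Real.sinh (k * η))⁻¹ / 2 else 0

theorem cC_neg (η : ℝ) (k : ℤ) : cC η (-k) = -cC η k := by
  unfold cC
  simp only [odd_neg]
  rw [show ((-k : ℤ) : ℝ) * η = -(k * η) by push_cast; ring, Real.sinh_neg]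
  split_ifs
  · rw [inv_neg, neg_div]
  · simp

theorem cC_zero (η : ℝ) : S (cC η) 0 = 0 := by
  have h := S_neg_odd (cC_neg η) 0
  rw [neg_zero] at h
  have : (2 : ℂ) * S (cC η) 0 = 0 := by linear_combination h
  simpa using this

namespace Jac

/-- odd functions have sum zero -/
theorem tsum_odd_zero {f : ℤ → ℝ} (h : ∀ k, f (-k) = -f k) : ∑' k, f k = 0 := by
  have h1 := (Equiv.neg ℤ).tsum_eq f
  have h2 : ∑' k : ℤ, f ((Equiv.neg ℤ) k) = -∑' k, f k := by
    rw [← tsum_neg]
    congr 1
    funext k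
    exact h k
  rw [h2] at h1
  linarith

theorem hasSum_step (N : ℤ) : HasSum (fun k : ℤ => if Odd k then
    (((N + 1 - k).sign : ℝ) - ((N - k).sign : ℝ)) else 0) 1 := by
  by_cases hN : Odd N
  · convert hasSum_ite_eq N (1 : ℝ) using 1
    funext k
    by_cases h : k = N
    · subst h
      rw [if_pos hN, if_pos rfl, show k + 1 - k = 1 by ring, sub_self]
      simp
    · rw [if_neg h]
      split_ifs with ho
      · have h1 : k ≠ N + 1 := by
          rintro rfl
          rw [Int.odd_iff] at ho hN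
          omega
        rcases lt_or_gt_of_ne h with h2 | h2
        · rw [Int.sign_eq_one_of_pos (show 0 < N + 1 - k by omega),
            Int.sign_eq_one_of_pos (show 0 < N - k by omega)]
          simp
        · rw [Int.sign_eq_neg_one_of_neg (show N + 1 - k < 0 by omega),
            Int.sign_eq_neg_one_of_neg (show N - k < 0 by omega)]
          simp
      · rfl
  · convert hasSum_ite_eq (N + 1) (1 : ℝ) using 1
    funext k
    by_cases h : k = N + 1
    · subst h
      have hN1 : Odd (N + 1) := by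
        rw [Int.odd_iff] at *
        omega
      rw [if_pos hN1, if_pos rfl, sub_self, show N - (N + 1) = -1 by ring]
      simp
    · rw [if_neg h]
      split_ifs with ho
      · have h1 : k ≠ N := by
          rintro rfl
          exact hN ho
        rcases lt_or_gt_of_ne h1 with h2 | h2
        · rw [Int.sign_eq_one_of_pos (show 0 < N + 1 - k by omega),
            Int.sign_eq_one_of_pos (show 0 < N - k by omega)]
          simp
        · rw [Int.sign_eq_neg_one_of_neg (show N + 1 - k < 0 by omega),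
            Int.sign_eq_neg_one_of_neg (show N - k < 0 by omega)]
          simp
      · rfl

theorem hasSum_sign (N : ℤ) : HasSum (fun k : ℤ => if Odd k then
    ((k.sign : ℝ) + ((N - k).sign : ℝ)) else 0) (N : ℝ) := by
  induction N using Int.induction_on with
  | zero =>
    convert (hasSum_zero : HasSum (fun _ : ℤ => (0 : ℝ)) 0) using 1
    · funext k
      rw [zero_sub, Int.sign_neg]
      push_cast
      split_ifs <;> ring
    · simp
  | succ i ih =>
    have h := ih.add (hasSum_step i)
    convert h using 1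
    · funext k
      split_ifs <;> ring
    · push_cast
      ring
  | pred i ih =>
    have h := ih.sub (hasSum_step (-i - 1))
    have e : ((-(i : ℤ) - 1 : ℤ) : ℝ) = ((-(i : ℤ) : ℤ) : ℝ) - 1 := by
      push_cast
      ring
    rw [e]
    have e2 : (fun k : ℤ => if Odd k then ((k.sign : ℝ) + ((-(i : ℤ) - 1 - k).sign : ℝ)) else 0)
        = fun k : ℤ => (if Odd k then ((k.sign : ℝ) + ((-(i : ℤ) - k).sign : ℝ)) else 0)
          - (if Odd k then (((-(i : ℤ) - 1 + 1 - k).sign : ℝ)
            - ((-(i : ℤ) - 1 - k).sign : ℝ)) else 0) := by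
      funext k
      rw [show (-(i : ℤ) - 1 + 1 - k) = -(i : ℤ) - k by ring]
      split_ifs <;> ring
    rw [e2]
    exact h

theorem tanh_sub_one {x : ℝ} : 1 - Real.tanh x = Real.exp (-x) * sech x := by
  unfold sech
  have hc := (Real.cosh_pos x).ne'
  rw [Real.tanh_eq_sinh_div_cosh, ← Real.cosh_sub_sinh]
  field_simp

theorem abs_tanh_sub_sign {η : ℝ} (k : ℤ) :
    |Real.tanh (k * η) - (k.sign : ℝ)| ≤ Real.exp (-η * |(k : ℝ)|) := by
  have key : ∀ x : ℝ, |Real.tanh x - 1| ≤ Real.exp (-x) := by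
    intro x
    have h1 := @tanh_sub_one x
    have h2 := sech_pos x
    have h3 := sech_le_one x
    have h4 := Real.exp_pos (-x)
    rw [abs_sub_comm, h1, abs_of_pos (by positivity)]
    nlinarith
  rcases lt_trichotomy k 0 with h | h | h
  · have hk : (k : ℝ) < 0 := by exact_mod_cast h
    rw [Int.sign_eq_neg_one_of_neg h, abs_of_neg hk]
    have := key (-(k * η))
    rw [Real.tanh_neg] at this
    rw [show Real.tanh (k * η) - ((-1 : ℤ) : ℝ) = -(-Real.tanh (k * η) - 1) by push_cast; ring,
      abs_neg]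
    refine this.trans (le_of_eq ?_)
    congr 1
    ring
  · subst h
    simp
  · have hk : 0 < (k : ℝ) := by exact_mod_cast h
    rw [Int.sign_eq_one_of_pos h, abs_of_pos hk]
    have := key (k * η)
    rw [show Real.tanh (k * η) - ((1 : ℤ) : ℝ) = Real.tanh (k * η) - 1 by push_cast; ring]
    refine this.trans (le_of_eq ?_)
    congr 1
    ring

theorem abs_coth_sub_sign {η : ℝ} (hη : 0 < η) {k : ℤ} (hk0 : k ≠ 0) :
    |Real.cosh (k * η) / Real.sinh (k * η) - (k.sign : ℝ)|
      ≤ (Real.sinh η)⁻¹ * Real.exp (-η * |(k : ℝ)|) := by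
  have hs := Real.sinh_pos_iff.2 hη
  have key : ∀ x : ℝ, η ≤ x → |Real.cosh x / Real.sinh x - 1| ≤ (Real.sinh η)⁻¹ * Real.exp (-x) := by
    intro x hx
    have hsx : Real.sinh η ≤ Real.sinh x := Real.sinh_le_sinh.2 hx
    have hsx0 : 0 < Real.sinh x := by linarith
    have h4 := Real.exp_pos (-x)
    have e : Real.cosh x / Real.sinh x - 1 = (Real.sinh x)⁻¹ * Real.exp (-x) := by
      rw [← Real.cosh_sub_sinh]
      field_simp
    rw [e, abs_of_pos (by positivity)]
    exact mul_le_mul_of_nonneg_right (inv_anti₀ hs hsx) h4.le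
  rcases lt_or_gt_of_ne hk0 with h | h
  · have hk : (k : ℝ) ≤ -1 := by exact_mod_cast (by omega : k ≤ -1)
    rw [Int.sign_eq_neg_one_of_neg h, abs_of_neg (show (k : ℝ) < 0 by linarith)]
    have := key (-(k * η)) (by nlinarith)
    rw [Real.cosh_neg, Real.sinh_neg, div_neg] at this
    rw [show Real.cosh (k * η) / Real.sinh (k * η) - ((-1 : ℤ) : ℝ)
      = -(-(Real.cosh (k * η) / Real.sinh (k * η)) - 1) by push_cast; ring, abs_neg]
    refine this.trans (le_of_eq ?_)
    congr 2
    ring
  · have hk : 1 ≤ (k : ℝ) := by exact_mod_cast (by omega : 1 ≤ k)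
    rw [Int.sign_eq_one_of_pos h, abs_of_pos (show 0 < (k : ℝ) by linarith)]
    have := key (k * η) (by nlinarith)
    rw [show Real.cosh (k * η) / Real.sinh (k * η) - ((1 : ℤ) : ℝ)
      = Real.cosh (k * η) / Real.sinh (k * η) - 1 by push_cast; ring]
    refine this.trans (le_of_eq ?_)
    congr 2
    ring

theorem _root_.Pool.Agent.Lib.MP_0430e4_lc.LPLOW.dec_cC {η : ℝ} (hη : 0 < η) : Dec η (cC η) := by
  have hs := Real.sinh_pos_iff.2 hη
  -- csch x <= 2 e^{-x} / (1 - e^{-2η})
  refine ⟨(1 + (Real.sinh η)⁻¹), fun k => ?_⟩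
  unfold cC
  have hpos : 0 ≤ (1 + (Real.sinh η)⁻¹) * Real.exp (-η * |(k : ℝ)|) := by positivity
  split_ifs with h
  · have hk0 : k ≠ 0 := by
      rintro rfl
      simp at h
    have key : ∀ x : ℝ, η ≤ x → |(Real.sinh x)⁻¹ / 2| ≤ (1 + (Real.sinh η)⁻¹) * Real.exp (-x) := by
      intro x hx
      have hsx : Real.sinh η ≤ Real.sinh x := Real.sinh_le_sinh.2 hx
      have hsx0 : 0 < Real.sinh x := by linarith
      rw [abs_of_pos (by positivity)]
      -- 1 / (2 sinh x) ≤ (1 + 1/sinh η) e^{-x} ; e^x ≤ 2 sinh x + e^{-x}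
      have e1 : Real.exp (-x) * Real.exp x = 1 := by rw [← Real.exp_add]; simp
      have e2 : Real.exp x = Real.sinh x + Real.cosh x := (Real.sinh_add_cosh x).symm
      have e3 : Real.exp (-x) = Real.cosh x - Real.sinh x := (Real.cosh_sub_sinh x).symm
      have e4 : Real.exp (-x) ≤ 1 := by
        rw [Real.exp_le_one_iff]
        linarith
      have e5 := Real.exp_pos (-x)
      have e6 : Real.exp x = 2 * Real.sinh x + Real.exp (-x) := by rw [e2, e3]; ring
      have e7 : Real.exp x ≤ 2 * Real.sinh x + 1 := by linarith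
      have e8 : 1 ≤ (2 * Real.sinh x + 1) * Real.exp (-x) := by nlinarith
      have e9 : (Real.sinh x)⁻¹ ≤ (Real.sinh η)⁻¹ := inv_anti₀ hs hsx
      calc (Real.sinh x)⁻¹ / 2 ≤ (Real.sinh x)⁻¹ / 2 * ((2 * Real.sinh x + 1) * Real.exp (-x)) :=
            le_mul_of_one_le_right (by positivity) e8
        _ = (1 + (Real.sinh x)⁻¹ / 2) * Real.exp (-x) := by
            field_simp
        _ ≤ _ := by
            apply mul_le_mul_of_nonneg_right _ e5.le
            have : 0 < (Real.sinh x)⁻¹ := inv_pos.2 hsx0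
            linarith
    rcases lt_or_gt_of_ne hk0 with h1 | h1
    · have hk : (k : ℝ) ≤ -1 := by exact_mod_cast (by omega : k ≤ -1)
      have := key (-(k * η)) (by nlinarith)
      rw [Real.sinh_neg, inv_neg, neg_div, abs_neg] at this
      refine this.trans (le_of_eq ?_)
      rw [abs_of_neg (show (k : ℝ) < 0 by linarith)]
      congr 2
      ring
    · have hk : 1 ≤ (k : ℝ) := by exact_mod_cast (by omega : 1 ≤ k)
      have := key (k * η) (by nlinarith)
      refine this.trans (le_of_eq ?_)
      rw [abs_of_pos (show 0 < (k : ℝ) by linarith)]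
      congr 2
      ring
  · simpa using hpos

theorem summable_tanh {η : ℝ} (hη : 0 < η) :
    Summable (fun k : ℤ => Real.tanh (k * η) - (k.sign : ℝ)) := by
  refine Summable.of_norm_bounded (summable_exp_int hη) (fun k => ?_)
  exact abs_tanh_sub_sign k

theorem summable_ite {f : ℤ → ℝ} (hf : Summable f) (p : ℤ → Prop) [DecidablePred p] :
    Summable (fun k => if p k then f k else 0) := by
  refine Summable.of_norm_bounded hf.norm (fun k => ?_)
  split_ifs
  · exact le_rfl
  · simp

/-- the sum of `tanh((N-k)η) - sgn(N-k)` over a parity class vanishes -/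
theorem sum_tanh_zero {η : ℝ} (N : ℤ) :
    ∑' k : ℤ, (if Odd k then (Real.tanh ((N - k : ℤ) * η) - ((N - k).sign : ℝ)) else 0) = 0 := by
  rw [← (Equiv.subLeft N).tsum_eq]
  apply tsum_odd_zero
  intro k
  simp only [Equiv.subLeft_apply, sub_sub_cancel]
  have h1 : Odd (N - -k) ↔ Odd (N - k) := by
    rw [Int.odd_sub, Int.odd_sub, even_neg]
  simp only [h1]
  rw [show ((-k : ℤ) : ℝ) * η = -(k * η) by push_cast; ring, Real.tanh_neg, Int.sign_neg]
  push_cast
  split_ifs <;> ring

theorem summable_tanh_shift {η : ℝ} (hη : 0 < η) (N : ℤ) :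
    Summable (fun k : ℤ => if Odd k then
      (Real.tanh ((N - k : ℤ) * η) - ((N - k).sign : ℝ)) else 0) := by
  apply summable_ite
  have h := (Equiv.subLeft N).summable_iff.2 (summable_tanh hη)
  exact h

theorem summable_coth {η : ℝ} (hη : 0 < η) :
    Summable (fun k : ℤ => if Odd k then
      (Real.cosh (k * η) / Real.sinh (k * η) - (k.sign : ℝ)) else 0) := by
  refine Summable.of_norm_bounded ((summable_exp_int hη).mul_left (Real.sinh η)⁻¹) (fun k => ?_)
  have hs := Real.sinh_pos_iff.2 hη
  split_ifs with h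
  · have hk0 : k ≠ 0 := by
      rintro rfl
      simp at h
    exact abs_coth_sub_sign hη hk0
  · rw [norm_zero]
    positivity

theorem sum_coth_zero {η : ℝ} :
    ∑' k : ℤ, (if Odd k then
      (Real.cosh (k * η) / Real.sinh (k * η) - (k.sign : ℝ)) else 0) = 0 := by
  apply tsum_odd_zero
  intro k
  simp only [odd_neg]
  rw [show ((-k : ℤ) : ℝ) * η = -(k * η) by push_cast; ring, Real.cosh_neg, Real.sinh_neg,
    Int.sign_neg]
  push_cast
  rw [div_neg]
  split_ifs <;> ring

/-- `∑_{k odd} csch(kη) sech((N-k)η) = N sech(Nη)` -/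
theorem sum_CS {η : ℝ} (hη : 0 < η) (N : ℤ) :
    ∑' k : ℤ, (if Odd k then (Real.sinh (k * η))⁻¹ * sech ((N - k : ℤ) * η) else 0)
      = N * sech (N * η) := by
  have e : ∀ k : ℤ, (if Odd k then (Real.sinh (k * η))⁻¹ * sech ((N - k : ℤ) * η) else 0)
      = sech (N * η) * ((if Odd k then
          (Real.cosh (k * η) / Real.sinh (k * η) - (k.sign : ℝ)) else 0)
        + (if Odd k then (Real.tanh ((N - k : ℤ) * η) - ((N - k).sign : ℝ)) else 0)
        + (if Odd k then ((k.sign : ℝ) + ((N - k).sign : ℝ)) else 0)) := by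
    intro k
    split_ifs with h
    · have hk0 : (k : ℝ) ≠ 0 := by
        intro h0
        have : k = 0 := by exact_mod_cast h0
        subst this
        simp at h
      have hs : Real.sinh (k * η) ≠ 0 := Real.sinh_ne_zero.2 (mul_ne_zero hk0 hη.ne')
      have hc : Real.cosh ((N - k : ℤ) * η) ≠ 0 := (Real.cosh_pos _).ne'
      have hcN : Real.cosh (N * η) ≠ 0 := (Real.cosh_pos _).ne'
      have h1 : Real.cosh (N * η) = Real.cosh (k * η) * Real.cosh ((N - k : ℤ) * η)
          + Real.sinh (k * η) * Real.sinh ((N - k : ℤ) * η) := by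
        rw [← Real.cosh_add]
        congr 1
        push_cast
        ring
      unfold sech
      rw [Real.tanh_eq_sinh_div_cosh]
      generalize Real.cosh (N * η) = CN at *
      generalize Real.cosh ((N - k : ℤ) * η) = CM at *
      generalize Real.sinh ((N - k : ℤ) * η) = SM at *
      generalize Real.cosh (k * η) = CK at *
      generalize Real.sinh (k * η) = SK at *
      field_simp
      rw [h1]
      ring
    · simp
  simp only [e]
  rw [tsum_mul_left, ((summable_coth hη).add (summable_tanh_shift hη N)).tsum_add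
    (hasSum_sign N).summable, (summable_coth hη).tsum_add (summable_tanh_shift hη N),
    sum_coth_zero, sum_tanh_zero, (hasSum_sign N).tsum_eq]
  ring

/-- `∑_{k odd} sech(kη) sech((N-k)η) = N csch(Nη)`, `N ≠ 0` -/
theorem sum_OS {η : ℝ} (hη : 0 < η) {N : ℤ} (hN : N ≠ 0) :
    ∑' k : ℤ, (if Odd k then sech (k * η) * sech ((N - k : ℤ) * η) else 0)
      = N * (Real.sinh (N * η))⁻¹ := by
  have hN0 : (N : ℝ) ≠ 0 := by exact_mod_cast hN
  have hsN : Real.sinh (N * η) ≠ 0 := Real.sinh_ne_zero.2 (mul_ne_zero hN0 hη.ne')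
  have e : ∀ k : ℤ, (if Odd k then sech (k * η) * sech ((N - k : ℤ) * η) else 0)
      = (Real.sinh (N * η))⁻¹ * ((if Odd k then
          (Real.tanh (k * η) - (k.sign : ℝ)) else 0)
        + (if Odd k then (Real.tanh ((N - k : ℤ) * η) - ((N - k).sign : ℝ)) else 0)
        + (if Odd k then ((k.sign : ℝ) + ((N - k).sign : ℝ)) else 0)) := by
    intro k
    split_ifs with h
    · have hc : Real.cosh ((N - k : ℤ) * η) ≠ 0 := (Real.cosh_pos _).ne'
      have hck : Real.cosh (k * η) ≠ 0 := (Real.cosh_pos _).ne'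
      have h1 : Real.sinh (N * η) = Real.sinh (k * η) * Real.cosh ((N - k : ℤ) * η)
          + Real.cosh (k * η) * Real.sinh ((N - k : ℤ) * η) := by
        rw [← Real.sinh_add]
        congr 1
        push_cast
        ring
      unfold sech
      rw [Real.tanh_eq_sinh_div_cosh, Real.tanh_eq_sinh_div_cosh]
      generalize Real.sinh (N * η) = SN at *
      generalize Real.cosh ((N - k : ℤ) * η) = CM at *
      generalize Real.sinh ((N - k : ℤ) * η) = SM at *
      generalize Real.cosh (k * η) = CK at *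
      generalize Real.sinh (k * η) = SK at *
      field_simp
      rw [h1]
      ring
    · simp
  have s1 : Summable (fun k : ℤ => if Odd k then (Real.tanh (k * η) - (k.sign : ℝ)) else 0) :=
    summable_ite (summable_tanh hη) _
  have z1 : ∑' k : ℤ, (if Odd k then (Real.tanh (k * η) - (k.sign : ℝ)) else 0) = 0 := by
    apply tsum_odd_zero
    intro k
    simp only [odd_neg]
    rw [show ((-k : ℤ) : ℝ) * η = -(k * η) by push_cast; ring, Real.tanh_neg, Int.sign_neg]
    push_cast
    split_ifs <;> ring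
  simp only [e]
  rw [tsum_mul_left, (s1.add (summable_tanh_shift hη N)).tsum_add
    (hasSum_sign N).summable, s1.tsum_add (summable_tanh_shift hη N),
    z1, sum_tanh_zero, (hasSum_sign N).tsum_eq]
  ring

end Jac

open Jac

/-! ## the coefficients of the three products -/

theorem cvl_CO {η : ℝ} (hη : 0 < η) (N : ℤ) : cvl (cC η) (cO η) N = N * cA η N := by
  unfold cvl
  by_cases hN : Odd N
  · have e : ∀ k : ℤ, cC η k * cO η (N - k)
        = 1 / 2 * (if Odd k then (Real.sinh (k * η))⁻¹ * sech ((N - k : ℤ) * η) else 0) := by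
      intro k
      unfold cC cO
      have h1 : Even (N - k) ↔ Odd k := by
        rw [Int.even_sub, ← Int.not_even_iff_odd] at *
        tauto
      simp only [h1]
      split_ifs <;> ring
    simp only [e]
    rw [tsum_mul_left, sum_CS hη N]
    unfold cA
    rw [if_pos hN]
    ring
  · have e : ∀ k : ℤ, cC η k * cO η (N - k) = 0 := by
      intro k
      unfold cC cO
      by_cases hk : Odd k
      · have : ¬ Even (N - k) := by
          rw [Int.even_sub, ← Int.not_even_iff_odd] at *
          tauto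
        rw [if_neg this, mul_zero]
      · rw [if_neg hk, zero_mul]
    simp only [e, tsum_zero]
    unfold cA
    rw [if_neg hN, mul_zero]

theorem cvl_AO {η : ℝ} (hη : 0 < η) (N : ℤ) : cvl (cA η) (cO η) N = N * cC η N := by
  unfold cvl
  by_cases hN : Odd N
  · have hN0 : N ≠ 0 := by
      rintro rfl
      simp at hN
    have e : ∀ k : ℤ, cA η k * cO η (N - k)
        = 1 / 2 * (if Odd k then sech (k * η) * sech ((N - k : ℤ) * η) else 0) := by
      intro k
      unfold cA cO
      have h1 : Even (N - k) ↔ Odd k := by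
        rw [Int.even_sub, ← Int.not_even_iff_odd] at *
        tauto
      simp only [h1]
      split_ifs <;> ring
    simp only [e]
    rw [tsum_mul_left, sum_OS hη hN0]
    unfold cC
    rw [if_pos hN]
    ring
  · have e : ∀ k : ℤ, cA η k * cO η (N - k) = 0 := by
      intro k
      unfold cA cO
      by_cases hk : Odd k
      · have : ¬ Even (N - k) := by
          rw [Int.even_sub, ← Int.not_even_iff_odd] at *
          tauto
        rw [if_neg this, mul_zero]
      · rw [if_neg hk, zero_mul]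
    simp only [e, tsum_zero]
    unfold cC
    rw [if_neg hN, mul_zero]

theorem cvl_CA {η : ℝ} (hη : 0 < η) (N : ℤ) : 4 * cvl (cC η) (cA η) N = N * cO η N := by
  unfold cvl
  by_cases hN : Odd N
  · have e : ∀ k : ℤ, cC η k * cA η (N - k) = 0 := by
      intro k
      unfold cC cA
      by_cases hk : Odd k
      · have : ¬ Odd (N - k) := by
          rw [Int.odd_sub]
          rw [← Int.not_even_iff_odd] at hk
          tauto
        rw [if_neg this, mul_zero]
      · rw [if_neg hk, zero_mul]
    simp only [e, tsum_zero]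
    unfold cO
    rw [if_neg (Int.not_even_iff_odd.2 hN)]
    ring
  · have hE : Even N := Int.not_odd_iff_even.1 hN
    have e : ∀ k : ℤ, cC η k * cA η (N - k)
        = 1 / 4 * (if Odd k then (Real.sinh (k * η))⁻¹ * sech ((N - k : ℤ) * η) else 0) := by
      intro k
      unfold cC cA
      simp only [odd_sub_iff hE]
      split_ifs <;> ring
    simp only [e]
    rw [tsum_mul_left, sum_CS hη N]
    unfold cO
    rw [if_pos hE]
    ring

/-! ## the Jacobi system -/

theorem AA_hasDerivAt {η : ℝ} (hη : 0 < η) {u : ℂ} (hu : |u.re| < η) :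
    HasDerivAt (S (cA η)) (S (cC η) u * S (cO η) u) u := by
  have h := (dec_cA hη).hasDerivAt hu
  rw [S_mul (dec_cC hη) (dec_cO hη) hu]
  convert h using 2
  funext k
  exact cvl_CO hη k

theorem CC_hasDerivAt {η : ℝ} (hη : 0 < η) {u : ℂ} (hu : |u.re| < η) :
    HasDerivAt (S (cC η)) (S (cA η) u * S (cO η) u) u := by
  have h := (dec_cC hη).hasDerivAt hu
  rw [S_mul (dec_cA hη) (dec_cO hη) hu]
  convert h using 2
  funext k
  exact cvl_AO hη k

theorem OO_hasDerivAt {η : ℝ} (hη : 0 < η) {u : ℂ} (hu : |u.re| < η) :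
    HasDerivAt (S (cO η)) (4 * (S (cA η) u * S (cC η) u)) u := by
  have h := (dec_cO hη).hasDerivAt hu
  rw [mul_comm (S (cA η) u), S_mul (dec_cC hη) (dec_cA hη) hu]
  have e : (4 : ℂ) * S (cvl (cC η) (cA η)) u = S (fun k => (k : ℝ) * cO η k) u := by
    have h4 : (4 : ℂ) = ((4 : ℝ) : ℂ) := by norm_num
    rw [h4, ← S_smul]
    congr 1
    funext k
    exact cvl_CA hη k
  rw [e]
  exact h

/-! ## first integrals -/

theorem Jac.strip_isOpen (η : ℝ) : IsOpen {w : ℂ | |w.re| < η} :=
  isOpen_lt (continuous_abs.comp Complex.continuous_re) continuous_const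

theorem Jac.strip_preconnected (η : ℝ) : IsPreconnected {w : ℂ | |w.re| < η} := by
  have : {w : ℂ | |w.re| < η} = Complex.reLm ⁻¹' (Set.Ioo (-η) η) := by
    ext w
    simp [abs_lt]
  rw [this]
  exact ((convex_Ioo (-η) η).linear_preimage Complex.reLm).isPreconnected

/-- functions with derivative zero on the strip are constant -/
theorem Jac.strip_const {η : ℝ} {f : ℂ → ℂ} (h : ∀ w : ℂ, |w.re| < η → HasDerivAt f 0 w)
    {u v : ℂ} (hu : |u.re| < η) (hv : |v.re| < η) : f u = f v := by
  refine (strip_isOpen η).is_const_of_deriv_eq_zero (strip_preconnected η)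
    (fun w hw => (h w hw).differentiableAt.differentiableWithinAt) (fun w hw => ?_) hu hv
  exact (h w hw).deriv

/-- `AA² - CC² = AA(0)²` -/
theorem jac_AC {η : ℝ} (hη : 0 < η) {u : ℂ} (hu : |u.re| < η) :
    S (cA η) u ^ 2 - S (cC η) u ^ 2 = S (cA η) 0 ^ 2 := by
  have h := strip_const (η := η) (f := fun w => S (cA η) w ^ 2 - S (cC η) w ^ 2)
    (fun w hw => by
      have h1 := (AA_hasDerivAt hη hw).pow 2
      have h2 := (CC_hasDerivAt hη hw).pow 2
      refine (h1.sub h2).congr_deriv ?_
      push_cast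
      ring) hu (v := 0) (by simpa using hη)
  simp only [cC_zero] at h
  rw [h]
  ring

/-- `OO² - 4 AA² = OO(iπ/2)²` -/
theorem jac_OA {η : ℝ} (hη : 0 < η) {u : ℂ} (hu : |u.re| < η) :
    S (cO η) u ^ 2 - 4 * S (cA η) u ^ 2 = S (cO η) (I * (Real.pi / 2)) ^ 2 := by
  have h := strip_const (η := η) (f := fun w => S (cO η) w ^ 2 - 4 * S (cA η) w ^ 2)
    (fun w hw => by
      have h1 := (OO_hasDerivAt hη hw).pow 2
      have h2 := ((AA_hasDerivAt hη hw).pow 2).const_mul 4
      refine (h1.sub h2).congr_deriv ?_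
      push_cast
      ring) hu (v := I * (Real.pi / 2)) (by simpa using hη)
  simp only [AA_pi] at h
  rw [h]
  ring

/-! ## the outer boundary of the strip: `W = AA + CC` -/

/-- `W' = OO W` for `W = AA + CC` -/
theorem W_hasDerivAt {η : ℝ} (hη : 0 < η) {u : ℂ} (hu : |u.re| < η) :
    HasDerivAt (fun w => S (cA η) w + S (cC η) w) (S (cO η) u * (S (cA η) u + S (cC η) u)) u := by
  have h := (AA_hasDerivAt hη hu).add (CC_hasDerivAt hη hu)
  have e : S (cO η) u * (S (cA η) u + S (cC η) u)
      = S (cC η) u * S (cO η) u + S (cA η) u * S (cO η) u := by ring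
  rw [e]
  exact h

/-- `(AA + CC)(u) (AA - CC)(u) = AA(0)²`, so `W` has no zero -/
theorem W_mul {η : ℝ} (hη : 0 < η) {u : ℂ} (hu : |u.re| < η) :
    (S (cA η) u + S (cC η) u) * (S (cA η) u - S (cC η) u) = S (cA η) 0 ^ 2 := by
  rw [← jac_AC hη hu]
  ring

theorem W_neg {η : ℝ} (u : ℂ) :
    S (cA η) (-u) + S (cC η) (-u) = S (cA η) u - S (cC η) u := by
  rw [S_neg (cA_neg η), S_neg_odd (cC_neg η)]
  ring

/-- `|W(it)| = AA(0)` -/
theorem W_norm {η : ℝ} (hη : 0 < η) (t : ℝ) :
    ‖S (cA η) (I * t) + S (cC η) (I * t)‖ = ‖S (cA η) 0‖ := by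
  have h1 := W_mul hη (u := I * t) (by simpa using hη)
  have h2 : S (cA η) (I * t) - S (cC η) (I * t)
      = starRingEnd ℂ (S (cA η) (I * t) + S (cC η) (I * t)) := by
    rw [map_add, ← S_conj, ← S_conj, ← W_neg]
    congr 2 <;> simp
  rw [h2] at h1
  have h3 := congrArg norm h1
  rw [norm_mul, Complex.norm_conj, norm_pow, ← sq] at h3
  exact (sq_eq_sq₀ (norm_nonneg _) (norm_nonneg _)).1 h3

/-- `csch(2x) e^x = (sech x + csch x)/2`: the values of `ZZ` at `η + u`; `cz` is any family of
coefficients with `cz k = csch (2kη)` for odd `k`, `cz k = 0` for even `k`. -/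
theorem Z_add_of {η : ℝ} (hη : 0 < η) {cz : ℤ → ℝ}
    (h1 : ∀ k : ℤ, Odd k → cz k = (Real.sinh (2 * (k * η)))⁻¹) (h0 : ∀ k : ℤ, ¬ Odd k → cz k = 0)
    {u : ℂ} (hu : |u.re| < η) :
    S cz (η + u) = S (cA η) u + S (cC η) u := by
  rw [← S_add (dec_cA hη) (dec_cC hη) hu]
  unfold S
  congr 1
  funext k
  by_cases hk : Odd k
  · have hk0 : (k : ℝ) ≠ 0 := by
      intro h
      have : k = 0 := by exact_mod_cast h
      subst this
      simp at hk
    have hs : Real.sinh (k * η) ≠ 0 := Real.sinh_ne_zero.2 (mul_ne_zero hk0 hη.ne')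
    have hc : Real.cosh (k * η) ≠ 0 := (Real.cosh_pos _).ne'
    have e1 : (Real.sinh (2 * (k * η)))⁻¹ * Real.exp (k * η)
        = sech (k * η) / 2 + (Real.sinh (k * η))⁻¹ / 2 := by
      rw [Real.sinh_two_mul, ← Real.cosh_add_sinh]
      unfold sech
      field_simp
      ring
    rw [h1 k hk]
    unfold cA cC
    simp only [if_pos hk]
    rw [← e1, mul_add, Complex.exp_add]
    push_cast
    ring
  · rw [h0 k hk]
    unfold cA cC
    simp only [if_neg hk]
    simp

end Pool.Agent.Lib.MP_0430e4_lc.LPLOW
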