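import Pool.Agent.Lib.MP_0430e4_lc.LPLOW.Core

/-!
# The robust form of the finite part
-/

set_option autoImplicit false

namespace Pool.Agent.Lib.MP_0430e4_lc.LPLOW

open Finset Filter Topology
open Tensor (chi)
open Impr (wt lpBound)

namespace Rob

/-- the estimate with an additive error -/
theorem low_bound {R δ C ε : ℝ} (hC : 0 < C)
    (hb : ∀ (n : ℕ) (b : ℕ → ℝ), (∀ k, Odd k → b k = 0) →
    (∀ z : ℂ, ‖z‖ ≤ 1 → ‖Fp n b z‖ ≤ Real.exp (n * R) * Nb n b) →
    ∀ k ≤ n, (k : ℝ) ≤ δ * n → |b k| ≤ C * Nb n b * Real.exp (-(n * ε)))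
    {n : ℕ} {b : ℕ → ℝ} {M θ : ℝ} (hodd : ∀ k, Odd k → b k = 0)
    (hF : ∀ z : ℂ, ‖z‖ ≤ 1 → ‖Fp n b z‖ ≤ M) (hM : M ≤ Real.exp (n * R) * θ) (hθ : 0 ≤ θ)
    {k : ℕ} (hk : k ≤ n) (hkδ : (k : ℝ) ≤ δ * n) :
    |b k| ≤ C * Nb n b * Real.exp (-(n * ε)) + θ := by
  have h0 : 0 ≤ C * Nb n b * Real.exp (-(n * ε)) :=
    mul_nonneg (mul_nonneg hC.le (Nb_nonneg _ _)) (Real.exp_pos _).le
  rcases le_total θ (Nb n b) with h | h
  · have h1 := hb n b hodd (fun z hz => (hF z hz).trans (hM.trans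
      (mul_le_mul_of_nonneg_left h (Real.exp_pos _).le))) k hk hkδ
    linarith
  · have h1 : |b k| ≤ Nb n b :=
      Finset.single_le_sum (f := fun k => |b k|) (fun _ _ => abs_nonneg _)
        (Finset.mem_range.2 (by omega))
    linarith

variable {n : ℕ}

theorem norm_Pz_le (g : (Fin n → Bool) → ℝ) {z : ℂ} (hz : ‖z‖ ≤ 1) :
    ‖Lower.Pz g z‖ ≤ ∑ y, |g y| := by
  unfold Lower.Pz
  refine le_trans (norm_sum_le _ _) ?_
  apply Finset.sum_le_sum
  intro y _
  rw [norm_mul, Complex.norm_real, Real.norm_eq_abs, norm_prod]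
  have : ∏ i, ‖(if y i = true then z else 1)‖ ≤ 1 := by
    apply Finset.prod_le_one
    · intro i _
      exact norm_nonneg _
    · intro i _
      split_ifs
      · exact hz
      · simp
  exact mul_le_of_le_one_right (abs_nonneg _) this

/-- transform of the complement -/
theorem sum_cmpl_chi (g : (Fin n → Bool) → ℝ) (x : Fin n → Bool) :
    ∑ y, g (fun i => !(y i)) * chi x y = (-1) ^ wt x * ∑ y, g y * chi x y := by
  rw [← sum_cmpl (fun y => g (fun i => !(y i)) * chi x y), Finset.mul_sum]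
  apply Finset.sum_congr rfl
  intro y _
  rw [cmpl_cmpl, chi_not]
  ring

theorem bk_cmpl (g : (Fin n → Bool) → ℝ) (k : ℕ) :
    bk (fun y => g (fun i => !(y i))) k = (-1) ^ k * bk g k := by
  unfold bk
  rw [mul_left_comm]
  congr 1
  rw [Finset.mul_sum]
  apply Finset.sum_congr rfl
  intro x _
  split_ifs with hx
  · rw [sum_cmpl_chi, hx]
  · simp

theorem bk_lin (g h : (Fin n → Bool) → ℝ) (a : ℝ) (k : ℕ) :
    bk (fun y => (g y + a * h y) / 2) k = (bk g k + a * bk h k) / 2 := by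
  unfold bk
  have h1 : ∀ x : Fin n → Bool, (if wt x = k then ∑ y, (g y + a * h y) / 2 * chi x y else 0)
      = ((if wt x = k then ∑ y, g y * chi x y else 0)
        + a * (if wt x = k then ∑ y, h y * chi x y else 0)) / 2 := by
    intro x
    split_ifs
    · rw [Finset.mul_sum, ← Finset.sum_add_distrib, Finset.sum_div]
      apply Finset.sum_congr rfl
      intro y _
      ring
    · simp
  simp only [h1]
  rw [← Finset.sum_div, Finset.sum_add_distrib, ← Finset.mul_sum]
  ring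

/-- the symmetrised function -/
noncomputable def sy (g : (Fin n → Bool) → ℝ) (a : ℝ) (y : Fin n → Bool) : ℝ :=
  (g y + a * g (fun i => !(y i))) / 2

theorem sum_abs_sy (g : (Fin n → Bool) → ℝ) {a : ℝ} (ha : |a| = 1) :
    ∑ y, |sy g a y| ≤ ∑ y, |g y| := by
  have h1 : ∀ y ∈ (univ : Finset (Fin n → Bool)), |sy g a y| ≤ (|g y| + |g (fun i => !(y i))|) / 2 := by
    intro y _
    unfold sy
    rw [abs_div, abs_two]
    have h2 := abs_add_le (g y) (a * g (fun i => !(y i)))
    rw [abs_mul, ha, one_mul] at h2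
    linarith
  refine (Finset.sum_le_sum h1).trans ?_
  rw [← Finset.sum_div, Finset.sum_add_distrib, sum_cmpl (fun y => |g y|)]
  linarith

theorem bk_sy (g : (Fin n → Bool) → ℝ) (a : ℝ) (k : ℕ) :
    bk (sy g a) k = (1 + a * (-1) ^ k) / 2 * bk g k := by
  have h1 := bk_lin g (fun y => g (fun i => !(y i))) a k
  rw [bk_cmpl] at h1
  have h2 : sy g a = fun y => (g y + a * g (fun i => !(y i))) / 2 := rfl
  rw [h2, h1]
  ring

/-- division by `1 - z` -/
theorem Fp_succ {m : ℕ} {b : ℕ → ℝ} (h0 : b 0 = 0) (z : ℂ) :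
    Fp (m + 1) b z = (1 - z) * Fp m (fun k => b (k + 1)) z := by
  unfold Fp
  rw [Finset.sum_range_succ', h0, Finset.mul_sum]
  simp only [Complex.ofReal_zero, zero_mul, add_zero]
  apply Finset.sum_congr rfl
  intro k hk
  have : m + 1 - (k + 1) = m - k := by omega
  rw [this]
  ring

theorem norm_pow_sub_one_le {z : ℂ} (hz : ‖z‖ ≤ 1) (j : ℕ) : ‖z ^ j - 1‖ ≤ j * ‖1 - z‖ := by
  induction j with
  | zero => simp
  | succ j ih =>
    have h1 : z ^ (j + 1) - 1 = z * (z ^ j - 1) - (1 - z) := by ring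
    rw [h1]
    refine (norm_sub_le _ _).trans ?_
    rw [norm_mul]
    have h2 : ‖z‖ * ‖z ^ j - 1‖ ≤ 1 * (j * ‖1 - z‖) :=
      mul_le_mul hz ih (norm_nonneg _) zero_le_one
    push_cast
    linarith

theorem norm_Pz_le' (g : (Fin n → Bool) → ℝ) (h0 : ∑ y, g y = 0) {z : ℂ} (hz : ‖z‖ ≤ 1) :
    ‖Lower.Pz g z‖ ≤ n * (∑ y, |g y|) * ‖1 - z‖ := by
  have h1 : Lower.Pz g z = ∑ y, (g y : ℂ) * (z ^ wt y - 1) := by
    unfold Lower.Pz
    have h2 : ∑ y, (g y : ℂ) = 0 := by exact_mod_cast h0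
    simp only [prod_wt (n := n), one_pow, mul_one, mul_sub]
    rw [Finset.sum_sub_distrib, h2, sub_zero]
  rw [h1]
  refine le_trans (norm_sum_le _ _) ?_
  rw [mul_assoc, mul_comm (∑ y, |g y|), ← mul_assoc, Finset.mul_sum]
  apply Finset.sum_le_sum
  intro y _
  rw [norm_mul, Complex.norm_real, Real.norm_eq_abs, mul_comm]
  apply mul_le_mul_of_nonneg_right _ (abs_nonneg _)
  refine (norm_pow_sub_one_le hz _).trans ?_
  apply mul_le_mul_of_nonneg_right _ (norm_nonneg _)
  exact_mod_cast wt_le y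

theorem Fp_continuous (m : ℕ) (b : ℕ → ℝ) : Continuous (Fp m b) := by
  unfold Fp
  fun_prop

/-- bound for the divided polynomial -/
theorem norm_Fp_div {m : ℕ} {b : ℕ → ℝ} (h0 : b 0 = 0) {M : ℝ}
    (h : ∀ z : ℂ, ‖z‖ ≤ 1 → ‖Fp (m + 1) b z‖ ≤ M * ‖1 - z‖) {z : ℂ} (hz : ‖z‖ ≤ 1) :
    ‖Fp m (fun k => b (k + 1)) z‖ ≤ M := by
  have key : ∀ z : ℂ, ‖z‖ ≤ 1 → z ≠ 1 → ‖Fp m (fun k => b (k + 1)) z‖ ≤ M := by
    intro z hz hz1
    have h1 := h z hz
    rw [Fp_succ h0, norm_mul, mul_comm] at h1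
    have h2 : 0 < ‖1 - z‖ := norm_pos_iff.2 (sub_ne_zero.2 (Ne.symm hz1))
    exact le_of_mul_le_mul_right h1 h2
  by_cases hz1 : z = 1
  · subst hz1
    have h1 : Tendsto (fun t : ℝ => ‖Fp m (fun k => b (k + 1)) (t : ℂ)‖) (𝓝[<] 1)
        (𝓝 ‖Fp m (fun k => b (k + 1)) ((1 : ℝ) : ℂ)‖) := by
      apply Tendsto.mono_left _ nhdsWithin_le_nhds
      have h3 : Continuous (fun t : ℝ => ‖Fp m (fun k => b (k + 1)) (t : ℂ)‖) :=
        ((Fp_continuous m _).comp Complex.continuous_ofReal).norm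
      exact h3.tendsto 1
    rw [Complex.ofReal_one] at h1
    apply le_of_tendsto h1
    have h4 : Set.Ioo (0 : ℝ) 1 ∈ 𝓝[<] (1 : ℝ) := Ioo_mem_nhdsLT one_pos
    filter_upwards [h4] with t ht
    apply key
    · rw [Complex.norm_real, Real.norm_eq_abs, abs_of_pos ht.1]
      exact ht.2.le
    · intro hc
      have : t = 1 := by exact_mod_cast hc
      linarith [ht.2]
  · exact key z hz hz1


theorem sum_sy_neg (g : (Fin n → Bool) → ℝ) : ∑ y, sy g (-1) y = 0 := by
  unfold sy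
  rw [← Finset.sum_div, Finset.sum_add_distrib, ← Finset.mul_sum, sum_cmpl g]
  ring

theorem Nb_mono {b b' : ℕ → ℝ} (h : ∀ k, |b k| ≤ |b' k|) : Nb n b ≤ Nb n b' :=
  Finset.sum_le_sum fun k _ => h k

theorem Nb_shift {m : ℕ} (b : ℕ → ℝ) : Nb m (fun k => b (k + 1)) ≤ Nb (m + 1) b := by
  unfold Nb
  rw [Finset.sum_range_succ' (fun k => |b k|) (m + 1)]
  have := abs_nonneg (b 0)
  linarith

theorem abs_bk_sy_le (g : (Fin n → Bool) → ℝ) {a : ℝ} (ha : |a| = 1) (k : ℕ) :
    |bk (sy g a) k| ≤ |bk g k| := by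
  rw [bk_sy, abs_mul]
  apply mul_le_of_le_one_left (abs_nonneg _)
  rw [abs_div, abs_two]
  have h1 : |1 + a * (-1) ^ k| ≤ 2 := by
    refine (abs_add_le _ _).trans ?_
    rw [abs_mul, ha, abs_pow, abs_neg, abs_one, one_pow]
    norm_num
  linarith

/-- the coefficient estimate without parity -/
theorem coef_all {R R' δ : ℝ} (hδ1 : δ ≤ 1) (hR : R' < R) (h : CoefBound R δ) :
    ∃ C ε : ℝ, 0 < C ∧ 0 < ε ∧ ∀ᶠ n : ℕ in atTop, ∀ g : (Fin n → Bool) → ℝ,
      ∑ y, |g y| ≤ Real.exp (n * R') → ∀ k ≤ n, (k : ℝ) < δ * n →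
        |bk g k| ≤ C * (Nb n (bk g) + 1) * Real.exp (-(n * ε)) := by
  obtain ⟨C, ε, hC, hε, hb⟩ := h
  set τ : ℝ := (R - R') / 2 with hτ
  have hτ0 : 0 < τ := by linarith
  have hlim : Tendsto (fun n : ℕ => Real.exp R * ((n : ℝ) * Real.exp (-(n * τ)))) atTop (𝓝 0) := by
    have h2 := Real.tendsto_pow_mul_exp_neg_atTop_nhds_zero 1
    have h3 : Tendsto (fun n : ℕ => τ * (n : ℝ)) atTop atTop :=
      tendsto_natCast_atTop_atTop.const_mul_atTop hτ0
    have h4 := (h2.comp h3).const_mul (Real.exp R * τ⁻¹)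
    rw [mul_zero] at h4
    refine h4.congr fun n => ?_
    simp only [Function.comp_apply, pow_one]
    rw [mul_comm τ (n : ℝ)]
    field_simp
  have hev := hlim.eventually (gt_mem_nhds one_pos)
  refine ⟨C * Real.exp ε + 1, min ε τ, by positivity, lt_min hε hτ0, ?_⟩
  filter_upwards [hev, eventually_ge_atTop 1] with n hn hn1 g hg k hk hkδ
  have hn0 : (0 : ℝ) ≤ n := Nat.cast_nonneg n
  have hexp1 : Real.exp (-(n * ε)) ≤ Real.exp (-(n * min ε τ)) := by
    apply Real.exp_le_exp.2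
    have := mul_le_mul_of_nonneg_left (min_le_left ε τ) hn0
    linarith
  have hexp2 : Real.exp (-(n * τ)) ≤ Real.exp (-(n * min ε τ)) := by
    apply Real.exp_le_exp.2
    have := mul_le_mul_of_nonneg_left (min_le_right ε τ) hn0
    linarith
  set E : ℝ := Real.exp (-(n * min ε τ)) with hE
  have hE0 : 0 < E := Real.exp_pos _
  set N : ℝ := Nb n (bk g) with hN
  have hN0 : 0 ≤ N := Nb_nonneg _ _
  have he1 : 1 ≤ Real.exp ε := Real.one_le_exp hε.le
  rcases Nat.even_or_odd k with hke | hko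
  · -- even
    have hodd : ∀ j, Odd j → bk (sy g 1) j = 0 := by
      intro j hj
      rw [bk_sy, hj.neg_one_pow]
      ring
    have hval : bk (sy g 1) k = bk g k := by
      rw [bk_sy, hke.neg_one_pow]
      ring
    have hF : ∀ z : ℂ, ‖z‖ ≤ 1 → ‖Fp n (bk (sy g 1)) z‖ ≤ Real.exp (n * R') := by
      intro z hz
      rw [Fp_bk]
      exact (norm_Pz_le _ hz).trans ((sum_abs_sy g (by simp)).trans hg)
    have hM : Real.exp (n * R') ≤ Real.exp (n * R) * Real.exp (-(n * τ)) := by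
      rw [← Real.exp_add]
      apply Real.exp_le_exp.2
      have h1 : (n : ℝ) * τ ≤ n * (2 * τ) := mul_le_mul_of_nonneg_left (by linarith) hn0
      have h2 : 2 * τ = R - R' := by rw [hτ]; ring
      rw [h2] at h1
      linarith
    have h1 := low_bound hC hb hodd hF hM (Real.exp_pos _).le hk hkδ.le
    rw [hval] at h1
    have h2 : Nb n (bk (sy g 1)) ≤ N := Nb_mono (abs_bk_sy_le g (by simp))
    calc |bk g k| ≤ C * Nb n (bk (sy g 1)) * Real.exp (-(n * ε)) + Real.exp (-(n * τ)) := h1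
      _ ≤ C * N * E + E := by
          apply add_le_add _ hexp2
          exact mul_le_mul (mul_le_mul_of_nonneg_left h2 hC.le) hexp1 (Real.exp_pos _).le
            (by positivity)
      _ ≤ (C * Real.exp ε + 1) * (N + 1) * E := by
          have h3 : C * N ≤ C * Real.exp ε * N := by
            have := mul_le_mul_of_nonneg_left he1 (mul_nonneg hC.le hN0)
            linarith
          have h4 : 0 ≤ C * Real.exp ε := by positivity
          nlinarith [mul_le_mul_of_nonneg_right h3 hE0.le, mul_nonneg h4 hE0.le,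
            mul_nonneg hN0 hE0.le]
  · -- odd
    obtain ⟨m, rfl⟩ : ∃ m, n = m + 1 := ⟨n - 1, by omega⟩
    obtain ⟨i, hi⟩ := hko
    have hk1 : k = 2 * i + 1 := hi
    set b : ℕ → ℝ := bk (sy g (-1)) with hbdef
    have hb0 : b 0 = 0 := by
      rw [hbdef, bk_sy]
      norm_num
    have hodd : ∀ j, Odd j → (fun k => b (k + 1)) j = 0 := by
      intro j hj
      have : Even (j + 1) := hj.add_one
      simp only [hbdef]
      rw [bk_sy, this.neg_one_pow]
      norm_num
    have hval : (fun k => b (k + 1)) (2 * i) = bk g k := by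
      simp only [hbdef]
      rw [bk_sy, hk1, pow_succ, pow_mul]
      norm_num
    have hF : ∀ z : ℂ, ‖z‖ ≤ 1 → ‖Fp m (fun k => b (k + 1)) z‖
        ≤ ((m + 1 : ℕ) : ℝ) * Real.exp ((m + 1 : ℕ) * R') := by
      intro z hz
      apply norm_Fp_div hb0 _ hz
      intro z hz
      rw [hbdef, Fp_bk]
      refine (norm_Pz_le' _ (sum_sy_neg g) hz).trans ?_
      apply mul_le_mul_of_nonneg_right _ (norm_nonneg _)
      apply mul_le_mul_of_nonneg_left _ (Nat.cast_nonneg _)
      exact (sum_abs_sy g (by simp)).trans hg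
    have hM : ((m + 1 : ℕ) : ℝ) * Real.exp ((m + 1 : ℕ) * R')
        ≤ Real.exp (m * R) * Real.exp (-((m + 1 : ℕ) * τ)) := by
      have h5 : Real.exp ((m : ℝ) * R) * Real.exp (-((m + 1 : ℕ) * τ))
          = Real.exp (-R) * Real.exp ((m + 1 : ℕ) * R') * Real.exp ((m + 1 : ℕ) * τ) := by
        rw [← Real.exp_add, ← Real.exp_add, ← Real.exp_add]
        congr 1
        rw [hτ]
        push_cast
        ring
      rw [h5]
      have h6 : Real.exp R * (((m + 1 : ℕ) : ℝ) * Real.exp (-((m + 1 : ℕ) * τ))) ≤ 1 := hn.le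
      have h7 : ((m + 1 : ℕ) : ℝ) ≤ Real.exp (-R) * Real.exp ((m + 1 : ℕ) * τ) := by
        rw [Real.exp_neg, Real.exp_neg] at *
        rw [← div_eq_inv_mul, le_div_iff₀ (Real.exp_pos _)]
        have h8 := Real.exp_pos (((m + 1 : ℕ) : ℝ) * τ)
        rw [← mul_assoc, ← div_eq_mul_inv, div_le_one h8] at h6
        linarith
      calc ((m + 1 : ℕ) : ℝ) * Real.exp ((m + 1 : ℕ) * R')
          ≤ (Real.exp (-R) * Real.exp ((m + 1 : ℕ) * τ)) * Real.exp ((m + 1 : ℕ) * R') :=
            mul_le_mul_of_nonneg_right h7 (Real.exp_pos _).le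
        _ = _ := by ring
    have hkm : 2 * i ≤ m := by omega
    have hkδ' : ((2 * i : ℕ) : ℝ) ≤ δ * m := by
      rw [hk1] at hkδ
      push_cast at hkδ ⊢
      linarith
    have h1 := low_bound hC hb hodd hF hM (Real.exp_pos _).le hkm hkδ'
    rw [show b (2 * i + 1) = bk g k from hval] at h1
    have h2 : Nb m (fun k => b (k + 1)) ≤ N :=
      (Nb_shift b).trans (Nb_mono (abs_bk_sy_le g (by simp)))
    have hexp3 : Real.exp (-(m * ε)) = Real.exp ε * Real.exp (-((m + 1 : ℕ) * ε)) := by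
      rw [← Real.exp_add]
      congr 1
      push_cast
      ring
    calc |bk g k| ≤ C * Nb m (fun k => b (k + 1)) * Real.exp (-(m * ε))
          + Real.exp (-((m + 1 : ℕ) * τ)) := h1
      _ ≤ C * N * (Real.exp ε * E) + E := by
          apply add_le_add _ hexp2
          rw [hexp3]
          exact mul_le_mul (mul_le_mul_of_nonneg_left h2 hC.le)
            (mul_le_mul_of_nonneg_left hexp1 (Real.exp_pos _).le) (by positivity)
            (by positivity)
      _ ≤ (C * Real.exp ε + 1) * (N + 1) * E := by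
          have h4 : 0 ≤ C * Real.exp ε := by positivity
          nlinarith [mul_nonneg h4 hE0.le, mul_nonneg hN0 hE0.le]


/-- level sums of the positive part of the transform -/
noncomputable def pk (g : (Fin n → Bool) → ℝ) (k : ℕ) : ℝ :=
  (2 ^ n)⁻¹ * ∑ x : Fin n → Bool, if wt x = k then max (∑ y, g y * chi x y) 0 else 0

theorem pk_nonneg (g : (Fin n → Bool) → ℝ) (k : ℕ) : 0 ≤ pk g k := by
  unfold pk
  apply mul_nonneg (by positivity)
  apply Finset.sum_nonneg
  intro x _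
  split_ifs
  · exact le_max_right _ _
  · exact le_rfl

theorem bk_le_pk (g : (Fin n → Bool) → ℝ) (k : ℕ) : bk g k ≤ pk g k := by
  unfold bk pk
  apply mul_le_mul_of_nonneg_left _ (by positivity)
  apply Finset.sum_le_sum
  intro x _
  split_ifs
  · exact le_max_left _ _
  · exact le_rfl

theorem abs_bk_le (g : (Fin n → Bool) → ℝ) (k : ℕ) : |bk g k| ≤ 2 * pk g k - bk g k := by
  have h1 := bk_le_pk g k
  have h2 := pk_nonneg g k
  rcases abs_cases (bk g k) with ⟨h, _⟩ | ⟨h, _⟩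
  · rw [h]
    linarith
  · rw [h]
    linarith

theorem sum_bk_real (g : (Fin n → Bool) → ℝ) :
    ∑ k ∈ range (n + 1), bk g k = g (fun _ => false) := by
  have h1 := sum_bk g (fun _ => 1)
  simp only [mul_one] at h1
  have h2 := Lower.sum_four g
  have h3 : ((∑ k ∈ range (n + 1), bk g k : ℝ) : ℂ)
      = ((2 ^ n)⁻¹ * ∑ x : Fin n → Bool, ∑ y, g y * chi x y : ℝ) := by
    push_cast
    push_cast at h1
    exact h1
  have h4 := Complex.ofReal_injective h3
  rw [h4, h2]
  field_simp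

/-- the mass of the positive part of the transform beyond distance `d` -/
noncomputable def pm (g : (Fin n → Bool) → ℝ) (d : ℕ) : ℝ :=
  (2 ^ n)⁻¹ * ∑ x : Fin n → Bool, if d ≤ wt x then max (∑ y, g y * chi x y) 0 else 0

theorem sum_pk (g : (Fin n → Bool) → ℝ) (d : ℕ) :
    ∑ k ∈ (range (n + 1)).filter (fun k => ¬ k < d), pk g k = pm g d := by
  unfold pk pm
  rw [← Finset.mul_sum]
  congr 1
  rw [Finset.sum_comm]
  apply Finset.sum_congr rfl
  intro x _
  by_cases hx : d ≤ wt x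
  · rw [if_pos hx, Finset.sum_eq_single (wt x)]
    · simp
    · intro k _ hk
      rw [if_neg (Ne.symm hk)]
    · intro hc
      exfalso
      apply hc
      rw [Finset.mem_filter, Finset.mem_range]
      have := wt_le x
      omega
  · rw [if_neg hx]
    apply Finset.sum_eq_zero
    intro k hk
    rw [Finset.mem_filter] at hk
    rw [if_neg]
    rintro rfl
    omega

/-- the main inequality: if the low coefficients are small then the positive mass is almost 1 -/
theorem mass_gt {g : (Fin n → Bool) → ℝ} {d : ℕ} {κ θ : ℝ} (h0 : g (fun _ => false) = 1)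
    (hκ : 0 < κ) (hκ1 : κ ≤ 1) (hθ : 0 ≤ θ)
    (hlow : ∀ k ≤ n, k < d → |bk g k| ≤ θ * (Nb n (bk g) + 1))
    (hsmall : ((n : ℝ) + 1) * θ * 4 < κ) : 1 - κ < pm g d := by
  by_contra hcon
  push Not at hcon
  set A := (range (n + 1)).filter (fun k => k < d) with hA
  set B := (range (n + 1)).filter (fun k => ¬ k < d) with hB
  have hsplit : ∀ f : ℕ → ℝ, ∑ k ∈ range (n + 1), f k = ∑ k ∈ A, f k + ∑ k ∈ B, f k := by
    intro f
    rw [hA, hB, Finset.sum_filter_add_sum_filter_not]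
  set K : ℝ := ∑ k ∈ A, |bk g k| with hK
  have hsum := sum_bk_real g
  rw [h0, hsplit] at hsum
  have hP := sum_pk g d
  have h1 : ∑ k ∈ B, bk g k ≤ pm g d := by
    rw [← hP]
    exact Finset.sum_le_sum fun k _ => bk_le_pk g k
  have h2 : ∑ k ∈ A, bk g k ≤ K := Finset.sum_le_sum fun k _ => le_abs_self _
  have hKκ : κ ≤ K := by linarith
  have h3 : ∑ k ∈ B, |bk g k| ≤ 2 * pm g d - ∑ k ∈ B, bk g k := by
    rw [← hP, Finset.mul_sum, ← Finset.sum_sub_distrib]
    exact Finset.sum_le_sum fun k _ => abs_bk_le g k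
  have hN : Nb n (bk g) = K + ∑ k ∈ B, |bk g k| := hsplit _
  have hNle : Nb n (bk g) + 1 ≤ 2 * K + 2 := by linarith
  have hNK : (Nb n (bk g) + 1) * κ ≤ 4 * K := by
    have h4 : (Nb n (bk g) + 1) * κ ≤ (2 * K + 2) * κ := mul_le_mul_of_nonneg_right hNle hκ.le
    nlinarith
  have hKle : K ≤ ((n : ℝ) + 1) * (θ * (Nb n (bk g) + 1)) := by
    have h5 : K ≤ ∑ _k ∈ A, θ * (Nb n (bk g) + 1) := by
      apply Finset.sum_le_sum
      intro k hk
      rw [hA, Finset.mem_filter, Finset.mem_range] at hk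
      exact hlow k (by omega) hk.2
    rw [Finset.sum_const, nsmul_eq_mul] at h5
    refine h5.trans ?_
    apply mul_le_mul_of_nonneg_right
    · have h6 : A.card ≤ n + 1 := by
        rw [hA]
        refine (Finset.card_filter_le _ _).trans ?_
        rw [Finset.card_range]
      exact_mod_cast h6
    · apply mul_nonneg hθ
      have := Nb_nonneg n (bk g)
      linarith
  have hK0 : 0 < K := lt_of_lt_of_le hκ hKκ
  have h7 : K * κ ≤ ((n : ℝ) + 1) * θ * 4 * K := by
    calc K * κ ≤ ((n : ℝ) + 1) * (θ * (Nb n (bk g) + 1)) * κ :=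
          mul_le_mul_of_nonneg_right hKle hκ.le
      _ = ((n : ℝ) + 1) * θ * ((Nb n (bk g) + 1) * κ) := by ring
      _ ≤ ((n : ℝ) + 1) * θ * (4 * K) := by
          apply mul_le_mul_of_nonneg_left hNK
          positivity
      _ = _ := by ring
  have h8 : ((n : ℝ) + 1) * θ * 4 * K < κ * K := mul_lt_mul_of_pos_right hsmall hK0
  linarith

end Rob

open Rob in
/-- THE ROBUST FORM: a function on the cube with `g 0 = 1` and total variation at most `e^{n R'}`
has almost all of the mass 1 as positive part of its transform beyond distance `δ n`. -/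
theorem robust_of_coef {R R' δ : ℝ} (hδ1 : δ ≤ 1) (hR : R' < R) (h : CoefBound R δ) :
    ∃ ε : ℝ, 0 < ε ∧ ∀ᶠ n : ℕ in atTop, ∀ g : (Fin n → Bool) → ℝ, g (fun _ => false) = 1 →
      ∑ y, |g y| ≤ Real.exp (n * R') →
      1 - Real.exp (-(n * ε)) < (2 ^ n)⁻¹ * ∑ x : Fin n → Bool,
        if ⌈δ * n⌉₊ ≤ wt x then max (∑ y, g y * chi x y) 0 else 0 := by
  obtain ⟨C, ε, hC, hε, hev⟩ := coef_all hδ1 hR h
  have hlim : Tendsto (fun n : ℕ => ((n : ℝ) + 1) * (C * Real.exp (-(n * ε))) * 4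
      * Real.exp (n * (ε / 2))) atTop (𝓝 0) := by
    have hε2 : 0 < ε / 2 := by linarith
    have h1 : Tendsto (fun n : ℕ => (n : ℝ) * Real.exp (-(n * (ε / 2)))) atTop (𝓝 0) := by
      have h2 := Real.tendsto_pow_mul_exp_neg_atTop_nhds_zero 1
      have h3 : Tendsto (fun n : ℕ => (ε / 2) * (n : ℝ)) atTop atTop :=
        tendsto_natCast_atTop_atTop.const_mul_atTop hε2
      have h4 := (h2.comp h3).const_mul (ε / 2)⁻¹
      rw [mul_zero] at h4
      refine h4.congr fun n => ?_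
      simp only [Function.comp_apply, pow_one]
      rw [mul_comm (ε / 2) (n : ℝ)]
      field_simp
    have h2 : Tendsto (fun n : ℕ => Real.exp (-(n * (ε / 2)))) atTop (𝓝 0) := by
      apply Real.tendsto_exp_neg_atTop_nhds_zero.comp
      exact tendsto_natCast_atTop_atTop.atTop_mul_const hε2
    have h3 := (h1.add h2).const_mul (C * 4)
    rw [add_zero, mul_zero] at h3
    refine h3.congr fun n => ?_
    have h5 : Real.exp (-(n * ε)) * Real.exp (n * (ε / 2)) = Real.exp (-(n * (ε / 2))) := by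
      rw [← Real.exp_add]
      congr 1
      ring
    calc C * 4 * ((n : ℝ) * Real.exp (-(n * (ε / 2))) + Real.exp (-(n * (ε / 2))))
        = ((n : ℝ) + 1) * C * 4 * Real.exp (-(n * (ε / 2))) := by ring
      _ = _ := by
          rw [← h5]
          ring
  refine ⟨ε / 2, by linarith, ?_⟩
  filter_upwards [hev, hlim.eventually (gt_mem_nhds one_pos)] with n hn hsm g hg0 hg
  apply mass_gt (d := ⌈δ * n⌉₊) (θ := C * Real.exp (-(n * ε))) hg0 (Real.exp_pos _)
  · rw [Real.exp_le_one_iff]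
    have : (0 : ℝ) ≤ n * (ε / 2) := by positivity
    linarith
  · positivity
  · intro k hk hkd
    have h1 : (k : ℝ) < δ * n := Nat.lt_ceil.1 hkd
    have h2 := hn g hg k hk h1
    calc |bk g k| ≤ C * (Nb n (bk g) + 1) * Real.exp (-(n * ε)) := h2
      _ = _ := by ring
  · have h3 : Real.exp (-(n * (ε / 2))) * Real.exp (n * (ε / 2)) = 1 := by
      rw [← Real.exp_add]
      simp
    have h4 : 0 < Real.exp (n * (ε / 2)) := Real.exp_pos _
    by_contra hcon
    push Not at hcon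
    have h5 := mul_le_mul_of_nonneg_right hcon h4.le
    rw [h3] at h5
    linarith

end Pool.Agent.Lib.MP_0430e4_lc.LPLOW
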