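import Mathlib

/-!
# Bilateral exponential series
-/

set_option autoImplicit false

namespace Pool.Agent.Lib.MP_0430e4_lc.LPLOW

open Complex Filter Topology

/-- `S c s = ∑ k ∈ ℤ, c k e^{k s}` -/
noncomputable def S (c : ℤ → ℝ) (s : ℂ) : ℂ := ∑' k : ℤ, (c k : ℂ) * Complex.exp (k * s)

/-- exponential decay of the coefficients -/
def Dec (κ : ℝ) (c : ℤ → ℝ) : Prop := ∃ C : ℝ, ∀ k : ℤ, |c k| ≤ C * Real.exp (-κ * |(k : ℝ)|)

/-- convolution of the coefficients -/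
noncomputable def cvl (c d : ℤ → ℝ) (N : ℤ) : ℝ := ∑' k : ℤ, c k * d (N - k)

theorem summable_exp_int {κ : ℝ} (hκ : 0 < κ) :
    Summable (fun k : ℤ => Real.exp (-κ * |(k : ℝ)|)) := by
  have h1 : Summable (fun k : ℕ => Real.exp (-κ * (k : ℝ))) := by
    have h := summable_geometric_of_lt_one (Real.exp_pos (-κ)).le (by
      rw [Real.exp_lt_one_iff]
      linarith)
    refine h.congr (fun k => ?_)
    rw [← Real.exp_nat_mul]
    congr 1
    ring
  apply Summable.of_nat_of_neg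
  · refine h1.congr (fun k => ?_)
    simp
  · refine h1.congr (fun k => ?_)
    simp

theorem Dec.mono {κ κ' : ℝ} {c : ℤ → ℝ} (h : Dec κ c) (hk : κ' ≤ κ) : Dec κ' c := by
  obtain ⟨C, hC⟩ := h
  have hC0 : 0 ≤ C := by
    have := hC 0
    simp at this
    exact (abs_nonneg _).trans this
  refine ⟨C, fun k => (hC k).trans ?_⟩
  apply mul_le_mul_of_nonneg_left _ hC0
  apply Real.exp_le_exp.2
  nlinarith [abs_nonneg (k : ℝ)]

theorem norm_term (c : ℤ → ℝ) (s : ℂ) (k : ℤ) :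
    ‖(c k : ℂ) * Complex.exp (k * s)‖ = |c k| * Real.exp (k * s.re) := by
  rw [norm_mul, Complex.norm_exp, Complex.norm_real, Real.norm_eq_abs]
  congr 2
  simp

theorem norm_term_le {κ : ℝ} {c : ℤ → ℝ} {C : ℝ} (hC : ∀ k : ℤ, |c k| ≤ C * Real.exp (-κ * |(k : ℝ)|))
    {s : ℂ} {ρ : ℝ} (hs : |s.re| ≤ ρ) (k : ℤ) :
    ‖(c k : ℂ) * Complex.exp (k * s)‖ ≤ C * Real.exp (-(κ - ρ) * |(k : ℝ)|) := by
  rw [norm_term]
  have h1 : (k : ℝ) * s.re ≤ ρ * |(k : ℝ)| := by
    calc (k : ℝ) * s.re ≤ |(k : ℝ) * s.re| := le_abs_self _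
      _ = |(k : ℝ)| * |s.re| := abs_mul _ _
      _ ≤ |(k : ℝ)| * ρ := mul_le_mul_of_nonneg_left hs (abs_nonneg _)
      _ = _ := by ring
  calc |c k| * Real.exp (k * s.re)
      ≤ (C * Real.exp (-κ * |(k : ℝ)|)) * Real.exp (ρ * |(k : ℝ)|) :=
        mul_le_mul (hC k) (Real.exp_le_exp.2 h1) (Real.exp_pos _).le
          ((abs_nonneg _).trans (hC k))
    _ = _ := by
        rw [mul_assoc, ← Real.exp_add]
        congr 2
        ring

theorem Dec.summable_norm {κ : ℝ} {c : ℤ → ℝ} (h : Dec κ c) {s : ℂ} (hs : |s.re| < κ) :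
    Summable (fun k : ℤ => ‖(c k : ℂ) * Complex.exp (k * s)‖) := by
  obtain ⟨C, hC⟩ := h
  refine Summable.of_nonneg_of_le (fun _ => norm_nonneg _) (norm_term_le hC le_rfl) ?_
  exact (summable_exp_int (by linarith)).mul_left C

theorem Dec.summable {κ : ℝ} {c : ℤ → ℝ} (h : Dec κ c) {s : ℂ} (hs : |s.re| < κ) :
    Summable (fun k : ℤ => (c k : ℂ) * Complex.exp (k * s)) :=
  (h.summable_norm hs).of_norm

theorem Dec.summable_coeff {κ : ℝ} (hκ : 0 < κ) {c : ℤ → ℝ} (h : Dec κ c) :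
    Summable (fun k : ℤ => |c k|) := by
  obtain ⟨C, hC⟩ := h
  exact Summable.of_nonneg_of_le (fun _ => abs_nonneg _) hC ((summable_exp_int hκ).mul_left C)

/-- product of two series -/
theorem S_mul {κ : ℝ} {c d : ℤ → ℝ} (hc : Dec κ c) (hd : Dec κ d) {s : ℂ} (hs : |s.re| < κ) :
    S c s * S d s = S (cvl c d) s := by
  have hκ : 0 < κ := lt_of_le_of_lt (abs_nonneg _) hs
  unfold S
  rw [tsum_mul_tsum_of_summable_norm (hc.summable_norm hs) (hd.summable_norm hs)]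
  have hsum := summable_mul_of_summable_norm (hc.summable_norm hs) (hd.summable_norm hs)
  let e : ℤ × ℤ ≃ ℤ × ℤ :=
    { toFun := fun p => (p.2, p.1 - p.2)
      invFun := fun p => (p.1 + p.2, p.1)
      left_inv := fun p => by ext <;> simp
      right_inv := fun p => by ext <;> simp }
  rw [← e.tsum_eq]
  have hsum2 : Summable (fun p : ℤ × ℤ => ((c p.2 : ℂ) * Complex.exp (p.2 * s))
      * ((d (p.1 - p.2) : ℂ) * Complex.exp ((p.1 - p.2 : ℤ) * s))) := (e.summable_iff).2 hsum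
  calc ∑' p : ℤ × ℤ, ((c (e p).1 : ℂ) * Complex.exp ((e p).1 * s))
        * ((d (e p).2 : ℂ) * Complex.exp ((e p).2 * s))
      = ∑' N : ℤ, ∑' k : ℤ, ((c k : ℂ) * Complex.exp (k * s))
        * ((d (N - k) : ℂ) * Complex.exp ((N - k : ℤ) * s)) := hsum2.tsum_prod
    _ = ∑' N : ℤ, ((cvl c d N : ℝ) : ℂ) * Complex.exp (N * s) := by
        congr 1
        funext N
        unfold cvl
        rw [Complex.ofReal_tsum, ← tsum_mul_right]
        congr 1
        funext k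
        have : Complex.exp (N * s) = Complex.exp (k * s) * Complex.exp ((N - k : ℤ) * s) := by
          rw [← Complex.exp_add]
          congr 1
          push_cast
          ring
        rw [this]
        push_cast
        ring

theorem S_add {κ : ℝ} {c d : ℤ → ℝ} (hc : Dec κ c) (hd : Dec κ d) {s : ℂ} (hs : |s.re| < κ) :
    S (fun k => c k + d k) s = S c s + S d s := by
  unfold S
  rw [← (hc.summable hs).tsum_add (hd.summable hs)]
  congr 1
  funext k
  push_cast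
  ring

theorem S_smul (a : ℝ) (c : ℤ → ℝ) (s : ℂ) : S (fun k => a * c k) s = a * S c s := by
  unfold S
  rw [← tsum_mul_left]
  congr 1
  funext k
  push_cast
  ring

theorem S_delta (a : ℝ) (s : ℂ) : S (fun k => if k = 0 then a else 0) s = a := by
  unfold S
  rw [tsum_eq_single 0]
  · simp
  · intro k hk
    simp [hk]

/-- complex conjugation -/
theorem S_conj (c : ℤ → ℝ) (s : ℂ) : S c (starRingEnd ℂ s) = starRingEnd ℂ (S c s) := by
  unfold S
  rw [Complex.conj_tsum]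
  congr 1
  funext k
  rw [map_mul, Complex.conj_ofReal, ← Complex.exp_conj, map_mul]
  simp

/-- evenness -/
theorem S_neg {c : ℤ → ℝ} (h : ∀ k, c (-k) = c k) (s : ℂ) : S c (-s) = S c s := by
  unfold S
  rw [← (Equiv.neg ℤ).tsum_eq]
  congr 1
  funext k
  simp only [Equiv.neg_apply, h]
  congr 2
  push_cast
  ring

/-- oddness -/
theorem S_neg_odd {c : ℤ → ℝ} (h : ∀ k, c (-k) = -c k) (s : ℂ) : S c (-s) = -S c s := by
  unfold S
  rw [← (Equiv.neg ℤ).tsum_eq, ← tsum_neg]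
  congr 1
  funext k
  simp only [Equiv.neg_apply, h]
  rw [show ((-k : ℤ) : ℂ) * -s = k * s by push_cast; ring]
  push_cast
  ring

theorem Dec.const_mul {κ : ℝ} {c : ℤ → ℝ} (h : Dec κ c) (a : ℝ) : Dec κ (fun k => a * c k) := by
  obtain ⟨C, hC⟩ := h
  refine ⟨|a| * C, fun k => ?_⟩
  rw [abs_mul, mul_assoc]
  exact mul_le_mul_of_nonneg_left (hC k) (abs_nonneg _)

theorem Dec.add {κ : ℝ} {c d : ℤ → ℝ} (hc : Dec κ c) (hd : Dec κ d) :
    Dec κ (fun k => c k + d k) := by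
  obtain ⟨C, hC⟩ := hc
  obtain ⟨D, hD⟩ := hd
  refine ⟨C + D, fun k => (abs_add_le _ _).trans ?_⟩
  rw [add_mul]
  exact add_le_add (hC k) (hD k)

theorem Dec.delta (κ a : ℝ) : Dec κ (fun k => if k = 0 then a else 0) := by
  refine ⟨|a|, fun k => ?_⟩
  by_cases h : k = 0
  · subst h
    simp
  · simp only [h, if_false, abs_zero]
    positivity

theorem Dec.of_le {κ : ℝ} {c d : ℤ → ℝ} (hd : Dec κ d) (h : ∀ k, |c k| ≤ |d k|) : Dec κ c := by
  obtain ⟨D, hD⟩ := hd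
  exact ⟨D, fun k => (h k).trans (hD k)⟩

/-- multiplying by the frequency keeps every smaller rate of decay -/
theorem Dec.mul_k {κ κ' : ℝ} {c : ℤ → ℝ} (h : Dec κ c) (hk : κ' < κ) :
    Dec κ' (fun k => (k : ℝ) * c k) := by
  obtain ⟨C, hC⟩ := h
  have hC0 : 0 ≤ C := by
    have := hC 0
    simp at this
    exact (abs_nonneg _).trans this
  refine ⟨C * (κ - κ')⁻¹, fun k => ?_⟩
  have hd : 0 < κ - κ' := by linarith
  have h1 : |(k : ℝ)| ≤ (κ - κ')⁻¹ * Real.exp ((κ - κ') * |(k : ℝ)|) := by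
    have h2 := Real.add_one_le_exp ((κ - κ') * |(k : ℝ)|)
    rw [le_inv_mul_iff₀ hd]
    linarith
  rw [abs_mul]
  calc |(k : ℝ)| * |c k|
      ≤ ((κ - κ')⁻¹ * Real.exp ((κ - κ') * |(k : ℝ)|)) * (C * Real.exp (-κ * |(k : ℝ)|)) :=
        mul_le_mul h1 (hC k) (abs_nonneg _) (by positivity)
    _ = C * (κ - κ')⁻¹ * (Real.exp ((κ - κ') * |(k : ℝ)|) * Real.exp (-κ * |(k : ℝ)|)) := by ring
    _ = _ := by
        rw [← Real.exp_add]
        congr 2
        ring

/-- termwise differentiation -/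
theorem Dec.hasDerivAt {κ : ℝ} {c : ℤ → ℝ} (h : Dec κ c) {s : ℂ} (hs : |s.re| < κ) :
    HasDerivAt (S c) (S (fun k => (k : ℝ) * c k) s) s := by
  obtain ⟨ρ, hρ1, hρ2⟩ := exists_between hs
  obtain ⟨κ', hk1, hk2⟩ := exists_between hρ2
  obtain ⟨C, hC⟩ := h.mul_k hk2
  have hopen : IsOpen {w : ℂ | |w.re| < ρ} :=
    isOpen_lt (continuous_abs.comp Complex.continuous_re) continuous_const
  have hpre : IsPreconnected {w : ℂ | |w.re| < ρ} := by
    have : {w : ℂ | |w.re| < ρ} = Complex.reLm ⁻¹' (Set.Ioo (-ρ) ρ) := by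
      ext w
      simp [abs_lt]
    rw [this]
    exact ((convex_Ioo (-ρ) ρ).linear_preimage Complex.reLm).isPreconnected
  have hbound : ∀ (k : ℤ) (w : ℂ), w ∈ {w : ℂ | |w.re| < ρ} →
      ‖(c k : ℂ) * (Complex.exp (k * w) * k)‖ ≤ C * Real.exp (-(κ' - ρ) * |(k : ℝ)|) := by
    intro k w hw
    have h1 := norm_term_le hC (s := w) (ρ := ρ) (le_of_lt hw) k
    refine le_trans (le_of_eq ?_) h1
    congr 1
    push_cast
    ring
  have hder : ∀ (k : ℤ) (w : ℂ), w ∈ {w : ℂ | |w.re| < ρ} →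
      HasDerivAt (fun w : ℂ => (c k : ℂ) * Complex.exp (k * w))
        ((c k : ℂ) * (Complex.exp (k * w) * k)) w := by
    intro k w _
    have h1 : HasDerivAt (fun w : ℂ => (k : ℂ) * w) (k : ℂ) w := by
      simpa using (hasDerivAt_id w).const_mul (k : ℂ)
    exact (h1.cexp).const_mul _
  have h2 := hasDerivAt_tsum_of_isPreconnected (u := fun k : ℤ => C * Real.exp (-(κ' - ρ) * |(k : ℝ)|))
    (g := fun (k : ℤ) (w : ℂ) => (c k : ℂ) * Complex.exp (k * w))
    (g' := fun (k : ℤ) (w : ℂ) => (c k : ℂ) * (Complex.exp (k * w) * k))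
    ((summable_exp_int (by linarith)).mul_left C) hopen hpre hder hbound
    (y₀ := s) hρ1 (h.summable hs) (y := s) hρ1
  have e : S (fun k => (k : ℝ) * c k) s = ∑' k : ℤ, (c k : ℂ) * (Complex.exp (k * s) * k) := by
    unfold S
    congr 1
    funext k
    push_cast
    ring
  rw [e]
  exact h2

theorem Dec.continuousAt {κ : ℝ} {c : ℤ → ℝ} (h : Dec κ c) {s : ℂ} (hs : |s.re| < κ) :
    ContinuousAt (S c) s := (h.hasDerivAt hs).continuousAt

end Pool.Agent.Lib.MP_0430e4_lc.LPLOW
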