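import Pool.Agent.Lib.MP_0430e4_lc.LPLOW.Rect
import Pool.Agent.Lib.MP_0430e4_lc.LPLOW.Defs

/-!
# The contour estimate on the first branch
-/

set_option autoImplicit false

namespace Pool.Agent.Lib.MP_0430e4_lc.LPLOW

open Complex Filter Topology Set
open Exact (sech)

/-! ## the primitive in the variable `w = e^{-2ℓ}` -/

/-- primitive of `G(e^{-2ℓ}) e^{2kℓ}` -/
noncomputable def Qp (n : ℕ) (b : ℕ → ℝ) (k : ℕ) (l : ℂ) : ℂ :=
  ∑ j ∈ Finset.range (n + 1), if j = k then (b j : ℂ) * l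
    else (b j : ℂ) * (Complex.exp (-(2 * ((j : ℂ) - k) * l)) / (-(2 * ((j : ℂ) - k))))

theorem hasDerivAt_Qp (n : ℕ) (b : ℕ → ℝ) (k : ℕ) (l : ℂ) :
    HasDerivAt (Qp n b k) (Gp n b (Complex.exp (-(2 * l))) * Complex.exp (2 * k * l)) l := by
  have h : ∀ j ∈ Finset.range (n + 1), HasDerivAt (fun l : ℂ => if j = k then (b j : ℂ) * l
      else (b j : ℂ) * (Complex.exp (-(2 * ((j : ℂ) - k) * l)) / (-(2 * ((j : ℂ) - k)))))
      ((b j : ℂ) * Complex.exp (-(2 * l)) ^ j * Complex.exp (2 * k * l)) l := by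
    intro j _
    have e0 : Complex.exp (-(2 * l)) ^ j * Complex.exp (2 * k * l)
        = Complex.exp (-(2 * ((j : ℂ) - k) * l)) := by
      rw [← Complex.exp_nat_mul, ← Complex.exp_add]
      congr 1
      ring
    rw [mul_assoc, e0]
    by_cases hjk : j = k
    · subst hjk
      simp only [if_true, sub_self, mul_zero, zero_mul, neg_zero, Complex.exp_zero, mul_one]
      simpa using (hasDerivAt_id l).const_mul (b j : ℂ)
    · simp only [hjk, if_false]
      have hne : -(2 * ((j : ℂ) - k)) ≠ 0 := by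
        rw [neg_ne_zero]
        apply mul_ne_zero two_ne_zero
        rw [sub_ne_zero]
        exact_mod_cast hjk
      have h1 : HasDerivAt (fun l : ℂ => -(2 * ((j : ℂ) - k) * l)) (-(2 * ((j : ℂ) - k))) l := by
        have := ((hasDerivAt_id' l).const_mul (2 * ((j : ℂ) - k))).fun_neg
        rwa [mul_one] at this
      have h2 := ((h1.cexp).div_const (-(2 * ((j : ℂ) - k)))).const_mul (b j : ℂ)
      refine h2.congr_deriv ?_
      rw [mul_div_assoc, div_self hne, mul_one]
  have h3 := HasDerivAt.fun_sum h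
  refine h3.congr_deriv ?_
  unfold Gp
  rw [Finset.sum_mul]

theorem Qp_diff (n : ℕ) (b : ℕ → ℝ) (hb : ∀ k, Odd k → b k = 0) {k : ℕ} (hk : k ≤ n)
    (hke : Even k) : Qp n b k (I * (Real.pi / 4)) - Qp n b k (-(I * (Real.pi / 4)))
      = b k * (I * (Real.pi / 2)) := by
  unfold Qp
  rw [← Finset.sum_sub_distrib, Finset.sum_eq_single k]
  · simp only [if_true]
    ring
  · intro j _ hjk
    simp only [hjk, if_false]
    rcases Nat.even_or_odd j with hj | hj
    · have e : Complex.exp (-(2 * ((j : ℂ) - k) * (I * (Real.pi / 4))))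
          = Complex.exp (-(2 * ((j : ℂ) - k) * -(I * (Real.pi / 4)))) := by
        obtain ⟨a, ha⟩ := hj
        obtain ⟨c, hc⟩ := hke
        rw [Complex.exp_eq_exp_iff_exists_int]
        refine ⟨(c : ℤ) - a, ?_⟩
        rw [ha, hc]
        push_cast
        ring
      rw [e, sub_self]
    · rw [hb j hj]
      simp
  · intro h
    exact absurd (Finset.mem_range.2 (Nat.lt_succ_of_le hk)) h

/-! ## the majorant -/

noncomputable def cU (η : ℝ) (k : ℤ) : ℝ := if Even k then sech (k * (η / 2)) ^ 2 / (4 * k) else 0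

/-- `U(s) = κ s + ∑_M sech²(Mη) sinh(2Ms)/(4M)` -/
noncomputable def UU (η κ : ℝ) (s : ℂ) : ℂ := κ * s + S (cU η) s

theorem dec_cU {η : ℝ} (hη : 0 < η) : Dec η (cU η) := by
  refine (dec_cS hη).of_le (fun k => ?_)
  unfold cU cS
  split_ifs with hk
  · by_cases hk0 : k = 0
    · subst hk0
      simp only [Int.cast_zero, mul_zero, div_zero, abs_zero]
      positivity
    · have hk1 : (1 : ℝ) ≤ |(k : ℝ)| := by exact_mod_cast Int.one_le_abs hk0
      rw [abs_div, abs_mul, abs_of_pos (show (0 : ℝ) < 4 by norm_num)]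
      exact div_le_self (abs_nonneg _) (by linarith)
  · exact le_rfl

theorem cU_neg (η : ℝ) (k : ℤ) : cU η (-k) = -cU η k := by
  unfold cU
  simp only [even_neg]
  rw [show ((-k : ℤ) : ℝ) * (η / 2) = -(k * (η / 2)) by push_cast; ring, sech_neg]
  split_ifs
  · push_cast
    rw [mul_neg, div_neg]
  · simp

theorem hasDerivAt_UU {η : ℝ} (hη : 0 < η) (κ : ℝ) {s : ℂ} (hs : |s.re| < η) :
    HasDerivAt (UU η κ) (κ + (S (cS η) s - 1) / 4) s := by
  have h := (dec_cU hη).hasDerivAt hs
  have e : (fun k : ℤ => (k : ℝ) * cU η k)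
      = fun k => (1 / 4) * cS η k + (if k = 0 then (-1 / 4 : ℝ) else 0) := by
    funext k
    unfold cU cS
    by_cases hk0 : k = 0
    · subst hk0
      simp [sech_zero]
      norm_num
    · have hkr : (k : ℝ) ≠ 0 := by exact_mod_cast hk0
      simp only [hk0, if_false, add_zero]
      split_ifs
      · field_simp
      · simp
  rw [e, S_add ((dec_cS hη).const_mul _) (Dec.delta η _) hs, S_smul, S_delta] at h
  have h2 : HasDerivAt (fun s : ℂ => (κ : ℂ) * s) (κ : ℂ) s := by
    simpa using (hasDerivAt_id s).const_mul (κ : ℂ)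
  refine (h2.add h).congr_deriv ?_
  push_cast
  ring

theorem UU_re_imag {η : ℝ} (κ : ℝ) (s : ℂ) (hs : s.re = 0) : (UU η κ s).re = 0 := by
  have hc : starRingEnd ℂ s = -s := by
    apply Complex.ext
    · simp [hs]
    · simp
  have h1 : (S (cU η) s).re = 0 := by
    have h2 := S_conj (cU η) s
    rw [hc, S_neg_odd (cU_neg η)] at h2
    have h3 := congrArg Complex.re h2
    rw [Complex.neg_re, Complex.conj_re] at h3
    linarith
  unfold UU
  rw [Complex.add_re, h1, Complex.re_ofReal_mul, hs]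
  ring

theorem L_re_imag {η : ℝ} (s : ℂ) (hs : s.re = 0) : (S (cL η) s).re = 0 := by
  have hc : starRingEnd ℂ s = -s := by
    apply Complex.ext
    · simp [hs]
    · simp
  have h2 := S_conj (cL η) s
  rw [hc, S_neg_odd (cL_neg η)] at h2
  have h3 := congrArg Complex.re h2
  rw [Complex.neg_re, Complex.conj_re] at h3
  linarith

/-- real series on the imaginary axis -/
theorem S_real_imag {c : ℤ → ℝ} (h : ∀ k, c (-k) = c k) (s : ℂ) (hs : s.re = 0) :
    (S c s).im = 0 := by
  have hc : starRingEnd ℂ s = -s := by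
    apply Complex.ext
    · simp [hs]
    · simp
  have h2 := S_conj c s
  rw [hc, S_neg h] at h2
  have h3 := congrArg Complex.im h2
  rw [Complex.conj_im] at h3
  linarith

/-- real series on the real axis -/
theorem S_real_real {c : ℤ → ℝ} (s : ℂ) (hs : s.im = 0) : (S c s).im = 0 := by
  have hc : starRingEnd ℂ s = s := by
    apply Complex.ext
    · simp
    · simp [hs]
  have h2 := S_conj c s
  rw [hc] at h2
  have h3 := congrArg Complex.im h2
  rw [Complex.conj_im] at h3
  linarith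

/-- `|T(it)| ≤ T(0)` for nonnegative coefficients -/
theorem S_re_le {κ : ℝ} (hκ : 0 < κ) {c : ℤ → ℝ} (hd : Dec κ c) (h0 : ∀ k, 0 ≤ c k) (s : ℂ)
    (hs : s.re = 0) : (S c s).re ≤ (S c 0).re := by
  rw [S_zero, Complex.ofReal_re]
  have h1 : (S c s).re ≤ ‖S c s‖ := Complex.re_le_norm _
  refine h1.trans ?_
  unfold S
  have h2 := hd.summable_norm (s := s) (by rw [hs, abs_zero]; exact hκ)
  refine (norm_tsum_le_tsum_norm h2).trans (le_of_eq ?_)
  congr 1
  funext k
  rw [norm_term, hs, abs_of_nonneg (h0 k)]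
  simp

theorem cT_nonneg (η : ℝ) (k : ℤ) : 0 ≤ cT η k := by
  unfold cT
  split_ifs
  · positivity
  · exact le_rfl

theorem A_zero_pos {η : ℝ} (hη : 0 < η) : 0 < (S (cA η) 0).re := by
  rw [S_zero, Complex.ofReal_re]
  have hs : Summable (cA η) := by
    have := (dec_cA hη).summable_coeff hη
    exact this.of_abs
  refine hs.tsum_pos (fun k => ?_) 1 ?_
  · unfold cA
    split_ifs
    · have := sech_pos ((k : ℝ) * η)
      positivity
    · exact le_rfl
  · unfold cA
    rw [if_pos (by decide)]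
    have := sech_pos (((1 : ℤ) : ℝ) * η)
    positivity

/-- `Re L ≥ 0` on the rectangle -/
theorem re_L_nonneg {η : ℝ} (hη : 0 < η) {s : ℂ} (h0 : 0 ≤ s.re) (h1 : s.re < η)
    (hi : |s.im| ≤ Real.pi / 2) : 0 ≤ (S (cL η) s).re := by
  have hd : ∀ x : ℝ, |x| < η → HasDerivAt (fun x : ℝ => (S (cL η) (x + s.im * I)).re)
      (S (cA η) (x + s.im * I)).re x := by
    intro x hx
    have h1 := hasDerivAt_L hη (s := x + s.im * I) (by simpa using hx)
    have h2 : HasDerivAt (fun x : ℝ => (x : ℂ) + s.im * I) 1 x := by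
      have := (Complex.ofRealCLM.hasDerivAt (x := x)).add_const (s.im * I : ℂ)
      simpa using this
    have h3 := h1.scomp x h2
    have h4 := (Complex.reCLM.hasFDerivAt.comp_hasDerivAt x h3)
    refine h4.congr_deriv ?_
    simp
  have hmono : MonotoneOn (fun x : ℝ => (S (cL η) (x + s.im * I)).re) (Icc 0 s.re) := by
    apply monotoneOn_of_deriv_nonneg (convex_Icc 0 s.re)
    · intro x hx
      exact (hd x (abs_lt.2 ⟨by linarith [hx.1], by linarith [hx.2]⟩)).continuousAt.continuousWithinAt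
    · intro x hx
      rw [interior_Icc] at hx
      exact (hd x (abs_lt.2 ⟨by linarith [hx.1], by linarith [hx.2]⟩)).differentiableAt.differentiableWithinAt
    · intro x hx
      rw [interior_Icc] at hx
      have hx' : |x| < η := abs_lt.2 ⟨by linarith [hx.1], by linarith [hx.2]⟩
      rw [(hd x hx').deriv]
      exact re_A_nonneg hη (by simpa using hx') (by simpa using hi)
  have h2 := hmono ⟨le_rfl, h0⟩ ⟨h0, le_rfl⟩ h0
  simp only [Complex.ofReal_zero, zero_add] at h2
  rw [L_re_imag (s.im * I : ℂ) (by simp), Complex.re_add_im] at h2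
  exact h2

/-! ## the estimate -/

theorem im_half_pi : (I * ((Real.pi : ℂ) / 2)).im = Real.pi / 2 := by
  have : ((Real.pi : ℂ) / 2).re = Real.pi / 2 := by
    rw [show ((Real.pi : ℂ) / 2) = ((Real.pi / 2 : ℝ) : ℂ) by push_cast; ring]
    exact Complex.ofReal_re _
  simp [this]

theorem re_half_pi : (I * ((Real.pi : ℂ) / 2)).re = 0 := by
  have : ((Real.pi : ℂ) / 2).im = 0 := by
    rw [show ((Real.pi : ℂ) / 2) = ((Real.pi / 2 : ℝ) : ℂ) by push_cast; ring]
    exact Complex.ofReal_im _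
  simp [this]

/-- derivative of the real part along a horizontal line -/
theorem hasDerivAt_re_line {f f' : ℂ → ℂ} {x y : ℝ}
    (h : HasDerivAt f (f' (x + y * I)) (x + y * I)) :
    HasDerivAt (fun x : ℝ => (f (x + y * I)).re) (f' (x + y * I)).re x := by
  have h2 : HasDerivAt (fun x : ℝ => (x : ℂ) + y * I) 1 x := by
    have := (Complex.ofRealCLM.hasDerivAt (x := x)).add_const (y * I : ℂ)
    simpa using this
  have h3 := h.scomp x h2
  have h4 := (Complex.reCLM.hasFDerivAt.comp_hasDerivAt x h3)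
  refine h4.congr_deriv ?_
  simp

/-- (a) near the imaginary axis -/
theorem psi_a {η κ : ℝ} (hη : 0 < η)
    (hκ : κ < (1 - (S (cS η) (I * (Real.pi / 2))).re) / 4) :
    ∃ s₀ : ℝ, 0 < s₀ ∧ s₀ < η ∧ ∀ t : ℝ, |t| ≤ Real.pi / 2 →
      (UU η κ (s₀ + t * I)).re
        - (S (cT η) 0).re / (S (cA η) 0).re * (S (cL η) (s₀ + t * I)).re
        ≤ -((1 - (S (cS η) (I * (Real.pi / 2))).re) / 4 - κ) / 2 * s₀ := by
  set σ₀ := (S (cT η) 0).re / (S (cA η) 0).re with hσ
  set K₁ := (S (cS η) (I * (Real.pi / 2))).re with hK₁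
  set ε := (1 - K₁) / 4 - κ with hε
  have hεpos : 0 < ε := by
    rw [hε]
    linarith
  have hA0 := A_zero_pos hη
  -- the derivative
  let g : ℝ → ℝ → ℝ := fun x t => ((κ : ℂ) + (S (cS η) (x + t * I) - 1) / 4).re
    - σ₀ * (S (cA η) (x + t * I)).re
  have hg0 : ∀ t : ℝ, |t| ≤ Real.pi / 2 → g 0 t ≤ -ε := by
    intro t ht
    have h1 := ident_I hη (s := t * I) (by simpa using hη)
    have hA : 0 ≤ (S (cA η) (t * I)).re := re_A_nonneg hη (by simpa using hη) (by simpa using ht)
    have hAi : (S (cA η) (t * I)).im = 0 := S_real_imag (cA_neg η) _ (by simp)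
    have hTi : (S (cT η) (t * I)).im = 0 := S_real_imag (cT_neg η) _ (by simp)
    have hA0i : (S (cA η) 0).im = 0 := S_real_imag (cA_neg η) _ (by simp)
    have hT : (S (cT η) (t * I)).re ≤ (S (cT η) 0).re :=
      S_re_le (κ := 2 * η) (by linarith) (dec_cT hη) (cT_nonneg η) _ (by simp)
    have h2 := congrArg Complex.re h1
    rw [Complex.mul_re, hAi, hTi, mul_zero, sub_zero] at h2
    have h3 : (S (cA η) 0 / 4 * (S (cS η) (t * I) - S (cS η) (I * (Real.pi / 2)))).re
        = (S (cA η) 0).re / 4 * ((S (cS η) (t * I)).re - K₁) := by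
      have e : S (cA η) 0 / 4 = (((S (cA η) 0).re / 4 : ℝ) : ℂ) := by
        apply Complex.ext
        · simp
        · simp [hA0i]
      rw [e, Complex.re_ofReal_mul, Complex.sub_re]
    rw [h3] at h2
    have h4 : ((κ : ℂ) + (S (cS η) (t * I) - 1) / 4).re = κ + ((S (cS η) (t * I)).re - 1) / 4 := by
      simp
    simp only [g, Complex.ofReal_zero, zero_add]
    rw [h4]
    have h5 : ((S (cS η) (t * I)).re - K₁) / 4
        = (S (cT η) (t * I)).re * (S (cA η) (t * I)).re / (S (cA η) 0).re := by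
      rw [eq_div_iff hA0.ne']
      linarith
    have h6 : (S (cT η) (t * I)).re * (S (cA η) (t * I)).re / (S (cA η) 0).re
        ≤ σ₀ * (S (cA η) (t * I)).re := by
      rw [hσ, div_mul_eq_mul_div]
      apply div_le_div_of_nonneg_right _ hA0.le
      exact mul_le_mul_of_nonneg_right hT hA
    linarith
  -- uniform continuity
  have hcont : ContinuousOn (fun p : ℝ × ℝ => g p.1 p.2)
      (Icc (0 : ℝ) (η / 2) ×ˢ Icc (-(Real.pi / 2)) (Real.pi / 2)) := by
    intro p hp
    have hre : |((p.1 : ℂ) + p.2 * I).re| < η := by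
      simp only [Complex.add_re, Complex.ofReal_re, Complex.mul_re, Complex.I_re, mul_zero,
        Complex.ofReal_im, Complex.I_im, mul_one, sub_self, add_zero]
      exact abs_lt.2 ⟨by linarith [hp.1.1], by linarith [hp.1.2]⟩
    have hmap : ContinuousAt (fun p : ℝ × ℝ => (p.1 : ℂ) + p.2 * I) p := by fun_prop
    have c1 : ContinuousAt (fun p : ℝ × ℝ => S (cS η) ((p.1 : ℂ) + p.2 * I)) p :=
      ContinuousAt.comp (g := S (cS η)) (f := fun p : ℝ × ℝ => (p.1 : ℂ) + p.2 * I)
        ((dec_cS hη).continuousAt hre) hmap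
    have c2 : ContinuousAt (fun p : ℝ × ℝ => S (cA η) ((p.1 : ℂ) + p.2 * I)) p :=
      ContinuousAt.comp (g := S (cA η)) (f := fun p : ℝ × ℝ => (p.1 : ℂ) + p.2 * I)
        ((dec_cA hη).continuousAt hre) hmap
    have c3 : ContinuousAt (fun p : ℝ × ℝ => g p.1 p.2) p := by
      apply ContinuousAt.sub
      · exact Complex.continuous_re.continuousAt.comp
          ((continuousAt_const).add ((c1.sub continuousAt_const).div_const 4))
      · exact continuousAt_const.mul (Complex.continuous_re.continuousAt.comp c2)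
    exact c3.continuousWithinAt
  have hK : IsCompact (Icc (0 : ℝ) (η / 2) ×ˢ Icc (-(Real.pi / 2)) (Real.pi / 2)) :=
    isCompact_Icc.prod isCompact_Icc
  have huc := hK.uniformContinuousOn_of_continuous hcont
  rw [Metric.uniformContinuousOn_iff] at huc
  obtain ⟨δ, hδ, hδ2⟩ := huc (ε / 2) (by linarith)
  obtain ⟨s₀, hs0, hs1⟩ := exists_between (lt_min hδ (half_pos hη))
  have hs2 : s₀ < η / 2 := hs1.trans_le (min_le_right _ _)
  have hs3 : s₀ < δ := hs1.trans_le (min_le_left _ _)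
  refine ⟨s₀, hs0, by linarith, fun t ht => ?_⟩
  have htm := abs_le.1 ht
  have hgx : ∀ x : ℝ, 0 ≤ x → x ≤ s₀ → g x t ≤ -ε / 2 := by
    intro x hx0 hx1
    have h1 := hδ2 (x, t) ⟨⟨hx0, by simp only; linarith⟩, ⟨htm.1, htm.2⟩⟩ (0, t)
      ⟨⟨le_rfl, by simp only; linarith⟩, ⟨htm.1, htm.2⟩⟩ (by
        rw [Prod.dist_eq, dist_self, max_eq_left dist_nonneg, Real.dist_eq, sub_zero,
          abs_of_nonneg hx0]
        linarith)
    rw [Real.dist_eq] at h1
    have h2 := (abs_lt.1 h1).2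
    have h3 := hg0 t ht
    simp only at h2
    linarith
  -- integrate
  have hder : ∀ x ∈ Icc (0 : ℝ) s₀, HasDerivAt
      (fun x : ℝ => (UU η κ (x + t * I)).re - σ₀ * (S (cL η) (x + t * I)).re + ε / 2 * x)
      (g x t + ε / 2) x := by
    intro x hx
    have hre : |((x : ℂ) + t * I).re| < η := by
      simp only [Complex.add_re, Complex.ofReal_re, Complex.mul_re, Complex.I_re, mul_zero,
        Complex.ofReal_im, Complex.I_im, mul_one, sub_self, add_zero]
      exact abs_lt.2 ⟨by linarith [hx.1], by linarith [hx.2]⟩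
    have d1 := hasDerivAt_re_line (f := UU η κ) (f' := fun s => κ + (S (cS η) s - 1) / 4)
      (hasDerivAt_UU hη κ hre)
    have d2 := hasDerivAt_re_line (f := S (cL η)) (f' := S (cA η)) (hasDerivAt_L hη hre)
    have d3 := (d1.sub (d2.const_mul σ₀)).add ((hasDerivAt_id' x).const_mul (ε / 2))
    rw [mul_one] at d3
    exact d3
  have hanti : AntitoneOn (fun x : ℝ => (UU η κ (x + t * I)).re
      - σ₀ * (S (cL η) (x + t * I)).re + ε / 2 * x) (Icc 0 s₀) := by
    apply antitoneOn_of_deriv_nonpos (convex_Icc 0 s₀)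
    · intro x hx
      exact (hder x hx).continuousAt.continuousWithinAt
    · intro x hx
      rw [interior_Icc] at hx
      exact (hder x ⟨hx.1.le, hx.2.le⟩).differentiableAt.differentiableWithinAt
    · intro x hx
      rw [interior_Icc] at hx
      rw [(hder x ⟨hx.1.le, hx.2.le⟩).deriv]
      have := hgx x hx.1.le hx.2.le
      linarith
  have h1 := hanti ⟨le_rfl, hs0.le⟩ ⟨hs0.le, le_rfl⟩ hs0.le
  simp only [Complex.ofReal_zero, zero_add, mul_zero, add_zero] at h1
  rw [UU_re_imag κ (t * I : ℂ) (by simp), L_re_imag (t * I : ℂ) (by simp)] at h1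
  linarith

/-- (b) on the upper side of the rectangle -/
theorem psi_b {η κ : ℝ} (hη : 0 < η)
    (hP : ∀ x : ℝ, 0 ≤ x → x < η → (S (cS η) (x + I * (Real.pi / 2))).re
      ≤ (S (cS η) (I * (Real.pi / 2))).re) (x : ℝ) (hx0 : 0 ≤ x) (hx : x < η) :
    (UU η κ (x + I * (Real.pi / 2))).re
      ≤ (κ - (1 - (S (cS η) (I * (Real.pi / 2))).re) / 4) * x := by
  have hy : (I * ((Real.pi : ℂ) / 2)) = ((Real.pi / 2 : ℝ) : ℂ) * I := by
    push_cast
    ring
  simp only [hy] at *
  set K₁ := (S (cS η) (((Real.pi / 2 : ℝ) : ℂ) * I)).re with hK₁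
  have hder : ∀ u ∈ Icc (0 : ℝ) x, HasDerivAt
      (fun u : ℝ => (UU η κ (u + ((Real.pi / 2 : ℝ) : ℂ) * I)).re
        - (κ - (1 - K₁) / 4) * u)
      (((κ : ℂ) + (S (cS η) (u + ((Real.pi / 2 : ℝ) : ℂ) * I) - 1) / 4).re
        - (κ - (1 - K₁) / 4)) u := by
    intro u hu
    have hre : |((u : ℂ) + ((Real.pi / 2 : ℝ) : ℂ) * I).re| < η := by
      simp only [Complex.add_re, Complex.ofReal_re, Complex.mul_re, Complex.I_re, mul_zero,
        Complex.ofReal_im, Complex.I_im, mul_one, sub_self, add_zero]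
      exact abs_lt.2 ⟨by linarith [hu.1], by linarith [hu.2]⟩
    have d1 := hasDerivAt_re_line (f := UU η κ) (f' := fun s => κ + (S (cS η) s - 1) / 4)
      (hasDerivAt_UU hη κ hre)
    have d3 := d1.sub ((hasDerivAt_id' u).const_mul (κ - (1 - K₁) / 4))
    rw [mul_one] at d3
    exact d3
  have hanti : AntitoneOn (fun u : ℝ => (UU η κ (u + ((Real.pi / 2 : ℝ) : ℂ) * I)).re
        - (κ - (1 - K₁) / 4) * u) (Icc 0 x) := by
    apply antitoneOn_of_deriv_nonpos (convex_Icc 0 x)
    · intro u hu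
      exact (hder u hu).continuousAt.continuousWithinAt
    · intro u hu
      rw [interior_Icc] at hu
      exact (hder u ⟨hu.1.le, hu.2.le⟩).differentiableAt.differentiableWithinAt
    · intro u hu
      rw [interior_Icc] at hu
      rw [(hder u ⟨hu.1.le, hu.2.le⟩).deriv]
      have h1 := hP u hu.1.le (hu.2.trans hx)
      have h2 : ((κ : ℂ) + (S (cS η) (u + ((Real.pi / 2 : ℝ) : ℂ) * I) - 1) / 4).re
          = κ + ((S (cS η) (u + ((Real.pi / 2 : ℝ) : ℂ) * I)).re - 1) / 4 := by
        simp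
      rw [h2]
      linarith
  have h1 := hanti ⟨le_rfl, hx0⟩ ⟨hx0, le_rfl⟩ hx0
  simp only [Complex.ofReal_zero, zero_add, mul_zero, sub_zero] at h1
  rw [UU_re_imag κ (((Real.pi / 2 : ℝ) : ℂ) * I) (by
    rw [Complex.re_ofReal_mul]
    simp)] at h1
  linarith

end Pool.Agent.Lib.MP_0430e4_lc.LPLOW
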