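import Pool.Agent.Lib.MP_0430e4_lc.LPLOW.ContI
import Pool.Agent.Lib.MP_0430e4_lc.LPLOW.Pos

/-!
# The coefficient bound on the first branch from the majorant
-/

set_option autoImplicit false

namespace Pool.Agent.Lib.MP_0430e4_lc.LPLOW

open Complex Filter Topology Set
open Exact (sech)

theorem S_add_pi_odd {c : ℤ → ℝ} (hc : ∀ k, ¬ Odd k → c k = 0) (s : ℂ) :
    S c (s + Real.pi * I) = -S c s := by
  unfold S
  rw [← tsum_neg]
  congr 1
  funext k
  by_cases hk : Odd k
  · obtain ⟨j, rfl⟩ := hk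
    have e : Complex.exp (((2 * j + 1 : ℤ) : ℂ) * (s + Real.pi * I))
        = -Complex.exp (((2 * j + 1 : ℤ) : ℂ) * s) := by
      have h1 : ((2 * j + 1 : ℤ) : ℂ) * (s + Real.pi * I)
          = ((2 * j + 1 : ℤ) : ℂ) * s + ((j : ℂ) * (2 * Real.pi * I) + Real.pi * I) := by
        push_cast
        ring
      rw [h1, Complex.exp_add, Complex.exp_add, Complex.exp_int_mul_two_pi_mul_I,
        Complex.exp_pi_mul_I]
      ring
    rw [e]
    ring
  · rw [hc k hk]
    simp

theorem L_half_pi {η : ℝ} (x : ℝ) : (S (cL η) (x + I * (Real.pi / 2))).re = 0 := by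
  have h1 := S_add_pi_odd (c := cL η) (fun k hk => by unfold cL; rw [if_neg hk])
    (x - I * (Real.pi / 2))
  have e1 : (x : ℂ) - I * (Real.pi / 2) + Real.pi * I = x + I * (Real.pi / 2) := by ring
  have e2 : (x : ℂ) - I * (Real.pi / 2) = starRingEnd ℂ (x + I * (Real.pi / 2)) := by
    rw [map_add, map_mul, Complex.conj_I, Complex.conj_ofReal, map_div₀, Complex.conj_ofReal]
    have : (starRingEnd ℂ) 2 = 2 := Complex.conj_ofNat 2
    rw [this]
    ring
  rw [e1, e2, S_conj] at h1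
  have h2 := congrArg Complex.re h1
  rw [Complex.neg_re, Complex.conj_re] at h2
  linarith

theorem L_eq_theta {η : ℝ} (x : ℝ) :
    S (cL η) (x + I * (Real.pi / 2)) = I * ((S (cL η) (x + I * (Real.pi / 2))).im : ℂ) := by
  apply Complex.ext
  · rw [L_half_pi]
    simp
  · simp

theorem Gp_conj (n : ℕ) (b : ℕ → ℝ) (w : ℂ) : ‖Gp n b (starRingEnd ℂ w)‖ = ‖Gp n b w‖ := by
  have : Gp n b (starRingEnd ℂ w) = starRingEnd ℂ (Gp n b w) := by
    unfold Gp
    rw [map_sum]
    apply Finset.sum_congr rfl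
    intro k _
    rw [map_mul, map_pow, Complex.conj_ofReal]
  rw [this, Complex.norm_conj]

/-- the majorant property (interface) -/
def M1 (η κ R : ℝ) : Prop := ∀ (n : ℕ) (b : ℕ → ℝ),
  (∀ z : ℂ, ‖z‖ ≤ 1 → ‖Fp n b z‖ ≤ Real.exp (n * R) * Nb n b) →
  ∀ s : ℂ, 0 ≤ s.re → s.re < η →
    ‖Gp n b (Complex.exp (-(2 * S (cL η) s)))‖
      ≤ Nb n b * Real.exp (n * ((UU η κ s).re - (S (cL η) s).re))

/-- bound for `A` on a vertical line -/
theorem norm_A_le {η : ℝ} (hη : 0 < η) {x : ℝ} (hx : |x| < η) :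
    ∃ MA : ℝ, 0 ≤ MA ∧ ∀ t : ℝ, ‖S (cA η) (x + t * I)‖ ≤ MA := by
  refine ⟨∑' k : ℤ, |cA η k| * Real.exp (k * x), tsum_nonneg fun k => by positivity, fun t => ?_⟩
  have hre : ((x : ℂ) + t * I).re = x := by simp
  have h := (dec_cA hη).summable_norm (s := (x : ℂ) + t * I) (by rwa [hre])
  unfold S
  refine (norm_tsum_le_tsum_norm h).trans (le_of_eq ?_)
  congr 1
  funext k
  rw [norm_term, hre]

/-- the part of the unit circle beyond the slit -/
theorem arc_bound {η κ R s₀ : ℝ} (hη : 0 < η) (hM : M1 η κ R) (hs0 : 0 < s₀) (hs1 : s₀ < η)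
    {n : ℕ} {b : ℕ → ℝ} (hF : ∀ z : ℂ, ‖z‖ ≤ 1 → ‖Fp n b z‖ ≤ Real.exp (n * R) * Nb n b)
    (hκ : κ < (1 - (S (cS η) (I * (Real.pi / 2))).re) / 4) {y : ℝ}
    (hy0 : (S (cL η) (s₀ + I * (Real.pi / 2))).im ≤ y) (hy1 : y < Real.pi / 4) :
    ‖Gp n b (Complex.exp (-(2 * (I * y))))‖
      ≤ Nb n b * Real.exp (-(n * (((1 - (S (cS η) (I * (Real.pi / 2))).re) / 4 - κ) * s₀))) := by
  have him : ((x : ℝ) → ((x : ℂ) + I * (Real.pi / 2)).re = x) := by
    intro x
    rw [Complex.add_re, re_half_pi, add_zero, Complex.ofReal_re]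
  have hcont : ∀ x : ℝ, 0 ≤ x → x < η →
      ContinuousAt (fun x : ℝ => (S (cL η) (x + I * (Real.pi / 2))).im) x := by
    intro x h0 h1
    have c1 : ContinuousAt (S (cL η)) ((x : ℂ) + I * (Real.pi / 2)) :=
      (dec_cL hη).continuousAt (by rw [him x, abs_of_nonneg h0]; exact h1)
    have c2 : ContinuousAt (fun x : ℝ => (x : ℂ) + I * (Real.pi / 2)) x := by fun_prop
    exact Complex.continuous_im.continuousAt.comp
      (ContinuousAt.comp (g := S (cL η)) (f := fun x : ℝ => (x : ℂ) + I * (Real.pi / 2)) c1 c2)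
  -- a point beyond
  obtain ⟨x1, hx1a, hx1b, hx1c⟩ : ∃ x1 : ℝ, s₀ < x1 ∧ x1 < η ∧
      y < (S (cL η) (x1 + I * (Real.pi / 2))).im := by
    have h1 := (tendsto_theta hη).eventually (lt_mem_nhds hy1)
    have h2 : Ioo s₀ η ∈ 𝓝[<] η := Ioo_mem_nhdsLT hs1
    obtain ⟨x1, hx1, hx2⟩ := (h1.and h2).exists
    exact ⟨x1, hx2.1, hx2.2, hx1⟩
  obtain ⟨x, hx, hxy⟩ : ∃ x ∈ Icc s₀ x1, (S (cL η) (x + I * (Real.pi / 2))).im = y := by
    have h3 : ContinuousOn (fun x : ℝ => (S (cL η) (x + I * (Real.pi / 2))).im) (Icc s₀ x1) :=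
      fun x hx => (hcont x (by linarith [hx.1]) (by linarith [hx.2])).continuousWithinAt
    exact intermediate_value_Icc hx1a.le h3 ⟨hy0, hx1c.le⟩
  have h4 := hM n b hF (x + I * (Real.pi / 2)) (by rw [him x]; linarith [hx.1])
    (by rw [him x]; linarith [hx.2])
  rw [L_half_pi, sub_zero, L_eq_theta, hxy] at h4
  refine h4.trans ?_
  apply mul_le_mul_of_nonneg_left _ (Nb_nonneg n b)
  apply Real.exp_le_exp.2
  have h5 := psi_b hη (κ := κ) (fun x h0 h1 => SS_re_le hη (by rw [abs_of_nonneg h0]; exact h1))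
    x (by linarith [hx.1]) (by linarith [hx.2])
  have hn : (0 : ℝ) ≤ n := Nat.cast_nonneg n
  have h6 : (UU η κ (x + I * (Real.pi / 2))).re
      ≤ -(((1 - (S (cS η) (I * (Real.pi / 2))).re) / 4 - κ) * s₀) := by
    have : ((1 - (S (cS η) (I * (Real.pi / 2))).re) / 4 - κ) * s₀
        ≤ ((1 - (S (cS η) (I * (Real.pi / 2))).re) / 4 - κ) * x :=
      mul_le_mul_of_nonneg_left hx.1 (by linarith)
    linarith
  calc (n : ℝ) * (UU η κ (x + I * (Real.pi / 2))).re
      ≤ n * -(((1 - (S (cS η) (I * (Real.pi / 2))).re) / 4 - κ) * s₀) :=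
        mul_le_mul_of_nonneg_left h6 hn
    _ = _ := by ring

/-- THE COEFFICIENT BOUND ON THE FIRST BRANCH from the majorant. -/
theorem coef_I_core {η κ R : ℝ} (hη : 0 < η)
    (hκ : κ < (1 - (S (cS η) (I * (Real.pi / 2))).re) / 4) (hM : M1 η κ R) :
    CoefBound R ((1 - (S (cT η) 0).re / (S (cA η) 0).re) / 2) := by
  obtain ⟨s₀, hs0, hs1, hpsi⟩ := psi_a hη hκ
  obtain ⟨MA, hMA0, hMA⟩ := norm_A_le hη (x := s₀) (by rw [abs_of_pos hs0]; exact hs1)
  set σ₀ := (S (cT η) 0).re / (S (cA η) 0).re with hσ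
  set ε := (1 - (S (cS η) (I * (Real.pi / 2))).re) / 4 - κ with hε
  have hεpos : 0 < ε := by
    rw [hε]
    linarith
  refine ⟨1 + 2 * MA, ε / 2 * s₀, by linarith, by positivity, ?_⟩
  intro n b hb hF k hk hkδ
  have hn : (0 : ℝ) ≤ n := Nat.cast_nonneg n
  have hN := Nb_nonneg n b
  rcases Nat.even_or_odd k with hke | hko
  swap
  · rw [hb k hko, abs_zero]
    positivity
  set E := Nb n b * Real.exp (-(n * (ε / 2 * s₀))) with hE
  have hE0 : 0 ≤ E := by positivity
  set θ := (S (cL η) (s₀ + I * (Real.pi / 2))).im with hθ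
  have hre0 : ((s₀ : ℂ) + I * (Real.pi / 2)).re = s₀ := by
    rw [Complex.add_re, re_half_pi, add_zero, Complex.ofReal_re]
  have him0 : ((s₀ : ℂ) + I * (Real.pi / 2)).im = Real.pi / 2 := by
    rw [Complex.add_im, im_half_pi, Complex.ofReal_im, zero_add]
  have hθ1 : θ ≤ Real.pi / 4 :=
    im_L_le hη (by rw [hre0, abs_of_pos hs0]; exact hs1) (by rw [him0]; positivity)
      (by rw [him0]; linarith [Real.pi_pos])
  have hθ0 : 0 ≤ θ :=
    im_L_nonneg hη (by rw [hre0, abs_of_pos hs0]; exact hs1) (by rw [him0]; positivity)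
      (by rw [him0]; linarith [Real.pi_pos])
  -- arcs
  have harc : ∀ y : ℝ, θ ≤ y → y < Real.pi / 4 → ‖Gp n b (Complex.exp (-(2 * (I * y))))‖ ≤ E := by
    intro y h0 h1
    refine (arc_bound hη hM hs0 hs1 hF hκ h0 h1).trans ?_
    rw [hE]
    apply mul_le_mul_of_nonneg_left _ hN
    apply Real.exp_le_exp.2
    have : 0 ≤ (n : ℝ) * (ε / 2 * s₀) := by positivity
    rw [← hε]
    linarith
  -- segment 1
  have seg1 : ‖Qp n b k (I * (Real.pi / 4 : ℝ)) - Qp n b k (I * (θ : ℝ))‖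
      ≤ E * (Real.pi / 4 - θ) := by
    have hd : ∀ y : ℝ, HasDerivAt (fun y : ℝ => Qp n b k (I * (y : ℂ)))
        (Gp n b (Complex.exp (-(2 * (I * y)))) * Complex.exp (2 * k * (I * y)) * I) y := by
      intro y
      have h1 := hasDerivAt_Qp n b k (I * y)
      have h2 : HasDerivAt (fun y : ℝ => I * (y : ℂ)) I y := by
        have := (Complex.ofRealCLM.hasDerivAt (x := y)).const_mul I
        simpa using this
      have h3 := h1.scomp y h2
      refine h3.congr_deriv ?_
      rw [smul_eq_mul]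
      ring
    have := norm_image_sub_le_of_norm_deriv_right_le_segment (a := θ) (b := Real.pi / 4)
      (f := fun y : ℝ => Qp n b k (I * (y : ℂ)))
      (f' := fun y : ℝ => Gp n b (Complex.exp (-(2 * (I * y)))) * Complex.exp (2 * k * (I * y)) * I)
      (C := E) (fun y _ => (hd y).continuousAt.continuousWithinAt)
      (fun y _ => (hd y).hasDerivWithinAt) (fun y hy => ?_) (Real.pi / 4) ⟨hθ1, le_rfl⟩
    · exact this
    · rw [norm_mul, norm_mul, Complex.norm_I, mul_one]
      have : ‖Complex.exp (2 * k * (I * y))‖ = 1 := by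
        rw [show (2 * k * (I * y) : ℂ) = ((2 * k * y : ℝ) : ℂ) * I by push_cast; ring]
        exact Complex.norm_exp_ofReal_mul_I _
      rw [this, mul_one]
      exact harc y hy.1 hy.2
  -- segment 3
  have seg3 : ‖Qp n b k (-(I * (Real.pi / 4 : ℝ))) - Qp n b k (-(I * (θ : ℝ)))‖
      ≤ E * (Real.pi / 4 - θ) := by
    have hd : ∀ y : ℝ, HasDerivAt (fun y : ℝ => Qp n b k (-(I * (y : ℂ))))
        (Gp n b (Complex.exp (-(2 * -(I * y)))) * Complex.exp (2 * k * -(I * y)) * -I) y := by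
      intro y
      have h1 := hasDerivAt_Qp n b k (-(I * y))
      have h2 : HasDerivAt (fun y : ℝ => -(I * (y : ℂ))) (-I) y := by
        have := ((Complex.ofRealCLM.hasDerivAt (x := y)).const_mul I).fun_neg
        simpa using this
      have h3 := h1.scomp y h2
      refine h3.congr_deriv ?_
      rw [smul_eq_mul]
      ring
    have := norm_image_sub_le_of_norm_deriv_right_le_segment (a := θ) (b := Real.pi / 4)
      (f := fun y : ℝ => Qp n b k (-(I * (y : ℂ))))
      (f' := fun y : ℝ => Gp n b (Complex.exp (-(2 * -(I * y)))) * Complex.exp (2 * k * -(I * y))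
        * -I)
      (C := E) (fun y _ => (hd y).continuousAt.continuousWithinAt)
      (fun y _ => (hd y).hasDerivWithinAt) (fun y hy => ?_) (Real.pi / 4) ⟨hθ1, le_rfl⟩
    · exact this
    · rw [norm_mul, norm_mul, norm_neg, Complex.norm_I, mul_one]
      have e1 : ‖Complex.exp (2 * k * -(I * y))‖ = 1 := by
        rw [show (2 * k * -(I * y) : ℂ) = ((-(2 * k * y) : ℝ) : ℂ) * I by push_cast; ring]
        exact Complex.norm_exp_ofReal_mul_I _
      rw [e1, mul_one]
      have e2 : Complex.exp (-(2 * -(I * y))) = starRingEnd ℂ (Complex.exp (-(2 * (I * y)))) := by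
        rw [← Complex.exp_conj, map_neg, map_mul, map_mul, Complex.conj_I, Complex.conj_ofReal]
        have : (starRingEnd ℂ) 2 = 2 := Complex.conj_ofNat 2
        rw [this]
        congr 1
        ring
      rw [e2, Gp_conj]
      exact harc y hy.1 hy.2
  -- segment 2
  have hLend : S (cL η) (s₀ + ((Real.pi / 2 : ℝ) : ℂ) * I) = I * (θ : ℂ) := by
    have e : (s₀ : ℂ) + ((Real.pi / 2 : ℝ) : ℂ) * I = s₀ + I * (Real.pi / 2) := by
      push_cast
      ring
    rw [e, hθ]
    exact L_eq_theta s₀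
  have hLstart : S (cL η) (s₀ + ((-(Real.pi / 2) : ℝ) : ℂ) * I) = -(I * (θ : ℂ)) := by
    have e : (s₀ : ℂ) + ((-(Real.pi / 2) : ℝ) : ℂ) * I
        = starRingEnd ℂ ((s₀ : ℂ) + ((Real.pi / 2 : ℝ) : ℂ) * I) := by
      rw [map_add, map_mul, Complex.conj_I, Complex.conj_ofReal, Complex.conj_ofReal]
      push_cast
      ring
    rw [e, S_conj, hLend, map_mul, Complex.conj_I, Complex.conj_ofReal]
    ring
  have seg2 : ‖Qp n b k (I * (θ : ℂ)) - Qp n b k (-(I * (θ : ℂ)))‖ ≤ E * MA * Real.pi := by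
    have hre : ∀ t : ℝ, ((s₀ : ℂ) + t * I).re = s₀ := by
      intro t
      simp
    have hd : ∀ t : ℝ, HasDerivAt (fun t : ℝ => Qp n b k (S (cL η) (s₀ + t * I)))
        (Gp n b (Complex.exp (-(2 * S (cL η) (s₀ + t * I))))
          * Complex.exp (2 * k * S (cL η) (s₀ + t * I)) * (S (cA η) (s₀ + t * I) * I)) t := by
      intro t
      have h1 := hasDerivAt_Qp n b k (S (cL η) (s₀ + t * I))
      have h2 : HasDerivAt (fun t : ℝ => (s₀ : ℂ) + t * I) I t := by
        have := ((Complex.ofRealCLM.hasDerivAt (x := t)).mul_const I).const_add (s₀ : ℂ)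
        simpa using this
      have h3 := hasDerivAt_L hη (s := s₀ + t * I) (by rw [hre, abs_of_pos hs0]; exact hs1)
      have h4 := h3.scomp t h2
      have h5 := h1.scomp t h4
      refine h5.congr_deriv ?_
      rw [smul_eq_mul, smul_eq_mul]
      ring
    have := norm_image_sub_le_of_norm_deriv_right_le_segment (a := -(Real.pi / 2))
      (b := Real.pi / 2)
      (f := fun t : ℝ => Qp n b k (S (cL η) (s₀ + t * I)))
      (f' := fun t : ℝ => Gp n b (Complex.exp (-(2 * S (cL η) (s₀ + t * I))))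
          * Complex.exp (2 * k * S (cL η) (s₀ + t * I)) * (S (cA η) (s₀ + t * I) * I))
      (C := E * MA) (fun y _ => (hd y).continuousAt.continuousWithinAt)
      (fun y _ => (hd y).hasDerivWithinAt) (fun t ht => ?_) (Real.pi / 2)
      ⟨by linarith [Real.pi_pos], le_rfl⟩
    · rw [hLend, hLstart] at this
      refine this.trans (le_of_eq ?_)
      ring
    · rw [norm_mul, norm_mul, norm_mul, Complex.norm_I, mul_one]
      apply mul_le_mul _ (hMA t) (norm_nonneg _) hE0
      have ht' : |t| ≤ Real.pi / 2 := abs_le.2 ⟨ht.1, ht.2.le⟩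
      have h1 := hM n b hF (s₀ + t * I) (by rw [hre]; exact hs0.le) (by rw [hre]; exact hs1)
      have h2 : ‖Complex.exp (2 * k * S (cL η) (s₀ + t * I))‖
          = Real.exp (2 * k * (S (cL η) (s₀ + t * I)).re) := by
        rw [Complex.norm_exp, show (2 * (k : ℂ)) = ((2 * k : ℝ) : ℂ) by push_cast; ring,
          Complex.re_ofReal_mul]
      rw [h2]
      have hL0 : 0 ≤ (S (cL η) (s₀ + t * I)).re :=
        re_L_nonneg hη (by rw [hre]; exact hs0.le) (by rw [hre]; exact hs1) (by simpa using ht')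
      have h3 := hpsi t ht'
      calc ‖Gp n b (Complex.exp (-(2 * S (cL η) (s₀ + t * I))))‖
            * Real.exp (2 * k * (S (cL η) (s₀ + t * I)).re)
          ≤ (Nb n b * Real.exp (n * ((UU η κ (s₀ + t * I)).re - (S (cL η) (s₀ + t * I)).re)))
            * Real.exp (2 * k * (S (cL η) (s₀ + t * I)).re) :=
            mul_le_mul_of_nonneg_right h1 (Real.exp_pos _).le
        _ = Nb n b * Real.exp (n * ((UU η κ (s₀ + t * I)).re - (S (cL η) (s₀ + t * I)).re)
              + 2 * k * (S (cL η) (s₀ + t * I)).re) := by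
            rw [mul_assoc, ← Real.exp_add]
        _ ≤ E := by
            rw [hE]
            apply mul_le_mul_of_nonneg_left _ hN
            apply Real.exp_le_exp.2
            have h4 : 2 * k * (S (cL η) (s₀ + t * I)).re
                ≤ (1 - σ₀) * n * (S (cL η) (s₀ + t * I)).re := by
              apply mul_le_mul_of_nonneg_right _ hL0
              linarith
            have h5 : (n : ℝ) * ((UU η κ (s₀ + t * I)).re - σ₀ * (S (cL η) (s₀ + t * I)).re)
                ≤ n * (-ε / 2 * s₀) := by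
              apply mul_le_mul_of_nonneg_left _ hn
              exact h3
            nlinarith [h4, h5]
  -- assembly
  have hQ := Qp_diff n b hb hk hke
  have e1 : I * ((Real.pi / 4 : ℝ) : ℂ) = I * (Real.pi / 4) := by push_cast; ring
  rw [e1] at seg1 seg3
  have hsum : (b k : ℂ) * (I * (Real.pi / 2))
      = (Qp n b k (I * (Real.pi / 4)) - Qp n b k (I * (θ : ℂ)))
        + (Qp n b k (I * (θ : ℂ)) - Qp n b k (-(I * (θ : ℂ))))
        - (Qp n b k (-(I * (Real.pi / 4))) - Qp n b k (-(I * (θ : ℂ)))) := by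
    rw [← hQ]
    ring
  have hnorm : ‖(b k : ℂ) * (I * (Real.pi / 2))‖ = |b k| * (Real.pi / 2) := by
    rw [norm_mul, norm_mul, Complex.norm_I, one_mul, Complex.norm_real, Real.norm_eq_abs]
    rw [show ((Real.pi : ℂ) / 2) = ((Real.pi / 2 : ℝ) : ℂ) by push_cast; ring, Complex.norm_real,
      Real.norm_eq_abs, abs_of_pos (show 0 < Real.pi / 2 by positivity)]
  have htot : |b k| * (Real.pi / 2) ≤ E * (Real.pi / 4 - θ) + E * MA * Real.pi
      + E * (Real.pi / 4 - θ) := by
    rw [← hnorm, hsum]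
    refine (norm_sub_le _ _).trans ?_
    refine add_le_add ((norm_add_le _ _).trans (add_le_add seg1 seg2)) seg3
  have hpi := Real.pi_pos
  have hfin : |b k| * (Real.pi / 2) ≤ ((1 + 2 * MA) * E) * (Real.pi / 2) := by
    have : E * θ ≥ 0 := mul_nonneg hE0 hθ0
    nlinarith
  have := le_of_mul_le_mul_right hfin (by positivity)
  refine this.trans (le_of_eq ?_)
  rw [hE]
  ring

end Pool.Agent.Lib.MP_0430e4_lc.LPLOW
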