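import Pool.Agent.Lib.MP_0430e4_lc.LPLOW.ContI
import Pool.Agent.Lib.MP_0430e4_lc.LPLOW.Pos
import Pool.Agent.Lib.MP_0430e4_lc.Lower.Strip

/-!
# The contour estimate on the second branch
-/

set_option autoImplicit false

namespace Pool.Agent.Lib.MP_0430e4_lc.LPLOW

open Complex Filter Topology Set
open Exact (sech)

namespace BII

open Lower (T T2 ca fa ha KK GG zz f0 Bd Cv)

/-! ## the logarithm of the uniformising map near the outer side -/

noncomputable def cM (η : ℝ) (k : ℤ) : ℝ := if Even k then sech (k * η) / k else 0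

/-- `Lam(u) = log z(η + u)` -/
noncomputable def Lam (η : ℝ) (u : ℂ) : ℂ := u + S (cM η) u

theorem dec_cM {η : ℝ} (hη : 0 < η) : Dec η (cM η) := by
  refine (dec_cO hη).of_le (fun k => ?_)
  unfold cM cO
  split_ifs with hk
  · by_cases hk0 : k = 0
    · subst hk0
      simp only [Int.cast_zero, div_zero, abs_zero]
      positivity
    · have hk1 : (1 : ℝ) ≤ |(k : ℝ)| := by exact_mod_cast Int.one_le_abs hk0
      rw [abs_div]
      exact div_le_self (abs_nonneg _) hk1
  · exact le_rfl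

theorem cM_neg (η : ℝ) (k : ℤ) : cM η (-k) = -cM η k := by
  unfold cM
  simp only [even_neg]
  rw [show ((-k : ℤ) : ℝ) * η = -(k * η) by push_cast; ring, sech_neg]
  split_ifs
  · push_cast
    rw [div_neg]
  · simp

theorem hasDerivAt_Lam {η : ℝ} (hη : 0 < η) {s : ℂ} (hs : |s.re| < η) :
    HasDerivAt (Lam η) (S (cO η) s) s := by
  have h := (dec_cM hη).hasDerivAt hs
  have e : (fun k : ℤ => (k : ℝ) * cM η k)
      = fun k => cO η k + (if k = 0 then (-1 : ℝ) else 0) := by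
    funext k
    unfold cM cO
    by_cases hk0 : k = 0
    · subst hk0
      simp [sech_zero]
    · have hkr : (k : ℝ) ≠ 0 := by exact_mod_cast hk0
      simp only [hk0, if_false, add_zero]
      split_ifs
      · field_simp
      · simp
  rw [e, S_add (dec_cO hη) (Dec.delta η _) hs, S_delta] at h
  have h2 := (hasDerivAt_id' s).add h
  refine h2.congr_deriv ?_
  push_cast
  ring

theorem S_periodic (c : ℤ → ℝ) (s : ℂ) : S c (s + 2 * Real.pi * I) = S c s := by
  unfold S
  congr 1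
  funext k
  rw [mul_add, Complex.exp_add, Complex.exp_int_mul_two_pi_mul_I, mul_one]

theorem Lam_periodic (η : ℝ) (u : ℂ) : Lam η (u + 2 * Real.pi * I) = Lam η u + 2 * Real.pi * I := by
  unfold Lam
  rw [S_periodic]
  ring

theorem Lam_re_imag {η : ℝ} (s : ℂ) (hs : s.re = 0) : (Lam η s).re = 0 := by
  have hc : starRingEnd ℂ s = -s := by
    apply Complex.ext
    · simp [hs]
    · simp
  have h2 := S_conj (cM η) s
  rw [hc, S_neg_odd (cM_neg η)] at h2
  have h3 := congrArg Complex.re h2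
  rw [Complex.neg_re, Complex.conj_re] at h3
  unfold Lam
  rw [Complex.add_re, hs]
  linarith

/-! ## the majorant near the outer side -/

noncomputable def cV (η : ℝ) (k : ℤ) : ℝ :=
  if Even k then (sech (k * η) - sech (k * (η / 2)) ^ 2 / 2) / (2 * k) else 0

/-- `κ u + ∑ …`, the majorant minus its value on the outer side -/
noncomputable def VV (η κ : ℝ) (u : ℂ) : ℂ := κ * u + S (cV η) u

theorem dec_cV {η : ℝ} (hη : 0 < η) : Dec η (cV η) := by
  have h1 := (dec_cO hη).add ((dec_cS hη).const_mul (-(1 / 2)))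
  refine h1.of_le (fun k => ?_)
  unfold cV cO cS
  split_ifs with hk
  · by_cases hk0 : k = 0
    · subst hk0
      simp only [Int.cast_zero, mul_zero, div_zero, abs_zero]
      positivity
    · have hk1 : (1 : ℝ) ≤ |(k : ℝ)| := by exact_mod_cast Int.one_le_abs hk0
      rw [abs_div, abs_mul, abs_of_pos (show (0 : ℝ) < 2 by norm_num)]
      refine (div_le_self (abs_nonneg _) (by linarith)).trans (le_of_eq ?_)
      congr 1
      ring
  · simp

theorem cV_neg (η : ℝ) (k : ℤ) : cV η (-k) = -cV η k := by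
  unfold cV
  simp only [even_neg]
  rw [show ((-k : ℤ) : ℝ) * η = -(k * η) by push_cast; ring, sech_neg,
    show ((-k : ℤ) : ℝ) * (η / 2) = -(k * (η / 2)) by push_cast; ring, sech_neg]
  split_ifs
  · push_cast
    rw [mul_neg, div_neg]
  · simp

theorem hasDerivAt_VV {η : ℝ} (hη : 0 < η) (κ : ℝ) {s : ℂ} (hs : |s.re| < η) :
    HasDerivAt (VV η κ) (κ + (S (cO η) s - 1) / 2 - (S (cS η) s - 1) / 4) s := by
  have h := (dec_cV hη).hasDerivAt hs
  have e : (fun k : ℤ => (k : ℝ) * cV η k)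
      = fun k => (1 / 2 * cO η k + -(1 / 4) * cS η k) + (if k = 0 then (-(1 / 4) : ℝ) else 0) := by
    funext k
    unfold cV cO cS
    by_cases hk0 : k = 0
    · subst hk0
      simp [sech_zero]
      norm_num
    · have hkr : (k : ℝ) ≠ 0 := by exact_mod_cast hk0
      simp only [hk0, if_false, add_zero]
      split_ifs
      · field_simp
        ring
      · simp
  rw [e, S_add (((dec_cO hη).const_mul _).add ((dec_cS hη).const_mul _)) (Dec.delta η _) hs,
    S_add ((dec_cO hη).const_mul _) ((dec_cS hη).const_mul _) hs, S_smul, S_smul, S_delta] at h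
  have h2 : HasDerivAt (fun s : ℂ => (κ : ℂ) * s) (κ : ℂ) s := by
    simpa using (hasDerivAt_id s).const_mul (κ : ℂ)
  refine (h2.add h).congr_deriv ?_
  push_cast
  ring

theorem VV_re_imag {η : ℝ} (κ : ℝ) (s : ℂ) (hs : s.re = 0) : (VV η κ s).re = 0 := by
  have hc : starRingEnd ℂ s = -s := by
    apply Complex.ext
    · simp [hs]
    · simp
  have h2 := S_conj (cV η) s
  rw [hc, S_neg_odd (cV_neg η)] at h2
  have h3 := congrArg Complex.re h2
  rw [Complex.neg_re, Complex.conj_re] at h3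
  unfold VV
  rw [Complex.add_re, Complex.re_ofReal_mul, hs]
  linarith

/-! ## `z(η + u) = exp (Lam u)` -/

theorem zz_add {η : ℝ} (hη : 0 < η) {u : ℂ} (hu : |u.re| < η) :
    zz (Real.exp (-η) ^ 2) (η + u) = Complex.exp (Lam η u) := by
  have hq := Lower.q_pos hη
  have hq1 := Lower.q_lt hη
  obtain ⟨r0, r1⟩ := Lower.rq hq hq1
  have hu' := abs_lt.1 hu
  unfold Lam
  rw [Lower.S_even_eq (fun k hk => by unfold cM; rw [if_neg hk]) u,
    Lower.S_eq_T (Lower.dec_double (dec_cM hη)) (s := 2 * u) (by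
      simp only [Complex.mul_re, Complex.re_ofNat, Complex.im_ofNat, zero_mul, sub_zero]
      rw [abs_mul, abs_of_pos (show (0 : ℝ) < 2 by norm_num)]
      linarith)]
  set q := Real.exp (-η) with hqd
  set r := q ^ 2 with hr
  set t := Complex.exp (2 * u) with ht
  have hti : Complex.exp (-(2 * u)) = t⁻¹ := Complex.exp_neg _
  rw [hti]
  have ht0 : t ≠ 0 := Complex.exp_ne_zero _
  have hrn : r = Real.exp (-(2 * η)) := (Lower.r_eq hη).symm
  have hn2 : r * ‖t‖ < 1 := by
    rw [ht, Lower.norm_exp_two, hrn, ← Real.exp_add, Real.exp_lt_one_iff]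
    linarith [hu'.2]
  have hn3 : r * ‖t⁻¹‖ < 1 := by
    rw [← hti, Complex.norm_exp, hrn, ← Real.exp_add, Real.exp_lt_one_iff]
    simp only [Complex.neg_re, Complex.mul_re, Complex.re_ofNat, Complex.im_ofNat, zero_mul,
      sub_zero]
    linarith [hu'.1]
  have hval : ∀ m : ℕ, cM η (2 * ((m : ℤ) + 1))
      = r ^ (m + 1) / (((m : ℝ) + 1) * (1 + (r ^ (m + 1)) ^ 2)) := by
    intro m
    unfold cM
    rw [if_pos (even_two_mul _)]
    have e1 : ((2 * ((m : ℤ) + 1) : ℤ) : ℝ) * η = 2 * ((m + 1) * η) := by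
      push_cast
      ring
    rw [e1, Lower.sech_two_eq, ← hqd, ← hr]
    push_cast
    have h3 : (m : ℝ) + 1 ≠ 0 := by positivity
    have h4 : 1 + (r ^ (m + 1)) ^ 2 ≠ 0 := by positivity
    field_simp
  -- the argument `e^{2(η+u)} = r⁻¹ t`
  have e1 : Complex.exp (2 * (η + u)) = ((r⁻¹ : ℝ) : ℂ) * t := by
    rw [ht, mul_add, Complex.exp_add, hrn, ← Real.exp_neg, neg_neg]
    push_cast
    rfl
  have e2 : (((r⁻¹ : ℝ) : ℂ) * t)⁻¹ = (r : ℂ) * t⁻¹ := by
    rw [mul_inv]
    push_cast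
    rw [inv_inv]
  have c3 : Cv (fun m => ca r m * r ^ (m + 1)) t⁻¹ := by
    have h : Cv (ca r) ((r : ℂ) * t⁻¹) := by
      apply (Lower.ca_bd r).cv (sq_nonneg r)
      rw [norm_mul, Complex.norm_real, Real.norm_eq_abs, abs_of_pos r0]
      nlinarith
    unfold Cv at *
    refine h.congr (fun m => ?_)
    rw [mul_pow]
    push_cast
    ring
  have c4 : Cv (fun m => r ^ (m + 1) / (m + 1)) t⁻¹ := by
    apply (Lower.log_bd r0.le).cv r0.le hn3
  have I0 : cM η (2 * 0) = 0 := by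
    unfold cM
    simp
  have I1 : T (fun m => cM η (2 * ((m : ℤ) + 1))) t = T (ca r) (((r⁻¹ : ℝ) : ℂ) * t) := by
    rw [Lower.T_scale]
    congr 1
    funext m
    rw [hval]
    unfold ca
    rw [inv_pow]
    have h3 : (m : ℝ) + 1 ≠ 0 := by positivity
    have h4 : 1 + (r ^ (m + 1)) ^ 2 ≠ 0 := by positivity
    have h5 : r ^ (m + 1) ≠ 0 := by positivity
    field_simp
  have I2 : T (fun m => cM η (2 * (-((m : ℤ) + 1)))) t⁻¹
      = T (ca r) ((r : ℂ) * t⁻¹) + ((-1 : ℝ) : ℂ) * T (fun m => r ^ (m + 1) / (m + 1)) t⁻¹ := by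
    rw [Lower.T_scale, ← Lower.T_mul, Lower.T_add c3 (c4.mul (-1))]
    congr 1
    funext m
    have e1 : (2 * (-((m : ℤ) + 1)) : ℤ) = -(2 * ((m : ℤ) + 1)) := by ring
    rw [e1, cM_neg, hval]
    unfold ca
    have h3 : (m : ℝ) + 1 ≠ 0 := by positivity
    have h4 : 1 + (r ^ (m + 1)) ^ 2 ≠ 0 := by positivity
    generalize r ^ (m + 1) = a at *
    field_simp
    ring
  have hsq : √r = q := by rw [hr, Real.sqrt_sq hq.le]
  have hlog : 1 - (r : ℂ) * t⁻¹ = Complex.exp (-T (fun m => r ^ (m + 1) / (m + 1)) t⁻¹) := by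
    apply Lower.T_log
    rw [norm_mul, Complex.norm_real, Real.norm_eq_abs, abs_of_pos r0]
    exact hn3
  have hs : 2 * (q : ℂ) * Complex.sinh (η + u)
      = Complex.exp u * Complex.exp (-T (fun m => r ^ (m + 1) / (m + 1)) t⁻¹) := by
    rw [← hlog, Complex.sinh]
    have f1 : (q : ℂ) * Complex.exp (η + u) = Complex.exp u := by
      rw [hqd, Complex.ofReal_exp, ← Complex.exp_add]
      congr 1
      push_cast
      ring
    have f2 : (q : ℂ) * Complex.exp (-(η + u)) = Complex.exp u * ((r : ℂ) * t⁻¹) := by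
      rw [hqd, hrn, ← hti, Complex.ofReal_exp, Complex.ofReal_exp, ← Complex.exp_add,
        ← Complex.exp_add, ← Complex.exp_add]
      congr 1
      push_cast
      ring
    linear_combination f1 - f2
  unfold zz
  rw [hsq, hs, e1]
  unfold T2
  rw [e2, I0, I1, I2, ← Complex.exp_add, ← Complex.exp_add]
  congr 1
  push_cast
  ring

/-! ## the majorant -/

theorem GG_add {η : ℝ} (hη : 0 < η) (c : ℝ) {u : ℂ} (hu : |u.re| < η) :
    GG (Real.exp (-η) ^ 2) c (η + u)
      = c + VV η ((c - f0 (Real.exp (-η) ^ 2)) / η) u := by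
  have hq := Lower.q_pos hη
  have hq1 := Lower.q_lt hη
  obtain ⟨r0, r1⟩ := Lower.rq hq hq1
  have hu' := abs_lt.1 hu
  unfold VV GG
  rw [Lower.eta_eq hη, Lower.S_even_eq (fun k hk => by unfold cV; rw [if_neg hk]) u,
    Lower.S_eq_T (Lower.dec_double (dec_cV hη)) (s := 2 * u) (by
      simp only [Complex.mul_re, Complex.re_ofNat, Complex.im_ofNat, zero_mul, sub_zero]
      rw [abs_mul, abs_of_pos (show (0 : ℝ) < 2 by norm_num)]
      linarith)]
  set q := Real.exp (-η) with hqd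
  set r := q ^ 2 with hr
  set t := Complex.exp (2 * u) with ht
  have hti : Complex.exp (-(2 * u)) = t⁻¹ := Complex.exp_neg _
  rw [hti]
  have hrn : r = Real.exp (-(2 * η)) := (Lower.r_eq hη).symm
  have hval : ∀ m : ℕ, cV η (2 * ((m : ℤ) + 1))
      = (r ^ (m + 1)) ^ 2 / (((m : ℝ) + 1) * (1 + (r ^ (m + 1)) ^ 2) * (1 + r ^ (m + 1)) ^ 2) := by
    intro m
    unfold cV
    rw [if_pos (even_two_mul _)]
    have e1 : ((2 * ((m : ℤ) + 1) : ℤ) : ℝ) * η = 2 * ((m + 1) * η) := by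
      push_cast
      ring
    have e2 : ((2 * ((m : ℤ) + 1) : ℤ) : ℝ) * (η / 2) = (m + 1) * η := by
      push_cast
      ring
    rw [e1, e2, Lower.sech_two_eq, Lower.sech_sq_eq, ← hqd, ← hr]
    push_cast
    have h3 : (m : ℝ) + 1 ≠ 0 := by positivity
    have h4 : 1 + (r ^ (m + 1)) ^ 2 ≠ 0 := by positivity
    have h5 : 1 + r ^ (m + 1) ≠ 0 := by positivity
    generalize r ^ (m + 1) = a at *
    field_simp
    ring
  have e1 : Complex.exp (2 * (η + u)) = ((r⁻¹ : ℝ) : ℂ) * t := by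
    rw [ht, mul_add, Complex.exp_add, hrn, ← Real.exp_neg, neg_neg]
    push_cast
    rfl
  have e2 : (((r⁻¹ : ℝ) : ℂ) * t)⁻¹ = (r : ℂ) * t⁻¹ := by
    rw [mul_inv]
    push_cast
    rw [inv_inv]
  have I0 : cV η (2 * 0) = 0 := by
    unfold cV
    simp
  have I1 : T (fun m => cV η (2 * ((m : ℤ) + 1))) t
      = T (fun m => (r ^ (m + 1)) ^ 2 * ha r m) (((r⁻¹ : ℝ) : ℂ) * t) := by
    rw [Lower.T_scale]
    congr 1
    funext m
    rw [hval]
    unfold ha
    rw [inv_pow]
    have h3 : (m : ℝ) + 1 ≠ 0 := by positivity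
    have h4 : 1 + (r ^ (m + 1)) ^ 2 ≠ 0 := by positivity
    have h5 : r ^ (m + 1) ≠ 0 := by positivity
    have h6 : 1 + r ^ (m + 1) ≠ 0 := by positivity
    generalize r ^ (m + 1) = a at *
    field_simp
  have I2 : T (fun m => cV η (2 * (-((m : ℤ) + 1)))) t⁻¹
      = ((-1 : ℝ) : ℂ) * T (ha r) ((r : ℂ) * t⁻¹) := by
    rw [Lower.T_scale, ← Lower.T_mul]
    congr 1
    funext m
    have e1 : (2 * (-((m : ℤ) + 1)) : ℤ) = -(2 * ((m : ℤ) + 1)) := by ring
    rw [e1, cV_neg, hval]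
    unfold ha
    have h3 : (m : ℝ) + 1 ≠ 0 := by positivity
    have h4 : 1 + (r ^ (m + 1)) ^ 2 ≠ 0 := by positivity
    have h6 : 1 + r ^ (m + 1) ≠ 0 := by positivity
    generalize r ^ (m + 1) = a at *
    field_simp
  unfold KK
  rw [e1, e2, I0, I1, I2]
  have hηc : (η : ℂ) ≠ 0 := by exact_mod_cast hη.ne'
  push_cast
  field_simp
  ring

/-- THE MAIN BOUND OF BRANCH II. -/
theorem M2 {η : ℝ} (hη : 0 < η) (R : ℝ) (n : ℕ) (b : ℕ → ℝ)
    (hF : ∀ z : ℂ, ‖z‖ ≤ 1 → ‖Fp n b z‖ ≤ Real.exp (n * R) * Nb n b)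
    {u : ℂ} (hu0 : -η < u.re) (hu1 : u.re ≤ 0) :
    ‖Gp n b (Complex.exp (Lam η u))‖
      ≤ Nb n b * Real.exp (n *
        (VV η ((Real.log 2 - R - f0 (Real.exp (-η) ^ 2)) / η) u).re) := by
  have hq := Lower.q_pos hη
  have hq1 := Lower.q_lt hη
  obtain ⟨r0, r1⟩ := Lower.rq hq hq1
  have hu : |u.re| < η := abs_lt.2 ⟨hu0, by linarith⟩
  have hN := Nb_nonneg n b
  have h1 : ∀ z : ℂ, ‖z‖ = 1 → ‖Gp n b z‖
      ≤ (Nb n b * Real.exp (n * (R - Real.log 2))) * Real.exp (n * (Real.log 2 - R)) := by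
    intro z hz
    refine (norm_Gp_le n b hz.le).trans (le_of_eq ?_)
    rw [mul_assoc, ← Real.exp_add]
    have : (n : ℝ) * (R - Real.log 2) + n * (Real.log 2 - R) = 0 := by ring
    rw [this, Real.exp_zero, mul_one]
  have h2 : ∀ y : ℝ, ‖Gp n b ((y : ℂ) * Complex.I)‖
      ≤ (Nb n b * Real.exp (n * (R - Real.log 2))) * √(1 + y ^ 2) ^ n := by
    intro y
    have g1 : ‖(1 : ℂ) - (y : ℂ) * Complex.I‖ = √(1 + y ^ 2) := by
      rw [Complex.norm_eq_sqrt_sq_add_sq]
      congr 1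
      simp
    have g2 : ‖(1 : ℂ) + (y : ℂ) * Complex.I‖ = √(1 + y ^ 2) := by
      rw [Complex.norm_eq_sqrt_sq_add_sq]
      congr 1
      simp
    have g3 : 0 < √(1 + y ^ 2) := by positivity
    have g4 : (1 : ℂ) + (y : ℂ) * Complex.I ≠ 0 := by
      rw [← norm_pos_iff, g2]
      exact g3
    have g5 := Gp_eq n b g4
    have g6 : ‖(1 - (y : ℂ) * Complex.I) / (1 + (y : ℂ) * Complex.I)‖ ≤ 1 := by
      rw [norm_div, g1, g2, div_self g3.ne']
    have g7 := hF _ g6
    have g8 := congrArg norm g5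
    rw [norm_mul, norm_mul, norm_pow, norm_pow, g2, Complex.norm_ofNat] at g8
    have g9 : Real.exp (n * (R - Real.log 2)) = Real.exp (n * R) / 2 ^ n := by
      rw [mul_sub, Real.exp_sub, Real.exp_nat_mul (Real.log 2), Real.exp_log (by norm_num)]
    rw [g9]
    have g10 : (0 : ℝ) < 2 ^ n := by positivity
    have g11 : ‖Gp n b ((y : ℂ) * Complex.I)‖
        = √(1 + y ^ 2) ^ n * ‖Fp n b ((1 - (y : ℂ) * Complex.I) / (1 + (y : ℂ) * Complex.I))‖
          / 2 ^ n := by
      rw [eq_div_iff g10.ne', ← g8]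
      ring
    rw [g11, div_le_iff₀ g10]
    have g12 : √(1 + y ^ 2) ^ n * ‖Fp n b ((1 - (y : ℂ) * Complex.I) / (1 + (y : ℂ) * Complex.I))‖
        ≤ √(1 + y ^ 2) ^ n * (Real.exp (n * R) * Nb n b) :=
      mul_le_mul_of_nonneg_left g7 (by positivity)
    refine g12.trans (le_of_eq ?_)
    field_simp
  have key := Lower.three_lines r0 r1 (Real.log 2 - R) (Lower.Gp_differentiable n b) n h1 h2
    (s := η + u) (by
      simp only [Complex.add_re, Complex.ofReal_re]
      linarith) (by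
      rw [Lower.eta_eq hη]
      simp only [Complex.add_re, Complex.ofReal_re]
      linarith)
  rw [zz_add hη hu, GG_add hη _ hu] at key
  refine key.trans (le_of_eq ?_)
  rw [mul_assoc, ← Real.exp_add]
  congr 2
  rw [Complex.add_re, Complex.ofReal_re]
  ring

/-! ## the estimate near the outer side -/

theorem cE_nonneg (η : ℝ) (k : ℤ) : 0 ≤ cE η k := by
  unfold cE
  split_ifs
  · positivity
  · exact le_rfl

theorem O_zero_pos {η : ℝ} (hη : 0 < η) : 0 < (S (cO η) 0).re := by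
  have h := OO_re_pos hη 0
  simpa using h

/-- near the outer side the majorant minus `θ` times the logarithm decays linearly -/
theorem psi_II {η κ θ : ℝ} (hη : 0 < η)
    (hκ : (1 - (S (cS η) (I * (Real.pi / 2))).re) / 4 < κ)
    (hθ : θ ≤ (1 - (S (cE η) 0).re / (S (cO η) 0).re) / 2) :
    ∃ s₀ : ℝ, 0 < s₀ ∧ s₀ < η ∧ ∀ s : ℝ, 0 < s → s ≤ s₀ → ∀ t : ℝ, 0 ≤ t → t ≤ 2 * Real.pi →
      (VV η κ (((-s : ℝ) : ℂ) + t * I)).re - θ * (Lam η (((-s : ℝ) : ℂ) + t * I)).re
        ≤ -((κ - (1 - (S (cS η) (I * (Real.pi / 2))).re) / 4) / 2 * s) := by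
  set K₁ := (S (cS η) (I * (Real.pi / 2))).re with hK₁
  set ε := κ - (1 - K₁) / 4 with hε
  have hεpos : 0 < ε := by
    rw [hε]
    linarith
  have hO0 := O_zero_pos hη
  let g : ℝ → ℝ → ℝ := fun x t => ((κ : ℂ) + (S (cO η) (x + t * I) - 1) / 2
    - (S (cS η) (x + t * I) - 1) / 4).re - θ * (S (cO η) (x + t * I)).re
  have hg0 : ∀ t : ℝ, ε ≤ g 0 t := by
    intro t
    have h1 := ident_II hη (s := t * I) (by simpa using hη)
    have hO : 0 < (S (cO η) (t * I)).re := by
      rw [mul_comm]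
      exact OO_re_pos hη t
    have hOi : (S (cO η) (t * I)).im = 0 := S_real_imag (cO_neg η) _ (by simp)
    have hEi : (S (cE η) (t * I)).im = 0 := S_real_imag (cE_neg η) _ (by simp)
    have hO0i : (S (cO η) 0).im = 0 := S_real_imag (cO_neg η) _ (by simp)
    have hE : (S (cE η) (t * I)).re ≤ (S (cE η) 0).re :=
      S_re_le (κ := 2 * η) (by linarith) (dec_cE hη) (cE_nonneg η) _ (by simp)
    have h2 := congrArg Complex.re h1
    rw [Complex.mul_re, hOi, hEi, mul_zero, sub_zero] at h2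
    have h3 : (S (cO η) 0 / 2 * (S (cS η) (t * I) + S (cS η) (I * (Real.pi / 2)))).re
        = (S (cO η) 0).re / 2 * ((S (cS η) (t * I)).re + K₁) := by
      have e : S (cO η) 0 / 2 = (((S (cO η) 0).re / 2 : ℝ) : ℂ) := by
        apply Complex.ext
        · simp
        · simp [hO0i]
      rw [e, Complex.re_ofReal_mul, Complex.add_re]
    rw [h3] at h2
    have h4 : ((κ : ℂ) + (S (cO η) (t * I) - 1) / 2 - (S (cS η) (t * I) - 1) / 4).re
        = κ + ((S (cO η) (t * I)).re - 1) / 2 - ((S (cS η) (t * I)).re - 1) / 4 := by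
      simp
    simp only [g, Complex.ofReal_zero, zero_add]
    rw [h4]
    have h5 : ((S (cS η) (t * I)).re + K₁) / 4
        = (S (cE η) (t * I)).re * (S (cO η) (t * I)).re / (2 * (S (cO η) 0).re) := by
      rw [eq_div_iff (by positivity)]
      linarith
    have h6 : (S (cE η) (t * I)).re * (S (cO η) (t * I)).re / (2 * (S (cO η) 0).re)
        ≤ (1 / 2 - θ) * (S (cO η) (t * I)).re := by
      have h7 : (S (cE η) (t * I)).re / (2 * (S (cO η) 0).re) ≤ 1 / 2 - θ := by
        have h8 : (S (cE η) (t * I)).re / (2 * (S (cO η) 0).re)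
            ≤ (S (cE η) 0).re / (2 * (S (cO η) 0).re) :=
          div_le_div_of_nonneg_right hE (by positivity)
        have h9 : (S (cE η) 0).re / (2 * (S (cO η) 0).re)
            = (S (cE η) 0).re / (S (cO η) 0).re / 2 := by
          field_simp
        linarith
      calc _ = (S (cE η) (t * I)).re / (2 * (S (cO η) 0).re) * (S (cO η) (t * I)).re := by ring
        _ ≤ _ := mul_le_mul_of_nonneg_right h7 hO.le
    linarith
  -- uniform continuity
  have hcont : ContinuousOn (fun p : ℝ × ℝ => g p.1 p.2)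
      (Icc (-(η / 2)) (0 : ℝ) ×ˢ Icc (0 : ℝ) (2 * Real.pi)) := by
    intro p hp
    have hre : |((p.1 : ℂ) + p.2 * I).re| < η := by
      simp only [Complex.add_re, Complex.ofReal_re, Complex.mul_re, Complex.I_re, mul_zero,
        Complex.ofReal_im, Complex.I_im, mul_one, sub_self, add_zero]
      exact abs_lt.2 ⟨by linarith [hp.1.1], by linarith [hp.1.2]⟩
    have hmap : ContinuousAt (fun p : ℝ × ℝ => (p.1 : ℂ) + p.2 * I) p := by fun_prop
    have c1 : ContinuousAt (fun p : ℝ × ℝ => S (cS η) ((p.1 : ℂ) + p.2 * I)) p :=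
      ContinuousAt.comp (g := S (cS η)) (f := fun p : ℝ × ℝ => (p.1 : ℂ) + p.2 * I)
        ((dec_cS hη).continuousAt hre) hmap
    have c2 : ContinuousAt (fun p : ℝ × ℝ => S (cO η) ((p.1 : ℂ) + p.2 * I)) p :=
      ContinuousAt.comp (g := S (cO η)) (f := fun p : ℝ × ℝ => (p.1 : ℂ) + p.2 * I)
        ((dec_cO hη).continuousAt hre) hmap
    have c3 : ContinuousAt (fun p : ℝ × ℝ => g p.1 p.2) p := by
      apply ContinuousAt.sub
      · exact Complex.continuous_re.continuousAt.comp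
          (((continuousAt_const).add ((c2.sub continuousAt_const).div_const 2)).sub
            ((c1.sub continuousAt_const).div_const 4))
      · exact continuousAt_const.mul (Complex.continuous_re.continuousAt.comp c2)
    exact c3.continuousWithinAt
  have hK : IsCompact (Icc (-(η / 2)) (0 : ℝ) ×ˢ Icc (0 : ℝ) (2 * Real.pi)) :=
    isCompact_Icc.prod isCompact_Icc
  have huc := hK.uniformContinuousOn_of_continuous hcont
  rw [Metric.uniformContinuousOn_iff] at huc
  obtain ⟨δ, hδ, hδ2⟩ := huc (ε / 2) (by linarith)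
  obtain ⟨s₀, hs0, hs1⟩ := exists_between (lt_min hδ (half_pos hη))
  have hs2 : s₀ < η / 2 := hs1.trans_le (min_le_right _ _)
  have hs3 : s₀ < δ := hs1.trans_le (min_le_left _ _)
  refine ⟨s₀, hs0, by linarith, fun s hsp hss t ht0 ht1 => ?_⟩
  have hgx : ∀ x : ℝ, -s ≤ x → x ≤ 0 → ε / 2 ≤ g x t := by
    intro x hx0 hx1
    have h1 := hδ2 (x, t) ⟨⟨by simp only; linarith, hx1⟩, ⟨ht0, ht1⟩⟩ (0, t)
      ⟨⟨by simp only; linarith, le_rfl⟩, ⟨ht0, ht1⟩⟩ (by
        rw [Prod.dist_eq, dist_self, max_eq_left dist_nonneg, Real.dist_eq, sub_zero,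
          abs_of_nonpos hx1]
        linarith)
    rw [Real.dist_eq] at h1
    have h2 := (abs_lt.1 h1).1
    have h3 := hg0 t
    simp only at h2
    linarith
  have hder : ∀ x ∈ Icc (-s) (0 : ℝ), HasDerivAt
      (fun x : ℝ => (VV η κ (x + t * I)).re - θ * (Lam η (x + t * I)).re - ε / 2 * x)
      (g x t - ε / 2) x := by
    intro x hx
    have hre : |((x : ℂ) + t * I).re| < η := by
      simp only [Complex.add_re, Complex.ofReal_re, Complex.mul_re, Complex.I_re, mul_zero,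
        Complex.ofReal_im, Complex.I_im, mul_one, sub_self, add_zero]
      exact abs_lt.2 ⟨by linarith [hx.1], by linarith [hx.2]⟩
    have d1 := hasDerivAt_re_line (f := VV η κ)
      (f' := fun s => κ + (S (cO η) s - 1) / 2 - (S (cS η) s - 1) / 4) (hasDerivAt_VV hη κ hre)
    have d2 := hasDerivAt_re_line (f := Lam η) (f' := S (cO η)) (hasDerivAt_Lam hη hre)
    have d3 := (d1.sub (d2.const_mul θ)).sub ((hasDerivAt_id' x).const_mul (ε / 2))
    rw [mul_one] at d3
    exact d3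
  have hmono : MonotoneOn (fun x : ℝ => (VV η κ (x + t * I)).re
      - θ * (Lam η (x + t * I)).re - ε / 2 * x) (Icc (-s) 0) := by
    apply monotoneOn_of_deriv_nonneg (convex_Icc (-s) 0)
    · intro x hx
      exact (hder x hx).continuousAt.continuousWithinAt
    · intro x hx
      rw [interior_Icc] at hx
      exact (hder x ⟨hx.1.le, hx.2.le⟩).differentiableAt.differentiableWithinAt
    · intro x hx
      rw [interior_Icc] at hx
      rw [(hder x ⟨hx.1.le, hx.2.le⟩).deriv]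
      have := hgx x hx.1.le hx.2.le
      linarith
  have h1 := hmono ⟨le_rfl, by linarith⟩ ⟨by linarith, le_rfl⟩ (show -s ≤ (0 : ℝ) by linarith)
  simp only [Complex.ofReal_zero, zero_add, mul_zero, sub_zero] at h1
  rw [VV_re_imag κ (t * I : ℂ) (by simp), Lam_re_imag (t * I : ℂ) (by simp)] at h1
  linarith

/-! ## the primitive along the contour -/

/-- primitive of `G(e^l) e^{-kl}` -/
noncomputable def Pp (n : ℕ) (b : ℕ → ℝ) (k : ℕ) (l : ℂ) : ℂ :=
  ∑ j ∈ Finset.range (n + 1), if j = k then (b j : ℂ) * l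
    else (b j : ℂ) * (Complex.exp (((j : ℂ) - k) * l) / ((j : ℂ) - k))

theorem hasDerivAt_Pp (n : ℕ) (b : ℕ → ℝ) (k : ℕ) (l : ℂ) :
    HasDerivAt (Pp n b k) (Gp n b (Complex.exp l) * Complex.exp (-(k * l))) l := by
  have h : ∀ j ∈ Finset.range (n + 1), HasDerivAt (fun l : ℂ => if j = k then (b j : ℂ) * l
      else (b j : ℂ) * (Complex.exp (((j : ℂ) - k) * l) / ((j : ℂ) - k)))
      ((b j : ℂ) * Complex.exp l ^ j * Complex.exp (-(k * l))) l := by
    intro j _
    have e0 : Complex.exp l ^ j * Complex.exp (-(k * l))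
        = Complex.exp (((j : ℂ) - k) * l) := by
      rw [← Complex.exp_nat_mul, ← Complex.exp_add]
      congr 1
      ring
    rw [mul_assoc, e0]
    by_cases hjk : j = k
    · subst hjk
      simp only [if_true, sub_self, zero_mul, Complex.exp_zero, mul_one]
      simpa using (hasDerivAt_id l).const_mul (b j : ℂ)
    · simp only [hjk, if_false]
      have hne : (j : ℂ) - k ≠ 0 := by
        rw [sub_ne_zero]
        exact_mod_cast hjk
      have h1 : HasDerivAt (fun l : ℂ => ((j : ℂ) - k) * l) ((j : ℂ) - k) l := by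
        have := (hasDerivAt_id' l).const_mul ((j : ℂ) - k)
        rwa [mul_one] at this
      have h2 := ((h1.cexp).div_const ((j : ℂ) - k)).const_mul (b j : ℂ)
      refine h2.congr_deriv ?_
      rw [mul_div_assoc, div_self hne, mul_one]
  have h3 := HasDerivAt.fun_sum h
  refine h3.congr_deriv ?_
  unfold Gp
  rw [Finset.sum_mul]

theorem Pp_period (n : ℕ) (b : ℕ → ℝ) {k : ℕ} (hk : k ≤ n) (l : ℂ) :
    Pp n b k (l + 2 * Real.pi * I) - Pp n b k l = b k * (2 * Real.pi * I) := by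
  unfold Pp
  rw [← Finset.sum_sub_distrib, Finset.sum_eq_single k]
  · simp only [if_true]
    ring
  · intro j _ hjk
    simp only [hjk, if_false]
    have e : Complex.exp (((j : ℂ) - k) * (l + 2 * Real.pi * I))
        = Complex.exp (((j : ℂ) - k) * l) := by
      rw [Complex.exp_eq_exp_iff_exists_int]
      refine ⟨(j : ℤ) - k, ?_⟩
      push_cast
      ring
    rw [e, sub_self]
  · intro h
    exact absurd (Finset.mem_range.2 (Nat.lt_succ_of_le hk)) h

/-! ## the coefficient bound -/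

theorem coef_core {η R δ : ℝ} (hη : 0 < η)
    (hκ : (1 - (S (cS η) (I * (Real.pi / 2))).re) / 4
      < (Real.log 2 - R - f0 (Real.exp (-η) ^ 2)) / η)
    (hδ : δ ≤ (1 - (S (cE η) 0).re / (S (cO η) 0).re) / 2)
    (h0 : 0 ≤ (1 - (S (cE η) 0).re / (S (cO η) 0).re) / 2) : CoefBound R δ := by
  set κ := (Real.log 2 - R - f0 (Real.exp (-η) ^ 2)) / η with hκd
  obtain ⟨s₁, hs1, hs1η, H1⟩ := psi_II hη hκ h0
  obtain ⟨s₂, hs2, hs2η, H2⟩ := psi_II hη hκ hδ
  set ε := κ - (1 - (S (cS η) (I * (Real.pi / 2))).re) / 4 with hε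
  have hεpos : 0 < ε := by
    rw [hε]
    linarith
  obtain ⟨s, hs0, hs⟩ := exists_between (lt_min hs1 hs2)
  have hss1 : s ≤ s₁ := (hs.trans_le (min_le_left _ _)).le
  have hss2 : s ≤ s₂ := (hs.trans_le (min_le_right _ _)).le
  have hsη : s < η := by linarith
  have hre : ∀ t : ℝ, |((((-s : ℝ) : ℂ) + t * I)).re| < η := by
    intro t
    simp only [Complex.add_re, Complex.ofReal_re, Complex.mul_re, Complex.I_re, mul_zero,
      Complex.ofReal_im, Complex.I_im, mul_one, sub_self, add_zero]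
    exact abs_lt.2 ⟨by linarith, by linarith⟩
  have hree : ∀ t : ℝ, ((((-s : ℝ) : ℂ) + t * I)).re = -s := by
    intro t
    simp
  have hcO : ContinuousOn (fun t : ℝ => S (cO η) (((-s : ℝ) : ℂ) + t * I))
      (Icc (0 : ℝ) (2 * Real.pi)) := by
    intro t _
    have hmap : ContinuousAt (fun t : ℝ => ((-s : ℝ) : ℂ) + t * I) t := by fun_prop
    exact (ContinuousAt.comp (g := S (cO η)) (f := fun t : ℝ => ((-s : ℝ) : ℂ) + t * I)
      ((dec_cO hη).continuousAt (hre t)) hmap).continuousWithinAt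
  obtain ⟨M, hM⟩ := isCompact_Icc.exists_bound_of_continuousOn hcO
  have hπ := Real.pi_pos
  have hM0 : 0 ≤ M := (norm_nonneg _).trans (hM 0 ⟨le_rfl, by positivity⟩)
  refine ⟨M + 1, ε / 2 * s, by linarith, by positivity, ?_⟩
  intro n b _ hF k hkn hkδ
  have hN := Nb_nonneg n b
  set C := M * Nb n b * Real.exp (-(n * (ε / 2 * s))) with hC
  have hder : ∀ t ∈ Icc (0 : ℝ) (2 * Real.pi), HasDerivWithinAt
      (fun t : ℝ => Pp n b k (Lam η (((-s : ℝ) : ℂ) + t * I)))
      (Gp n b (Complex.exp (Lam η (((-s : ℝ) : ℂ) + t * I)))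
        * Complex.exp (-(k * Lam η (((-s : ℝ) : ℂ) + t * I)))
        * (S (cO η) (((-s : ℝ) : ℂ) + t * I) * I)) (Icc (0 : ℝ) (2 * Real.pi)) t := by
    intro t _
    have h1 : HasDerivAt (fun t : ℝ => ((-s : ℝ) : ℂ) + t * I) I t := by
      have := ((Complex.ofRealCLM.hasDerivAt (x := t)).mul_const I).const_add ((-s : ℝ) : ℂ)
      simpa using this
    have h2 := (hasDerivAt_Lam hη (hre t))
    have h3 : HasDerivAt (fun t : ℝ => Lam η (((-s : ℝ) : ℂ) + t * I))
        (S (cO η) (((-s : ℝ) : ℂ) + t * I) * I) t := by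
      have := HasDerivAt.comp t h2 h1
      exact this
    have h4 := hasDerivAt_Pp n b k (Lam η (((-s : ℝ) : ℂ) + t * I))
    exact (HasDerivAt.comp t h4 h3).hasDerivWithinAt
  have hbound : ∀ t ∈ Icc (0 : ℝ) (2 * Real.pi),
      ‖Gp n b (Complex.exp (Lam η (((-s : ℝ) : ℂ) + t * I)))
        * Complex.exp (-(k * Lam η (((-s : ℝ) : ℂ) + t * I)))
        * (S (cO η) (((-s : ℝ) : ℂ) + t * I) * I)‖ ≤ C := by
    intro t ht
    have b1 := M2 hη R n b hF (u := ((-s : ℝ) : ℂ) + t * I) (by rw [hree]; linarith)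
      (by rw [hree]; linarith)
    rw [← hκd] at b1
    have b2 := hM t ht
    have b3 := H1 s hs0 hss1 t ht.1 ht.2
    have b4 := H2 s hs0 hss2 t ht.1 ht.2
    have hn0 : (0 : ℝ) ≤ n := Nat.cast_nonneg n
    have hk0 : (0 : ℝ) ≤ k := Nat.cast_nonneg k
    set V := (VV η κ (((-s : ℝ) : ℂ) + t * I)).re with hV
    set L := (Lam η (((-s : ℝ) : ℂ) + t * I)).re with hL
    have e1 : ‖Complex.exp (-(k * Lam η (((-s : ℝ) : ℂ) + t * I)))‖ = Real.exp (-(k * L)) := by
      rw [Complex.norm_exp, Complex.neg_re]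
      congr 2
      rw [show ((k : ℕ) : ℂ) = ((k : ℝ) : ℂ) by push_cast; rfl, Complex.re_ofReal_mul]
    rw [norm_mul, norm_mul, norm_mul, Complex.norm_I, mul_one, e1]
    have e2 : (n : ℝ) * V - k * L ≤ -(n * (ε / 2 * s)) := by
      rcases le_or_gt 0 L with hL0 | hL0
      · have f1 : 0 ≤ (k : ℝ) * L := mul_nonneg hk0 hL0
        have f2 : (n : ℝ) * V ≤ n * (-(ε / 2 * s)) := mul_le_mul_of_nonneg_left (by linarith) hn0
        linarith
      · have f1 : (k : ℝ) * (-L) ≤ δ * n * (-L) := mul_le_mul_of_nonneg_right hkδ (by linarith)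
        have f2 : (n : ℝ) * (V - δ * L) ≤ n * (-(ε / 2 * s)) := mul_le_mul_of_nonneg_left b4 hn0
        linarith
    have e3 : Real.exp (n * V) * Real.exp (-(k * L)) ≤ Real.exp (-(n * (ε / 2 * s))) := by
      rw [← Real.exp_add]
      apply Real.exp_le_exp.2
      linarith
    have p1 := Real.exp_pos (-(k * L))
    calc ‖Gp n b (Complex.exp (Lam η (((-s : ℝ) : ℂ) + t * I)))‖ * Real.exp (-(k * L))
          * ‖S (cO η) (((-s : ℝ) : ℂ) + t * I)‖
        ≤ (Nb n b * Real.exp (n * V)) * Real.exp (-(k * L)) * M := by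
          apply mul_le_mul _ b2 (norm_nonneg _) (by positivity)
          exact mul_le_mul_of_nonneg_right b1 p1.le
      _ = M * Nb n b * (Real.exp (n * V) * Real.exp (-(k * L))) := by ring
      _ ≤ C := mul_le_mul_of_nonneg_left e3 (by positivity)
  have key := (convex_Icc (0 : ℝ) (2 * Real.pi)).norm_image_sub_le_of_norm_hasDerivWithin_le
    hder hbound (x := 0) (y := 2 * Real.pi) ⟨le_rfl, by positivity⟩ ⟨by positivity, le_rfl⟩
  have e1 : Lam η (((-s : ℝ) : ℂ) + ((2 * Real.pi : ℝ) : ℂ) * I)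
      = Lam η (((-s : ℝ) : ℂ) + ((0 : ℝ) : ℂ) * I) + 2 * Real.pi * I := by
    rw [← Lam_periodic]
    congr 1
    push_cast
    ring
  rw [e1, Pp_period n b hkn] at key
  have e2 : ‖(b k : ℂ) * (2 * Real.pi * I)‖ = |b k| * (2 * Real.pi) := by
    rw [norm_mul, norm_mul, norm_mul, Complex.norm_I, Complex.norm_real, Complex.norm_real,
      Real.norm_eq_abs, Real.norm_eq_abs, abs_of_pos hπ, Complex.norm_ofNat]
    ring
  have e3 : ‖(2 * Real.pi : ℝ) - 0‖ = 2 * Real.pi := by
    rw [sub_zero, Real.norm_eq_abs, abs_of_pos (by positivity)]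
  rw [e2, e3] at key
  have h1 : |b k| ≤ C := le_of_mul_le_mul_right key (by positivity)
  refine h1.trans ?_
  rw [hC]
  apply mul_le_mul_of_nonneg_right _ (Real.exp_pos _).le
  exact mul_le_mul_of_nonneg_right (by linarith) hN

end BII

end Pool.Agent.Lib.MP_0430e4_lc.LPLOW
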