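import Pool.Agent.Lib.MP_0430e4_lc.LPLOW.Ident

/-!
# The maximum principle on rectangles
-/

set_option autoImplicit false

namespace Pool.Agent.Lib.MP_0430e4_lc.LPLOW

open Complex Filter Topology Set
open Exact (sech)

theorem cL_neg (η : ℝ) (k : ℤ) : cL η (-k) = -cL η k := by
  unfold cL
  simp only [odd_neg]
  rw [show ((-k : ℤ) : ℝ) * η = -(k * η) by push_cast; ring, sech_neg]
  split_ifs
  · push_cast
    rw [mul_neg, div_neg]
  · simp

theorem im_sinh_eq (s : ℂ) :
    (Complex.exp s - Complex.exp (-s)).im = 2 * (Real.cosh s.re * Real.sin s.im) := by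
  rw [Complex.sub_im, Complex.exp_im, Complex.exp_im, Complex.neg_im, Complex.neg_re,
    Real.sin_neg, Real.cosh_eq]
  ring

theorem hasSum_im_L {η : ℝ} (hη : 0 < η) {s : ℂ} (hs : |s.re| < η) :
    HasSum (fun k : ℤ => cL η k * (Real.cosh (k * s.re) * Real.sin (k * s.im)))
      (S (cL η) s).im := by
  have h1 := ((dec_cL hη).summable hs).hasSum
  have h2 := ((dec_cL hη).summable (s := -s) (by simpa using hs)).hasSum
  have h3 : (∑' k : ℤ, (cL η k : ℂ) * Complex.exp (k * -s)) = -S (cL η) s :=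
    S_neg_odd (cL_neg η) s
  rw [h3] at h2
  have h4 := (h1.sub h2).mul_left (1 / 2 : ℂ)
  have e1 : (1 / 2 : ℂ) * ((∑' k : ℤ, (cL η k : ℂ) * Complex.exp (k * s)) - -S (cL η) s)
      = S (cL η) s := by
    unfold S
    ring
  rw [e1] at h4
  refine (Complex.hasSum_im h4).congr_fun (fun k => ?_)
  have e2 : (1 / 2 : ℂ) * ((cL η k : ℂ) * Complex.exp (k * s)
      - (cL η k : ℂ) * Complex.exp (k * -s))
      = ((cL η k / 2 : ℝ) : ℂ) * (Complex.exp (k * s) - Complex.exp (-(k * s))) := by
    rw [mul_neg]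
    push_cast
    ring
  rw [e2, Complex.im_ofReal_mul, im_sinh_eq]
  simp
  ring

/-! ## the boundary function -/

noncomputable def cg (τ : ℝ) (k : ℤ) : ℝ :=
  if Odd k then Real.exp (-(|(k : ℝ)| * τ)) / (2 * k) else 0

theorem arg_eq_arctan' {u : ℂ} (hu : 0 < u.re) : u.arg = Real.arctan (u.im / u.re) := by
  rw [← Complex.tan_arg]
  have := Complex.abs_arg_lt_pi_div_two_iff.2 (Or.inl hu)
  rw [abs_lt] at this
  exact (Real.arctan_tan this.1 this.2).symm

theorem arg_sub_arg {z : ℂ} (hz : z.re ^ 2 + z.im ^ 2 < 1) :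
    (1 + z).arg - (1 - z).arg = Real.arctan (2 * z.im / (1 - (z.re ^ 2 + z.im ^ 2))) := by
  have h1 : z.re ^ 2 < 1 := by nlinarith [sq_nonneg z.im]
  have h2 : |z.re| < 1 := by
    rw [← Real.sqrt_sq_eq_abs]
    rw [Real.sqrt_lt' one_pos]
    linarith
  have h3 := abs_lt.1 h2
  have hp1 : 0 < (1 + z).re := by
    rw [Complex.add_re, Complex.one_re]
    linarith
  have hp2 : 0 < (1 - z).re := by
    rw [Complex.sub_re, Complex.one_re]
    linarith
  rw [arg_eq_arctan' hp1, arg_eq_arctan' hp2]
  have e8 : (1 - z).im / (1 - z).re = -(z.im / (1 - z.re)) := by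
    rw [Complex.sub_im, Complex.one_im, Complex.sub_re, Complex.one_re]
    ring
  have e9 : (1 + z).im / (1 + z).re = z.im / (1 + z.re) := by
    rw [Complex.add_im, Complex.one_im, Complex.add_re, Complex.one_re]
    ring
  rw [e8, e9, Real.arctan_neg, sub_neg_eq_add]
  have q1 : 0 < 1 + z.re := by linarith
  have q2 : 0 < 1 - z.re := by linarith
  have hprod : z.im / (1 + z.re) * (z.im / (1 - z.re)) < 1 := by
    rw [div_mul_div_comm, div_lt_one (mul_pos q1 q2)]
    nlinarith
  rw [Real.arctan_add hprod]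
  congr 1
  have q3 : (1 : ℝ) - (z.re ^ 2 + z.im ^ 2) ≠ 0 := by linarith
  have q4 : 1 - z.im / (1 + z.re) * (z.im / (1 - z.re))
      = (1 - (z.re ^ 2 + z.im ^ 2)) / ((1 + z.re) * (1 - z.re)) := by
    field_simp
    ring
  rw [q4]
  field_simp
  ring

theorem hasSum_log_odd {z : ℂ} (hz : ‖z‖ < 1) :
    HasSum (fun n : ℕ => if Odd n then (z ^ n).im / (2 * n) else 0)
      (((1 + z).arg - (1 - z).arg) / 4) := by
  have h1 := Complex.hasSum_taylorSeries_log hz
  have h2 := Complex.hasSum_taylorSeries_neg_log hz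
  have h3 := (Complex.hasSum_im ((h1.add h2).mul_left (1 / 4 : ℂ)))
  have e7 : ((1 / 4 : ℂ) * (Complex.log (1 + z) + -Complex.log (1 - z))).im
      = ((1 + z).arg - (1 - z).arg) / 4 := by
    rw [show (1 / 4 : ℂ) = ((1 / 4 : ℝ) : ℂ) by push_cast; ring, Complex.im_ofReal_mul,
      Complex.add_im, Complex.neg_im, Complex.log_im, Complex.log_im]
    ring
  rw [e7] at h3
  refine h3.congr_fun (fun n => ?_)
  rcases Nat.even_or_odd n with he | ho
  · have e1 : ((-1 : ℂ)) ^ (n + 1) = -1 := by
      rw [pow_succ, he.neg_one_pow]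
      ring
    rw [e1, if_neg (Nat.not_odd_iff_even.2 he)]
    have : (1 / 4 : ℂ) * (-1 * z ^ n / n + z ^ n / n) = 0 := by ring
    rw [this, Complex.zero_im]
  · have e1 : ((-1 : ℂ)) ^ (n + 1) = 1 := by
      rw [pow_succ, ho.neg_one_pow]
      ring
    rw [e1, if_pos ho]
    have e3 : (1 / 4 : ℂ) * (1 * z ^ n / n + z ^ n / n) = ((1 / (2 * n) : ℝ) : ℂ) * z ^ n := by
      push_cast
      ring
    rw [e3, Complex.im_ofReal_mul]
    ring

theorem hasSum_g {τ : ℝ} (hτ : 0 < τ) (t : ℝ) :
    HasSum (fun k : ℤ => cg τ k * Real.sin (k * t)) (Real.arctan (Real.sin t / Real.sinh τ) / 2) := by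
  obtain ⟨z, hz⟩ : ∃ z : ℂ, z = Complex.exp (-τ + t * I) := ⟨_, rfl⟩
  have hzn : ‖z‖ < 1 := by
    rw [hz, Complex.norm_exp]
    simp [hτ]
  have hzpow : ∀ n : ℕ, (z ^ n).im = Real.exp (-(n * τ)) * Real.sin (n * t) := by
    intro n
    rw [hz, ← Complex.exp_nat_mul, Complex.exp_im]
    simp
  have hzr : z.re = Real.exp (-τ) * Real.cos t := by
    rw [hz, Complex.exp_re]
    simp
  have hzi : z.im = Real.exp (-τ) * Real.sin t := by
    rw [hz, Complex.exp_im]
    simp
  have h3 := hasSum_log_odd hzn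
  clear hz
  have key : ∀ n : ℕ, cg τ n * Real.sin (((n : ℤ) : ℝ) * t)
      = if Odd n then (z ^ n).im / (2 * n) else 0 := by
    intro n
    unfold cg
    simp only [Int.odd_coe_nat]
    split_ifs with ho
    · rw [hzpow]
      simp only [Int.cast_natCast, Nat.abs_cast]
      ring
    · ring
  have h4 : HasSum (fun n : ℕ => cg τ n * Real.sin (((n : ℤ) : ℝ) * t))
      (((1 + z).arg - (1 - z).arg) / 4) := h3.congr_fun key
  have h5 : HasSum (fun n : ℕ => cg τ (-n) * Real.sin (((-n : ℤ) : ℝ) * t))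
      (((1 + z).arg - (1 - z).arg) / 4) := by
    refine h4.congr_fun (fun n => ?_)
    unfold cg
    simp only [odd_neg]
    split_ifs
    · rw [show ((-n : ℤ) : ℝ) * t = -(((n : ℤ) : ℝ) * t) by push_cast; ring, Real.sin_neg]
      rw [show ((-n : ℤ) : ℝ) = -((n : ℤ) : ℝ) by push_cast; ring, abs_neg]
      rw [mul_neg, mul_neg, div_neg]
      ring
    · simp
  have h6 := HasSum.of_nat_of_neg (f := fun k : ℤ => cg τ k * Real.sin (k * t)) h4 h5
  have e0 : cg τ 0 * Real.sin (((0 : ℤ) : ℝ) * t) = 0 := by simp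
  rw [e0, sub_zero] at h6
  have hρ : Real.cos t ^ 2 + Real.sin t ^ 2 = 1 := Real.cos_sq_add_sin_sq t
  have hsq : z.re ^ 2 + z.im ^ 2 = Real.exp (-τ) ^ 2 := by
    rw [hzr, hzi]
    linear_combination (Real.exp (-τ) ^ 2) * hρ
  have hlt : z.re ^ 2 + z.im ^ 2 < 1 := by
    rw [hsq]
    have h1 : Real.exp (-τ) < 1 := by
      rw [Real.exp_lt_one_iff]
      linarith
    have h0 := Real.exp_pos (-τ)
    nlinarith
  have e7 := arg_sub_arg hlt
  rw [hsq, hzi] at e7
  have e10 : 2 * (Real.exp (-τ) * Real.sin t) / (1 - Real.exp (-τ) ^ 2)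
      = Real.sin t / Real.sinh τ := by
    rw [Real.sinh_eq]
    have h1 : Real.exp τ * Real.exp (-τ) = 1 := by
      rw [← Real.exp_add]
      simp
    have h2 : Real.exp τ - Real.exp (-τ) ≠ 0 := by
      have : Real.exp (-τ) < Real.exp τ := Real.exp_lt_exp.2 (by linarith)
      linarith
    have h3 : (1 : ℝ) - Real.exp (-τ) ^ 2 ≠ 0 := by
      rw [hsq] at hlt
      linarith
    rw [div_eq_div_iff h3 (by
      intro h
      apply h2
      linarith)]
    linear_combination Real.sin t * h1
  rw [e10] at e7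
  have e11 : ((1 + z).arg - (1 - z).arg) / 4 + ((1 + z).arg - (1 - z).arg) / 4
      = Real.arctan (Real.sin t / Real.sinh τ) / 2 := by
    rw [e7]
    ring
  rw [e11] at h6
  exact h6

/-! ## behaviour near the right side -/

/-- the constant in the boundary estimate -/
noncomputable def Cb (η : ℝ) : ℝ := ∑' k : ℤ, Real.exp (-η * |(k : ℝ)|)

theorem Cb_nonneg (η : ℝ) : 0 ≤ Cb η := tsum_nonneg fun _ => (Real.exp_pos _).le

theorem sinh_le_mul_exp {x : ℝ} (hx : 0 ≤ x) : Real.sinh x ≤ x * Real.exp x := by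
  have h1 := Real.add_one_le_exp (-(2 * x))
  have h2 : Real.exp (-x) = Real.exp x * Real.exp (-(2 * x)) := by
    rw [← Real.exp_add]
    congr 1
    ring
  rw [Real.sinh_eq, h2]
  have h3 := Real.exp_pos x
  nlinarith

theorem diff_bound {η τ : ℝ} (hη : 0 < η) (hτ : 0 < τ) (hτη : τ ≤ η) (k : ℤ) (hk : Odd k) :
    |sech (k * η) * Real.cosh (k * (η - τ)) - Real.exp (-(|(k : ℝ)| * τ))|
      ≤ 2 * |(k : ℝ)| * (τ * Real.exp (-η * |(k : ℝ)|)) := by
  have hy : 0 ≤ |(k : ℝ)| := abs_nonneg _
  generalize hK : |(k : ℝ)| = y at *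
  have e1 : sech (k * η) = sech (y * η) := by
    unfold sech
    rw [← Real.cosh_abs (k * η), abs_mul, hK, abs_of_pos hη]
  have e2 : Real.cosh (k * (η - τ)) = Real.cosh (y * (η - τ)) := by
    rw [← Real.cosh_abs (k * (η - τ)), abs_mul, hK, abs_of_nonneg (by linarith)]
  rw [e1, e2]
  have hc := Real.cosh_pos (y * η)
  have e3 : sech (y * η) * Real.cosh (y * (η - τ)) - Real.exp (-(y * τ))
      = Real.sinh (y * τ) * (Real.exp (-(y * η)) * sech (y * η)) := by
    unfold sech
    rw [mul_sub, Real.cosh_sub]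
    have h1 : Real.exp (-(y * τ)) = Real.cosh (y * τ) - Real.sinh (y * τ) := by
      rw [Real.cosh_sub_sinh]
    have h2 : Real.exp (-(y * η)) = Real.cosh (y * η) - Real.sinh (y * η) := by
      rw [Real.cosh_sub_sinh]
    rw [h1, h2]
    field_simp
    ring
  rw [e3]
  have s1 : 0 ≤ Real.sinh (y * τ) := Real.sinh_nonneg_iff.2 (by positivity)
  have s2 := sech_pos (y * η)
  rw [abs_of_nonneg (by positivity)]
  have s3 : Real.sinh (y * τ) ≤ y * τ * Real.exp (y * η) := by
    refine (sinh_le_mul_exp (by positivity)).trans ?_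
    apply mul_le_mul_of_nonneg_left _ (by positivity)
    exact Real.exp_le_exp.2 (mul_le_mul_of_nonneg_left hτη hy)
  have s4 : sech (y * η) ≤ 2 * Real.exp (-(y * η)) := by
    have := sech_le (y * η)
    rwa [abs_of_nonneg (by positivity)] at this
  calc Real.sinh (y * τ) * (Real.exp (-(y * η)) * sech (y * η))
      ≤ (y * τ * Real.exp (y * η)) * (Real.exp (-(y * η)) * (2 * Real.exp (-(y * η)))) := by
        apply mul_le_mul s3 _ (by positivity) (by positivity)
        exact mul_le_mul_of_nonneg_left s4 (Real.exp_pos _).le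
    _ = 2 * y * τ * (Real.exp (y * η) * Real.exp (-(y * η))) * Real.exp (-(y * η)) := by ring
    _ = _ := by
        rw [← Real.exp_add]
        simp
        ring_nf

theorem im_L_near {η τ : ℝ} (hη : 0 < η) (hτ : 0 < τ) (hτη : τ ≤ η) {s : ℂ}
    (hs : |s.re| = η - τ) :
    |(S (cL η) s).im - Real.arctan (Real.sin s.im / Real.sinh τ) / 2| ≤ τ * Cb η := by
  have h1 := hasSum_im_L hη (s := s) (by rw [hs]; linarith)
  have h2 := hasSum_g hτ s.im
  have h3 := h1.sub h2
  have hsum : Summable (fun k : ℤ => τ * Real.exp (-η * |(k : ℝ)|)) :=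
    (summable_exp_int hη).mul_left τ
  have hb : ∀ k : ℤ, ‖cL η k * (Real.cosh (k * s.re) * Real.sin (k * s.im))
      - cg τ k * Real.sin (k * s.im)‖ ≤ τ * Real.exp (-η * |(k : ℝ)|) := by
    intro k
    rw [Real.norm_eq_abs]
    by_cases hk : Odd k
    · have hk0 : (k : ℝ) ≠ 0 := by
        have : k ≠ 0 := by
          rintro rfl
          simp at hk
        exact_mod_cast this
      have hk1 : 0 < |(k : ℝ)| := abs_pos.2 hk0
      have e0 : Real.cosh (k * s.re) = Real.cosh (k * (η - τ)) := by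
        rw [← Real.cosh_abs (k * s.re), ← Real.cosh_abs (k * (η - τ)), abs_mul, abs_mul, hs,
          abs_of_nonneg (show (0 : ℝ) ≤ η - τ by linarith)]
      have e1 : cL η k * (Real.cosh (k * s.re) * Real.sin (k * s.im))
          - cg τ k * Real.sin (k * s.im)
          = (sech (k * η) * Real.cosh (k * (η - τ)) - Real.exp (-(|(k : ℝ)| * τ)))
            * (Real.sin (k * s.im) / (2 * k)) := by
        unfold cL cg
        rw [if_pos hk, if_pos hk, e0]
        field_simp
      rw [e1, abs_mul]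
      have e2 := diff_bound hη hτ hτη k hk
      have e3 : |Real.sin (k * s.im) / (2 * k)| ≤ 1 / (2 * |(k : ℝ)|) := by
        rw [abs_div, abs_mul, abs_of_pos (show (0 : ℝ) < 2 by norm_num)]
        exact div_le_div_of_nonneg_right (Real.abs_sin_le_one _) (by positivity)
      calc _ ≤ (2 * |(k : ℝ)| * (τ * Real.exp (-η * |(k : ℝ)|))) * (1 / (2 * |(k : ℝ)|)) :=
            mul_le_mul e2 e3 (abs_nonneg _) (by positivity)
        _ = _ := by
            field_simp
    · have e1 : cL η k = 0 := by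
        unfold cL
        rw [if_neg hk]
      have e2 : cg τ k = 0 := by
        unfold cg
        rw [if_neg hk]
      rw [e1, e2]
      simp only [zero_mul, sub_zero, abs_zero]
      positivity
  have h4 := tsum_of_norm_bounded hsum.hasSum hb
  rw [h3.tsum_eq, Real.norm_eq_abs] at h4
  refine h4.trans (le_of_eq ?_)
  unfold Cb
  rw [tsum_mul_left]

/-! ## the maximum principle -/

/-- the maximum principle for the imaginary part on a closed rectangle -/
theorem im_le_of_frontier {f : ℂ → ℂ} {a b c d M : ℝ} (hab : a < b) (hcd : c < d)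
    (hf : ∀ s : ℂ, a ≤ s.re → s.re ≤ b → c ≤ s.im → s.im ≤ d → DifferentiableAt ℂ f s)
    (h1 : ∀ s : ℂ, s.re = a ∨ s.re = b → c ≤ s.im → s.im ≤ d → (f s).im ≤ M)
    (h2 : ∀ s : ℂ, s.im = c ∨ s.im = d → a ≤ s.re → s.re ≤ b → (f s).im ≤ M)
    {s : ℂ} (ha : a ≤ s.re) (hb : s.re ≤ b) (hc : c ≤ s.im) (hd : s.im ≤ d) : (f s).im ≤ M := by
  have hU : closure (Ioo a b ×ℂ Ioo c d) = Icc a b ×ℂ Icc c d := by
    rw [Complex.closure_reProdIm, closure_Ioo hab.ne, closure_Ioo hcd.ne]
  have hbd : Bornology.IsBounded (Ioo a b ×ℂ Ioo c d) :=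
    (Metric.isBounded_Ioo a b).reProdIm (Metric.isBounded_Ioo c d)
  have hdiff : DiffContOnCl ℂ (fun s => Complex.exp (-(I * f s))) (Ioo a b ×ℂ Ioo c d) := by
    have hd' : ∀ s ∈ closure (Ioo a b ×ℂ Ioo c d),
        DifferentiableAt ℂ (fun s => Complex.exp (-(I * f s))) s := by
      intro s hs
      rw [hU, Complex.mem_reProdIm] at hs
      exact ((hf s hs.1.1 hs.1.2 hs.2.1 hs.2.2).const_mul I).neg.cexp
    refine ⟨fun s hs => (hd' s (subset_closure hs)).differentiableWithinAt, fun s hs =>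
      (hd' s hs).continuousAt.continuousWithinAt⟩
  have hnorm : ∀ s : ℂ, ‖Complex.exp (-(I * f s))‖ = Real.exp (f s).im := by
    intro s
    rw [Complex.norm_exp]
    simp
  have hC : ∀ z ∈ frontier (Ioo a b ×ℂ Ioo c d), ‖Complex.exp (-(I * f z))‖ ≤ Real.exp M := by
    intro z hz
    rw [hnorm]
    apply Real.exp_le_exp.2
    rw [Complex.frontier_reProdIm, closure_Ioo hab.ne, closure_Ioo hcd.ne, frontier_Ioo hab,
      frontier_Ioo hcd] at hz
    rcases hz with hz | hz
    · rw [Complex.mem_reProdIm] at hz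
      exact h2 z (by simpa using hz.2) hz.1.1 hz.1.2
    · rw [Complex.mem_reProdIm] at hz
      exact h1 z (by simpa using hz.1) hz.2.1 hz.2.2
  have hz : s ∈ closure (Ioo a b ×ℂ Ioo c d) := by
    rw [hU, Complex.mem_reProdIm]
    exact ⟨⟨ha, hb⟩, ⟨hc, hd⟩⟩
  have := Complex.norm_le_of_forall_mem_frontier_norm_le hbd hdiff hC hz
  rw [hnorm] at this
  exact Real.exp_le_exp.1 this

theorem hasDerivAt_L {η : ℝ} (hη : 0 < η) {s : ℂ} (hs : |s.re| < η) :
    HasDerivAt (S (cL η)) (S (cA η) s) s := by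
  have h := (dec_cL hη).hasDerivAt hs
  have e : (fun k : ℤ => (k : ℝ) * cL η k) = cA η := by
    funext k
    unfold cL cA
    split_ifs with hk
    · have hk0 : (k : ℝ) ≠ 0 := by
        have : k ≠ 0 := by
          rintro rfl
          simp at hk
        exact_mod_cast this
      field_simp
    · simp
  rwa [e] at h

theorem L_im_zero {η : ℝ} {x : ℝ} (hη : 0 < η) (hx : |x| < η) (s : ℂ) (hs : s.re = x)
    (hi : s.im = 0 ∨ s.im = Real.pi) : (S (cL η) s).im = 0 := by
  have h := hasSum_im_L hη (s := s) (by rwa [hs])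
  have e : ∀ k : ℤ, cL η k * (Real.cosh (k * s.re) * Real.sin (k * s.im)) = 0 := by
    intro k
    have : Real.sin (k * s.im) = 0 := by
      rcases hi with hi | hi
      · rw [hi]
        simp
      · rw [hi]
        exact Real.sin_int_mul_pi k
    rw [this]
    ring
  simp only [e] at h
  exact (h.unique hasSum_zero)

/-- `0 ≤ Im L` in the upper half of the period. -/
theorem im_L_nonneg {η : ℝ} (hη : 0 < η) {s : ℂ} (hs : |s.re| < η) (h0 : 0 ≤ s.im)
    (h1 : s.im ≤ Real.pi) : 0 ≤ (S (cL η) s).im := by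
  have key : ∀ τ : ℝ, 0 < τ → τ < η - |s.re| → -(τ * Cb η) ≤ (S (cL η) s).im := by
    intro τ hτ hτ2
    have hτη : τ ≤ η := by linarith [abs_nonneg s.re]
    have hre := abs_le.1 (show |s.re| ≤ η - τ by linarith)
    have hpos : 0 < η - τ := by linarith [abs_nonneg s.re]
    have := im_le_of_frontier (f := fun s => -S (cL η) s) (a := -(η - τ)) (b := η - τ) (c := 0)
      (d := Real.pi) (M := τ * Cb η) (by linarith) Real.pi_pos ?_ ?_ ?_ (s := s) (by linarith)
      hre.2 h0 h1
    · rw [Complex.neg_im] at this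
      linarith
    · intro s ha hb _ _
      exact (hasDerivAt_L hη (abs_lt.2 ⟨by linarith, by linarith⟩)).differentiableAt.neg
    · intro s hab hc hd
      rw [Complex.neg_im]
      have habs : |s.re| = η - τ := by
        rcases hab with h | h
        · rw [h, abs_neg, abs_of_nonneg hpos.le]
        · rw [h, abs_of_nonneg hpos.le]
      have h4 := abs_le.1 (im_L_near hη hτ hτη habs)
      have h5 : 0 ≤ Real.arctan (Real.sin s.im / Real.sinh τ) := by
        rw [Real.arctan_nonneg]
        exact div_nonneg (Real.sin_nonneg_of_nonneg_of_le_pi hc hd)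
          (Real.sinh_nonneg_iff.2 hτ.le)
      linarith [h4.1]
    · intro s hcd ha hb
      rw [Complex.neg_im, L_im_zero hη (x := s.re) (abs_lt.2 ⟨by linarith, by linarith⟩) s rfl hcd]
      have := Cb_nonneg η
      simp only [neg_zero]
      positivity
  by_contra hneg
  push Not at hneg
  have hC := Cb_nonneg η
  -- choose a small τ
  obtain ⟨τ, hτ1, hτ2⟩ := exists_between
    (show (0 : ℝ) < min (η - |s.re|) (-(S (cL η) s).im / (Cb η + 1)) by
      apply lt_min (by linarith)
      apply div_pos (by linarith) (by linarith))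
  have h3 := key τ hτ1 (hτ2.trans_le (min_le_left _ _))
  have h4 := hτ2.trans_le (min_le_right _ _)
  rw [lt_div_iff₀ (by linarith)] at h4
  nlinarith

/-- `Im L ≤ π/4` -/
theorem im_L_le {η : ℝ} (hη : 0 < η) {s : ℂ} (hs : |s.re| < η) (h0 : 0 ≤ s.im)
    (h1 : s.im ≤ Real.pi) : (S (cL η) s).im ≤ Real.pi / 4 := by
  have hC := Cb_nonneg η
  have key : ∀ τ : ℝ, 0 < τ → τ < η - |s.re| → (S (cL η) s).im ≤ Real.pi / 4 + τ * Cb η := by
    intro τ hτ hτ2
    have hτη : τ ≤ η := by linarith [abs_nonneg s.re]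
    have hre := abs_le.1 (show |s.re| ≤ η - τ by linarith)
    have hpos : 0 < η - τ := by linarith [abs_nonneg s.re]
    have := im_le_of_frontier (f := S (cL η)) (a := -(η - τ)) (b := η - τ) (c := 0)
      (d := Real.pi) (M := Real.pi / 4 + τ * Cb η) (by linarith) Real.pi_pos ?_ ?_ ?_ (s := s)
      (by linarith) hre.2 h0 h1
    · exact this
    · intro s ha hb _ _
      exact (hasDerivAt_L hη (abs_lt.2 ⟨by linarith, by linarith⟩)).differentiableAt
    · intro s hab hc hd
      have habs : |s.re| = η - τ := by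
        rcases hab with h | h
        · rw [h, abs_neg, abs_of_nonneg hpos.le]
        · rw [h, abs_of_nonneg hpos.le]
      have h4 := abs_le.1 (im_L_near hη hτ hτη habs)
      have h5 := Real.arctan_lt_pi_div_two (Real.sin s.im / Real.sinh τ)
      linarith [h4.2]
    · intro s hcd ha hb
      rw [L_im_zero hη (x := s.re) (abs_lt.2 ⟨by linarith, by linarith⟩) s rfl hcd]
      have := Real.pi_pos
      positivity
  by_contra hneg
  push Not at hneg
  obtain ⟨τ, hτ1, hτ2⟩ := exists_between
    (show (0 : ℝ) < min (η - |s.re|) (((S (cL η) s).im - Real.pi / 4) / (Cb η + 1)) by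
      apply lt_min (by linarith)
      apply div_pos (by linarith) (by linarith))
  have h3 := key τ hτ1 (hτ2.trans_le (min_le_left _ _))
  have h4 := hτ2.trans_le (min_le_right _ _)
  rw [lt_div_iff₀ (by linarith)] at h4
  nlinarith

/-- `θ(x) = Im L(x + iπ/2) → π/4` as `x → η` -/
theorem tendsto_theta {η : ℝ} (hη : 0 < η) :
    Tendsto (fun x : ℝ => (S (cL η) (x + I * (Real.pi / 2))).im) (𝓝[<] η) (𝓝 (Real.pi / 4)) := by
  have h1 : Tendsto (fun x : ℝ => Real.arctan (1 / Real.sinh (η - x)) / 2) (𝓝[<] η)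
      (𝓝 (Real.pi / 2 / 2)) := by
    apply Tendsto.div_const
    have h2 : Tendsto (fun x : ℝ => Real.sinh (η - x)) (𝓝[<] η) (𝓝[>] 0) := by
      apply tendsto_nhdsWithin_of_tendsto_nhds_of_eventually_within
      · have : Tendsto (fun x : ℝ => Real.sinh (η - x)) (𝓝 η) (𝓝 (Real.sinh (η - η))) :=
          (Real.continuous_sinh.comp (continuous_const.sub continuous_id)).tendsto η
        rw [sub_self, Real.sinh_zero] at this
        exact this.mono_left nhdsWithin_le_nhds
      · filter_upwards [self_mem_nhdsWithin] with x hx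
        exact Real.sinh_pos_iff.2 (sub_pos.2 hx)
    have h3 : Tendsto (fun x : ℝ => 1 / Real.sinh (η - x)) (𝓝[<] η) atTop := by
      simp only [one_div]
      exact tendsto_inv_nhdsGT_zero.comp h2
    exact (Real.tendsto_arctan_atTop.mono_right nhdsWithin_le_nhds).comp h3
  have h4 : Tendsto (fun x : ℝ => (S (cL η) (x + I * (Real.pi / 2))).im
      - Real.arctan (1 / Real.sinh (η - x)) / 2) (𝓝[<] η) (𝓝 0) := by
    have h5 : Tendsto (fun x : ℝ => (η - x) * Cb η) (𝓝[<] η) (𝓝 0) := by
      have : Tendsto (fun x : ℝ => (η - x) * Cb η) (𝓝 η) (𝓝 ((η - η) * Cb η)) :=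
        ((continuous_const.sub continuous_id).mul continuous_const).tendsto η
      rw [sub_self, zero_mul] at this
      exact this.mono_left nhdsWithin_le_nhds
    apply squeeze_zero_norm' _ h5
    have hmem : Ioo (0 : ℝ) η ∈ 𝓝[<] η := Ioo_mem_nhdsLT hη
    filter_upwards [hmem] with x hx
    rw [Real.norm_eq_abs]
    have h6 := im_L_near hη (τ := η - x) (by linarith [hx.2]) (by linarith [hx.1])
      (s := x + I * (Real.pi / 2)) (by
        simp only [Complex.add_re, Complex.ofReal_re, Complex.mul_re, Complex.I_re, zero_mul,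
          Complex.I_im, one_mul, zero_sub]
        have : ((Real.pi : ℂ) / 2).im = 0 := by
          rw [show ((Real.pi : ℂ) / 2) = ((Real.pi / 2 : ℝ) : ℂ) by push_cast; ring]
          exact Complex.ofReal_im _
        rw [this, neg_zero, add_zero, abs_of_pos hx.1]
        ring)
    have h7 : (x + I * (Real.pi / 2) : ℂ).im = Real.pi / 2 := by
      have : ((Real.pi : ℂ) / 2).re = Real.pi / 2 := by
        rw [show ((Real.pi : ℂ) / 2) = ((Real.pi / 2 : ℝ) : ℂ) by push_cast; ring]
        exact Complex.ofReal_re _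
      simp [this]
    rw [h7, Real.sin_pi_div_two] at h6
    exact h6
  have h8 := h4.add h1
  simp only [sub_add_cancel, zero_add] at h8
  rw [show Real.pi / 4 = Real.pi / 2 / 2 by ring]
  exact h8

/-! ## monotonicity in the imaginary direction -/

theorem im_L_conj (η : ℝ) (s : ℂ) : (S (cL η) (starRingEnd ℂ s)).im = -(S (cL η) s).im := by
  rw [S_conj, Complex.conj_im]

theorem im_L_reflect {η : ℝ} (hη : 0 < η) {t₀ : ℝ} (h0 : 0 < t₀) (h1 : t₀ ≤ Real.pi / 2) {s : ℂ}
    (hs : |s.re| < η) (hi0 : 0 ≤ s.im) (hi1 : s.im ≤ t₀) :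
    (S (cL η) s).im + (S (cL η) (s - 2 * t₀ * I)).im ≤ 0 := by
  have hC := Cb_nonneg η
  have hre0 : ∀ s : ℂ, (s - 2 * t₀ * I).re = s.re := by
    intro s
    simp
  have him0 : ∀ s : ℂ, (s - 2 * t₀ * I).im = s.im - 2 * t₀ := by
    intro s
    simp
  have key : ∀ τ : ℝ, 0 < τ → τ < η - |s.re| →
      (S (cL η) s).im + (S (cL η) (s - 2 * t₀ * I)).im ≤ 2 * (τ * Cb η) := by
    intro τ hτ hτ2
    have hτη : τ ≤ η := by linarith [abs_nonneg s.re]
    have hre := abs_le.1 (show |s.re| ≤ η - τ by linarith)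
    have hpos : 0 < η - τ := by linarith [abs_nonneg s.re]
    have := im_le_of_frontier (f := fun s => S (cL η) s + S (cL η) (s - 2 * t₀ * I))
      (a := -(η - τ)) (b := η - τ) (c := 0)
      (d := t₀) (M := 2 * (τ * Cb η)) (by linarith) h0 ?_ ?_ ?_ (s := s) (by linarith)
      hre.2 hi0 hi1
    · rw [Complex.add_im] at this
      exact this
    · intro s ha hb _ _
      have hs : |s.re| < η := abs_lt.2 ⟨by linarith, by linarith⟩
      refine (hasDerivAt_L hη hs).differentiableAt.add ?_
      have h2 : DifferentiableAt ℂ (S (cL η)) (s - 2 * t₀ * I) :=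
        (hasDerivAt_L hη (by rwa [hre0])).differentiableAt
      exact DifferentiableAt.comp s h2 (differentiableAt_id.sub_const _)
    · intro s hab hc hd
      rw [Complex.add_im]
      have habs : |s.re| = η - τ := by
        rcases hab with h | h
        · rw [h, abs_neg, abs_of_nonneg hpos.le]
        · rw [h, abs_of_nonneg hpos.le]
      have h4 := abs_le.1 (im_L_near hη hτ hτη habs)
      have h5 := abs_le.1 (im_L_near hη hτ hτη (s := s - 2 * t₀ * I) (by rw [hre0, habs]))
      rw [him0] at h5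
      have hsh : 0 < Real.sinh τ := Real.sinh_pos_iff.2 hτ
      have h6 : Real.arctan (Real.sin s.im / Real.sinh τ)
          + Real.arctan (Real.sin (s.im - 2 * t₀) / Real.sinh τ) ≤ 0 := by
        have h7 : Real.sin (s.im - 2 * t₀) = -Real.sin (2 * t₀ - s.im) := by
          rw [← Real.sin_neg]
          congr 1
          ring
        rw [h7, neg_div, Real.arctan_neg]
        have h8 : Real.sin s.im ≤ Real.sin (2 * t₀ - s.im) := by
          have h9 : Real.sin (2 * t₀ - s.im) - Real.sin s.im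
              = 2 * Real.sin (t₀ - s.im) * Real.cos t₀ := by
            rw [Real.sin_sub_sin]
            congr 2
            · ring_nf
            · ring_nf
          have h10 : 0 ≤ Real.sin (t₀ - s.im) :=
            Real.sin_nonneg_of_nonneg_of_le_pi (by linarith) (by linarith [Real.pi_pos])
          have h11 : 0 ≤ Real.cos t₀ :=
            Real.cos_nonneg_of_neg_pi_div_two_le_of_le (by linarith [Real.pi_pos]) h1
          have := mul_nonneg (mul_nonneg zero_le_two h10) h11
          linarith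
        have h12 := Real.arctan_strictMono.monotone (div_le_div_of_nonneg_right h8 hsh.le)
        linarith
      linarith [h4.2, h5.2]
    · intro s hcd ha hb
      rw [Complex.add_im]
      have hs : |s.re| < η := abs_lt.2 ⟨by linarith, by linarith⟩
      have h13 : (S (cL η) (s - 2 * t₀ * I)).im
          = -(S (cL η) (starRingEnd ℂ (s - 2 * t₀ * I))).im := by
        rw [im_L_conj, neg_neg]
      rcases hcd with h | h
      · rw [L_im_zero hη hs s rfl (Or.inl h), h13]
        have h14 := im_L_nonneg hη (s := starRingEnd ℂ (s - 2 * t₀ * I))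
          (by rw [Complex.conj_re, hre0]; exact hs)
          (by rw [Complex.conj_im, him0, h]; linarith)
          (by rw [Complex.conj_im, him0, h]; linarith)
        have : 0 ≤ 2 * (τ * Cb η) := by positivity
        linarith
      · have h15 : starRingEnd ℂ (s - 2 * t₀ * I) = s := by
          apply Complex.ext
          · rw [Complex.conj_re, hre0]
          · rw [Complex.conj_im, him0, h]
            ring
        rw [h13, h15]
        have : 0 ≤ 2 * (τ * Cb η) := by positivity
        linarith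
  by_contra hneg
  push Not at hneg
  obtain ⟨τ, hτ1, hτ2⟩ := exists_between
    (show (0 : ℝ) < min (η - |s.re|) (((S (cL η) s).im + (S (cL η) (s - 2 * t₀ * I)).im)
        / (2 * Cb η + 1)) by
      apply lt_min (by linarith)
      apply div_pos hneg (by linarith))
  have h3 := key τ hτ1 (hτ2.trans_le (min_le_left _ _))
  have h4 := hτ2.trans_le (min_le_right _ _)
  rw [lt_div_iff₀ (by linarith)] at h4
  nlinarith

theorem im_L_mono {η : ℝ} (hη : 0 < η) {x : ℝ} (hx : |x| < η) :
    MonotoneOn (fun t : ℝ => (S (cL η) (x + t * I)).im) (Icc 0 (Real.pi / 2)) := by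
  intro t1 ht1 t2 ht2 h12
  rcases eq_or_lt_of_le h12 with h | h
  · rw [h]
  · have hre : ((x : ℂ) + t1 * I).re = x := by simp
    have him : ((x : ℂ) + t1 * I).im = t1 := by simp
    have h3 := im_L_reflect hη (t₀ := (t1 + t2) / 2) (by linarith [ht1.1]) (by linarith [ht2.2])
      (s := x + t1 * I) (by rwa [hre]) (by rw [him]; exact ht1.1) (by rw [him]; linarith)
    have e : (x : ℂ) + t1 * I - 2 * (((t1 + t2) / 2 : ℝ) : ℂ) * I
        = starRingEnd ℂ ((x : ℂ) + t2 * I) := by
      rw [map_add, map_mul, Complex.conj_I, Complex.conj_ofReal, Complex.conj_ofReal]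
      push_cast
      ring
    rw [e, im_L_conj] at h3
    simp only
    linarith

/-- `Re A ≥ 0` on the rectangle -/
theorem re_A_nonneg {η : ℝ} (hη : 0 < η) {s : ℂ} (hs : |s.re| < η)
    (hi : |s.im| ≤ Real.pi / 2) : 0 ≤ (S (cA η) s).re := by
  -- interior points with positive imaginary part
  have hint : ∀ t : ℝ, 0 < t → t < Real.pi / 2 → 0 ≤ (S (cA η) (s.re + t * I)).re := by
    intro t ht0 ht1
    have hre : ((s.re : ℂ) + t * I).re = s.re := by simp
    have hd : HasDerivAt (fun t : ℝ => (S (cL η) (s.re + t * I)).im)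
        (S (cA η) (s.re + t * I)).re t := by
      have h1 := hasDerivAt_L hη (s := s.re + t * I) (by rwa [hre])
      have h2 : HasDerivAt (fun t : ℝ => (s.re : ℂ) + t * I) I t := by
        have := ((Complex.ofRealCLM.hasDerivAt (x := t)).mul_const I).const_add (s.re : ℂ)
        simpa using this
      have h3 := (h1.scomp t h2)
      have h4 := (Complex.imCLM.hasFDerivAt.comp_hasDerivAt t h3)
      refine h4.congr_deriv ?_
      simp
    have hm := im_L_mono hη hs
    have h5 := hm.derivWithin_nonneg (x := t)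
    have h6 : derivWithin (fun t : ℝ => (S (cL η) (s.re + t * I)).im) (Icc 0 (Real.pi / 2)) t
        = (S (cA η) (s.re + t * I)).re :=
      (hd.hasDerivWithinAt).derivWithin ((uniqueDiffOn_Icc (by linarith [Real.pi_pos])) t
        ⟨ht0.le, ht1.le⟩)
    rwa [h6] at h5
  -- closed interval by continuity
  have hcl : ∀ t : ℝ, 0 ≤ t → t ≤ Real.pi / 2 → 0 ≤ (S (cA η) (s.re + t * I)).re := by
    have hcont : ContinuousOn (fun t : ℝ => (S (cA η) (s.re + t * I)).re)
        (Icc 0 (Real.pi / 2)) := by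
      intro t _
      have hre : ((s.re : ℂ) + t * I).re = s.re := by simp
      have h1 : ContinuousAt (S (cA η)) (s.re + t * I) :=
        (dec_cA hη).continuousAt (by rwa [hre])
      have h2 : ContinuousAt (fun t : ℝ => (s.re : ℂ) + t * I) t := by fun_prop
      exact (Complex.continuous_re.continuousAt.comp
        (ContinuousAt.comp (g := S (cA η)) (f := fun t : ℝ => (s.re : ℂ) + t * I)
          h1 h2)).continuousWithinAt
    have hne : (0 : ℝ) ≠ Real.pi / 2 := by
      have := Real.pi_pos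
      linarith
    intro t h0 h1
    have hmaps : MapsTo (fun t : ℝ => (S (cA η) (s.re + t * I)).re) (Ioo 0 (Real.pi / 2))
        (Ici 0) := fun t ht => hint t ht.1 ht.2
    have h3 := hmaps.closure_of_continuousOn (by rw [closure_Ioo hne]; exact hcont)
    rw [closure_Ioo hne, closure_Ici] at h3
    exact h3 ⟨h0, h1⟩
  rcases le_total 0 s.im with h | h
  · have e : s = s.re + s.im * I := (Complex.re_add_im s).symm
    rw [e]
    exact hcl s.im h (abs_le.1 hi).2
  · have e : s = starRingEnd ℂ ((s.re : ℂ) + (-s.im : ℝ) * I) := by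
      apply Complex.ext <;> simp
    rw [e, S_conj, Complex.conj_re]
    exact hcl (-s.im) (by linarith) (by linarith [(abs_le.1 hi).1])

end Pool.Agent.Lib.MP_0430e4_lc.LPLOW
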